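import Mathlib

set_option autoImplicit false

noncomputable section

namespace Pool.Agent.H281Z.Hom

open scoped ENNReal

/-- square summable families with values in `F` -/
abbrev L (ι : Type) (F : Type) [NormedAddCommGroup F] : Type := lp (fun _ : ι => F) 2

section tools

variable {ι κ : Type} {F : Type} [NormedAddCommGroup F] [NormedSpace ℂ F]

lemma two_pos' : 0 < (2 : ℝ≥0∞).toReal := by norm_num

omit [NormedSpace ℂ F] in
lemma pull_sum (σ : ι → κ) (hσ : Function.Injective σ) (x : L κ F) (s : Finset ι) :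
    ∑ i ∈ s, ‖x (σ i)‖ ^ (2 : ℝ≥0∞).toReal ≤ ‖x‖ ^ (2 : ℝ≥0∞).toReal := by
  classical
  have h := lp.sum_rpow_le_norm_rpow two_pos' x (s.image σ)
  rwa [Finset.sum_image (fun a _ b _ hab => hσ hab)] at h

/-- pull back along an injective map of index sets -/
def pull (σ : ι → κ) (hσ : Function.Injective σ) : L κ F →L[ℂ] L ι F :=
  LinearMap.mkContinuous
    { toFun := fun x => ⟨fun i => x (σ i), memℓp_gen' (pull_sum σ hσ x)⟩
      map_add' := fun x y => by ext i; rfl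
      map_smul' := fun c x => by ext i; rfl }
    1 (fun x => by
      rw [one_mul]
      exact lp.norm_le_of_forall_sum_le two_pos' (norm_nonneg _) (pull_sum σ hσ x))

@[simp] lemma pull_apply (σ : ι → κ) (hσ : Function.Injective σ) (x : L κ F) (i : ι) :
    (pull σ hσ x) i = x (σ i) := rfl

lemma norm_pull_le (σ : ι → κ) (hσ : Function.Injective σ) :
    ‖(pull σ hσ : L κ F →L[ℂ] L ι F)‖ ≤ 1 :=
  LinearMap.mkContinuous_norm_le _ zero_le_one _

/-- the shifted sequence -/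
def shF (x : ℕ → F) : ℕ → F
  | 0 => 0
  | (n + 1) => x n

omit [NormedSpace ℂ F] in
lemma sh_sum (x : L ℕ F) (s : Finset ℕ) :
    ∑ i ∈ s, ‖shF (fun n => x n) i‖ ^ (2 : ℝ≥0∞).toReal ≤ ‖x‖ ^ (2 : ℝ≥0∞).toReal := by
  obtain ⟨N, hN⟩ := s.exists_nat_subset_range
  have h1 : s ⊆ Finset.range (N + 1) := hN.trans (Finset.range_mono (Nat.le_succ N))
  refine (Finset.sum_le_sum_of_subset_of_nonneg h1 (fun i _ _ => by positivity)).trans ?_
  rw [Finset.sum_range_succ']
  have h := lp.sum_rpow_le_norm_rpow two_pos' x (Finset.range N)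
  simpa [shF] using h

/-- forward shift -/
def sh : L ℕ F →L[ℂ] L ℕ F :=
  LinearMap.mkContinuous
    { toFun := fun x => ⟨shF (fun n => x n), memℓp_gen' (sh_sum x)⟩
      map_add' := fun x y => by
        ext i; cases i
        · show (0 : F) = 0 + 0
          simp
        · rfl
      map_smul' := fun c x => by
        ext i; cases i
        · show (0 : F) = c • 0
          simp
        · rfl }
    1 (fun x => by
      rw [one_mul]
      exact lp.norm_le_of_forall_sum_le two_pos' (norm_nonneg _) (sh_sum x))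

@[simp] lemma sh_zero (x : L ℕ F) : (sh x) 0 = 0 := rfl

@[simp] lemma sh_succ (x : L ℕ F) (n : ℕ) : (sh x) (n + 1) = x n := rfl

lemma norm_sh_le : ‖(sh : L ℕ F →L[ℂ] L ℕ F)‖ ≤ 1 :=
  LinearMap.mkContinuous_norm_le _ zero_le_one _

lemma norm_sh_apply_le (x : L ℕ F) : ‖sh x‖ ≤ ‖x‖ := by
  have := (sh : L ℕ F →L[ℂ] L ℕ F).le_of_opNorm_le norm_sh_le x
  simpa using this

/-- block diagonal operator -/
def dg (T : ι → F →L[ℂ] F) (K : ℝ) (hK : 0 ≤ K) (hT : ∀ i, ‖T i‖ ≤ K) : L ι F →L[ℂ] L ι F :=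
  lp.mapCLM 2 T hK hT

@[simp] lemma dg_apply (T : ι → F →L[ℂ] F) (K : ℝ) (hK : 0 ≤ K) (hT : ∀ i, ‖T i‖ ≤ K)
    (x : L ι F) (i : ι) : (dg T K hK hT x) i = T i (x i) := rfl

lemma norm_dg_le (T : ι → F →L[ℂ] F) (K : ℝ) (hK : 0 ≤ K) (hT : ∀ i, ‖T i‖ ≤ K) :
    ‖dg T K hK hT‖ ≤ K := lp.norm_mapCLM_le 2 T hK hT

/-- coordinate projection -/
def ev (i : ι) : L ι F →L[ℂ] F := lp.evalCLM ℂ (fun _ : ι => F) 2 i

@[simp] lemma ev_apply (i : ι) (x : L ι F) : ev i x = x i := rfl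

omit [NormedSpace ℂ F] in
lemma norm_coord_le (x : L ι F) (i : ι) : ‖x i‖ ≤ ‖x‖ := lp.norm_apply_le_norm (by norm_num) x i

open Classical in
/-- coordinate inclusion -/
def inc (i : ι) : F →L[ℂ] L ι F := lp.singleContinuousLinearMap ℂ (fun _ : ι => F) 2 i

@[simp] lemma inc_self (i : ι) (v : F) : (inc i v : L ι F) i = v := by
  classical
  unfold inc
  simp

lemma inc_ne (i j : ι) (v : F) (h : j ≠ i) : (inc i v : L ι F) j = 0 := by
  classical
  unfold inc
  simp [Pi.single_eq_of_ne h]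

lemma norm_inc (i : ι) (v : F) : ‖(inc i v : L ι F)‖ = ‖v‖ := by
  classical
  unfold inc
  rw [lp.singleContinuousLinearMap_apply]
  convert lp.norm_single (E := fun _ : ι => F) (p := 2) (by norm_num) i v

lemma ext_inc {G : Type} [NormedAddCommGroup G] [NormedSpace ℂ G] (f g : L ι F →L[ℂ] G)
    (h : ∀ i v, f (inc i v) = g (inc i v)) : f = g := by
  classical
  refine lp.ext_continuousLinearMap (by norm_num) (fun i => ?_)
  ext v
  have := h i v
  unfold inc at this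
  simpa using this

omit [NormedSpace ℂ F] in
lemma L_ext {x y : L ι F} (h : ∀ i, x i = y i) : x = y := lp.ext (funext h)

end tools

/-- unimodular numbers with all powers at distance `< 1` agree -/
lemma eq_of_pow_close (a b : ℂ) (ha : ‖a‖ = 1) (hb : ‖b‖ = 1)
    (h : ∀ m : ℕ, ‖a ^ m - b ^ m‖ < 1) : a = b := by
  by_contra hne
  have hb0 : b ≠ 0 := by intro h0; simp [h0] at hb
  set ρ := a / b with hρ
  have hρ1 : ρ ≠ 1 := by
    intro h1; apply hne; rw [hρ, div_eq_one_iff_eq hb0] at h1; exact h1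
  have hρn : ‖ρ‖ = 1 := by rw [hρ, norm_div, ha, hb]; simp
  have h2 : ∀ m : ℕ, ‖ρ ^ m - 1‖ < 1 := by
    intro m
    have : ρ ^ m - 1 = (a ^ m - b ^ m) / b ^ m := by
      rw [hρ, div_pow]; field_simp
    rw [this, norm_div, norm_pow, hb, one_pow, div_one]; exact h m
  have h3 : ∀ m : ℕ, 1 / 2 ≤ (ρ ^ m).re := by
    intro m
    have h4 := h2 m
    have h5 : ‖ρ ^ m‖ = 1 := by rw [norm_pow, hρn, one_pow]
    have h6 : ‖ρ ^ m - 1‖ ^ 2 < 1 := by nlinarith [norm_nonneg (ρ ^ m - 1)]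
    have h7 : ‖ρ ^ m‖ ^ 2 = 1 := by rw [h5]; norm_num
    rw [Complex.sq_norm, Complex.normSq_apply] at h6 h7
    simp only [Complex.sub_re, Complex.one_re, Complex.sub_im, Complex.one_im] at h6
    nlinarith
  have h8 : ∀ M : ℕ, (M : ℝ) / 2 ≤ 2 / ‖ρ - 1‖ := by
    intro M
    have e := geom_sum_eq hρ1 M
    have h9 : (M : ℝ) / 2 ≤ (∑ i ∈ Finset.range M, ρ ^ i).re := by
      rw [Complex.re_sum]
      have := Finset.sum_le_sum (fun i (_ : i ∈ Finset.range M) => h3 i)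
      simpa [div_eq_mul_inv] using this
    refine h9.trans ((Complex.re_le_norm _).trans ?_)
    rw [e, norm_div]
    have hp : 0 < ‖ρ - 1‖ := norm_pos_iff.mpr (sub_ne_zero.mpr hρ1)
    gcongr
    linarith [h2 M]
  obtain ⟨M, hM⟩ := exists_nat_gt (2 * (2 / ‖ρ - 1‖))
  linarith [h8 M]

end Pool.Agent.H281Z.Hom
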