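import Pool.Agent.H281Z.HomA

set_option autoImplicit false

noncomputable section

namespace Pool.Agent.H281Z.Hom

open scoped ENNReal

/-- the base space -/
abbrev E : Type := L ℕ ℂ

lemma mem_geo (t : ℝ) (ht : |t| ≤ 1 / 2) : Memℓp (fun n : ℕ => ((t : ℂ) ^ n)) 2 := by
  apply memℓp_gen
  have h1 : t ^ 2 < 1 := by
    have := sq_abs t
    nlinarith [abs_nonneg t]
  have h2 := summable_geometric_of_lt_one (sq_nonneg t) h1
  refine h2.congr (fun n => ?_)
  simp only [ENNReal.toReal_ofNat, Real.rpow_ofNat, norm_pow, Complex.norm_real, Real.norm_eq_abs]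
  rw [← pow_mul, ← pow_mul, mul_comm n 2, pow_mul, pow_mul, sq_abs]

/-- the geometric sequence -/
def k (t : ℝ) : E := if h : |t| ≤ 1 / 2 then ⟨fun n : ℕ => ((t : ℂ) ^ n), mem_geo t h⟩ else 0

lemma k_apply (t : ℝ) (ht : |t| ≤ 1 / 2) (n : ℕ) : (k t) n = (t : ℂ) ^ n := by
  unfold k; rw [dif_pos ht]

/-- backward shift -/
def R : E →L[ℂ] E := pull (fun n : ℕ => n + 1) (add_left_injective 1)

lemma norm_R_le : ‖R‖ ≤ 1 := norm_pull_le _ _

lemma R_k (t : ℝ) (ht : |t| ≤ 1 / 2) : R (k t) = (t : ℂ) • k t := by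
  apply L_ext; intro n
  have : (R (k t)) n = (k t) (n + 1) := rfl
  rw [this, lp.coeFn_smul, Pi.smul_apply, k_apply t ht, k_apply t ht, pow_succ, smul_eq_mul]
  ring

/-- first coordinate -/
def φ : E →L[ℂ] ℂ := ev 0

lemma φ_k (t : ℝ) (ht : |t| ≤ 1 / 2) : φ (k t) = 1 := by
  show (k t) 0 = 1
  rw [k_apply t ht]; simp

lemma norm_φ_le (x : E) : ‖φ x‖ ≤ ‖x‖ := norm_coord_le x 0

lemma k_rec (t : ℝ) (ht : |t| ≤ 1 / 2) : k t = inc 0 (1 : ℂ) + (t : ℂ) • sh (k t) := by
  apply L_ext; intro n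
  rw [lp.coeFn_add, Pi.add_apply, lp.coeFn_smul, Pi.smul_apply]
  cases n with
  | zero => simp [k_apply t ht]
  | succ n =>
    rw [inc_ne 0 (n + 1) _ (by omega), sh_succ, k_apply t ht, k_apply t ht, pow_succ, smul_eq_mul]
    ring

lemma norm_k_le (t : ℝ) : ‖k t‖ ≤ 2 := by
  by_cases ht : |t| ≤ 1 / 2
  · have h := k_rec t ht
    have h1 : ‖k t‖ ≤ 1 + |t| * ‖k t‖ := by
      conv_lhs => rw [h]
      refine (norm_add_le _ _).trans ?_
      rw [norm_inc, norm_smul, norm_one, Complex.norm_real, Real.norm_eq_abs]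
      gcongr
      exact norm_sh_apply_le _
    nlinarith [norm_nonneg (k t), abs_nonneg t]
  · unfold k; rw [dif_neg ht]; simp

lemma norm_k_sub_le (t s : ℝ) (ht : |t| ≤ 1 / 2) (hs : |s| ≤ 1 / 2) :
    ‖k t - k s‖ ≤ 4 * |t - s| := by
  have h : k t - k s = (t : ℂ) • sh (k t - k s) + ((t - s : ℝ) : ℂ) • sh (k s) := by
    conv_lhs => rw [k_rec t ht, k_rec s hs]
    rw [map_sub, smul_sub]
    push_cast
    rw [sub_smul]
    abel
  have h1 : ‖k t - k s‖ ≤ |t| * ‖k t - k s‖ + |t - s| * 2 := by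
    conv_lhs => rw [h]
    refine (norm_add_le _ _).trans ?_
    rw [norm_smul, norm_smul, Complex.norm_real, Complex.norm_real, Real.norm_eq_abs,
      Real.norm_eq_abs]
    gcongr
    · exact norm_sh_apply_le _
    · exact (norm_sh_apply_le _).trans (norm_k_le s)
  nlinarith [norm_nonneg (k t - k s), abs_nonneg t]

/-- first index of a position -/
def ix (j : ℕ) : ℕ := (Nat.unpair (Nat.unpair j).1).1

/-- second index of a position -/
def iy (j : ℕ) : ℕ := (Nat.unpair (Nat.unpair j).1).2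

/-- the marked parameter -/
def τ (j : ℕ) : ℝ := (ix j : ℝ) / (ix j + iy j) / 2

lemma τ_abs (j : ℕ) : |τ j| ≤ 1 / 2 := by
  unfold τ
  have h1 : (0 : ℝ) ≤ (ix j : ℝ) / (ix j + iy j) := by positivity
  have h2 : (ix j : ℝ) / (ix j + iy j) ≤ 1 := by
    apply div_le_one_of_le₀
    · have : (0 : ℝ) ≤ iy j := by positivity
      linarith
    · positivity
  rw [abs_of_nonneg (by positivity)]
  linarith

/-- the companion vector -/
def u (j : ℕ) : E := if ix j = 0 then k (1 / 2) else 0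

lemma norm_u_le (j : ℕ) : ‖u j‖ ≤ 2 := by
  unfold u; split_ifs
  · exact norm_k_le _
  · simp

/-- the second level space -/
abbrev H2 : Type := L ℕ E

/-- vectors at even positions -/
def pv (n : ℕ) : E := if n % 2 = 0 then k (τ (n / 2)) else 0

/-- vectors moved to odd positions -/
def qv (n : ℕ) : E := if n % 2 = 0 then u (n / 2) else 0

lemma norm_rank_le (v : E) (hv : ‖v‖ ≤ 2) : ‖φ.smulRight v‖ ≤ 2 := by
  refine ContinuousLinearMap.opNorm_le_bound _ (by norm_num) (fun x => ?_)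
  rw [ContinuousLinearMap.smulRight_apply, norm_smul]
  have := norm_φ_le x
  nlinarith [norm_nonneg (φ x), norm_nonneg v, norm_nonneg x]

lemma norm_pv_le (n : ℕ) : ‖pv n‖ ≤ 2 := by
  unfold pv; split_ifs
  · exact norm_k_le _
  · simp

lemma norm_qv_le (n : ℕ) : ‖qv n‖ ≤ 2 := by
  unfold qv; split_ifs
  · exact norm_u_le _
  · simp

/-- the idempotent -/
def Q : H2 →L[ℂ] H2 :=
  dg (fun n => φ.smulRight (pv n)) 2 (by norm_num) (fun n => norm_rank_le _ (norm_pv_le n)) +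
  sh ∘L dg (fun n => φ.smulRight (qv n)) 2 (by norm_num) (fun n => norm_rank_le _ (norm_qv_le n))

lemma Q_zero (x : H2) : (Q x) 0 = φ (x 0) • pv 0 := by
  unfold Q
  rw [add_apply, lp.coeFn_add, Pi.add_apply]
  simp

lemma Q_succ (x : H2) (n : ℕ) : (Q x) (n + 1) = φ (x (n + 1)) • pv (n + 1) + φ (x n) • qv n := by
  unfold Q
  rw [add_apply, lp.coeFn_add, Pi.add_apply]
  simp

lemma Q_even (x : H2) (j : ℕ) : (Q x) (2 * j) = φ (x (2 * j)) • k (τ j) := by
  cases j with
  | zero => rw [Nat.mul_zero, Q_zero]; simp [pv]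
  | succ j =>
    have e : 2 * (j + 1) = (2 * j + 1) + 1 := by ring
    rw [e, Q_succ]
    have h1 : pv (2 * j + 1 + 1) = k (τ (j + 1)) := by
      unfold pv
      rw [if_pos (by omega)]
      congr 2; omega
    have h2 : qv (2 * j + 1) = 0 := by
      unfold qv
      rw [if_neg (by omega)]
    rw [h1, h2]; simp

lemma Q_odd (x : H2) (j : ℕ) : (Q x) (2 * j + 1) = φ (x (2 * j)) • u j := by
  rw [Q_succ]
  have h1 : pv (2 * j + 1) = 0 := by
    unfold pv
    rw [if_neg (by omega)]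
  have h2 : qv (2 * j) = u j := by
    unfold qv
    rw [if_pos (by omega)]
    congr 1; omega
  rw [h1, h2]; simp

lemma ext_par {x y : H2} (h0 : ∀ j, x (2 * j) = y (2 * j))
    (h1 : ∀ j, x (2 * j + 1) = y (2 * j + 1)) : x = y := by
  apply L_ext; intro n
  rcases Nat.even_or_odd' n with ⟨j, rfl | rfl⟩
  · exact h0 j
  · exact h1 j

lemma Q_Q (x : H2) : Q (Q x) = Q x := by
  apply ext_par
  · intro j
    rw [Q_even, Q_even, map_smul, φ_k _ (τ_abs j)]; simp
  · intro j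
    rw [Q_odd, Q_odd, Q_even, map_smul, φ_k _ (τ_abs j)]; simp

/-- the weights -/
def w (n : ℕ) : ℝ := 1 / ((n : ℝ) + 1)

lemma w_pos (n : ℕ) : 0 < w n := by unfold w; positivity

lemma w_le (n : ℕ) : w n ≤ 1 := by
  unfold w
  apply div_le_one_of_le₀
  · have : (0 : ℝ) ≤ n := by positivity
    linarith
  · positivity

lemma w_anti {m n : ℕ} (h : m ≤ n) : w n ≤ w m := by
  unfold w
  have : (m : ℝ) ≤ n := by exact_mod_cast h
  gcongr

lemma norm_w_id (n : ℕ) : ‖(w n : ℂ) • ContinuousLinearMap.id ℂ E‖ ≤ 1 := by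
  rw [norm_smul, Complex.norm_real, Real.norm_eq_abs, abs_of_pos (w_pos n)]
  have := ContinuousLinearMap.norm_id_le (𝕜 := ℂ) (E := E)
  nlinarith [w_le n, w_pos n, norm_nonneg (ContinuousLinearMap.id ℂ E)]

/-- the weighted shift -/
def W : H2 →L[ℂ] H2 :=
  sh ∘L dg (fun n => (w n : ℂ) • ContinuousLinearMap.id ℂ E) 1 zero_le_one norm_w_id

lemma W_zero (x : H2) : (W x) 0 = 0 := rfl

lemma W_succ (x : H2) (n : ℕ) : (W x) (n + 1) = (w n : ℂ) • x n := rfl

lemma W_inj (x : H2) (h : W x = 0) : x = 0 := by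
  apply L_ext; intro n
  have h1 := W_succ x n
  rw [h] at h1
  have h2 : (w n : ℂ) ≠ 0 := by exact_mod_cast (w_pos n).ne'
  have h3 : (w n : ℂ) • x n = 0 := by rw [← h1]; rfl
  rw [(smul_eq_zero.mp h3).resolve_left h2]; rfl

lemma norm_W_le (x : H2) (m : ℕ) (hx : ∀ n, n < m → x n = 0) : ‖W x‖ ≤ w m * ‖x‖ := by
  unfold W
  rw [ContinuousLinearMap.comp_apply]
  refine (norm_sh_apply_le _).trans ?_
  have h : ‖(w m : ℂ) • x‖ = w m * ‖x‖ := by
    rw [norm_smul, Complex.norm_real, Real.norm_eq_abs, abs_of_pos (w_pos m)]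
  rw [← h]
  refine lp.norm_mono (by norm_num) (fun n => ?_)
  rw [dg_apply, lp.coeFn_smul, Pi.smul_apply]
  by_cases hn : n < m
  · simp [hx n hn]
  · rw [smul_apply, ContinuousLinearMap.id_apply, norm_smul, norm_smul,
      Complex.norm_real, Complex.norm_real, Real.norm_eq_abs, Real.norm_eq_abs,
      abs_of_pos (w_pos m), abs_of_pos (w_pos n)]
    gcongr
    exact w_anti (by omega)

lemma W_pow (x : H2) (m : ℕ) :
    (∀ n, n < m → ((W ^ m) x) n = 0) ∧ ‖(W ^ m) x‖ ≤ 1 / (m.factorial : ℝ) * ‖x‖ := by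
  induction m with
  | zero => simp
  | succ m ih =>
    have e : (W ^ (m + 1)) x = W ((W ^ m) x) := by rw [pow_succ']; rfl
    rw [e]
    constructor
    · intro n hn
      cases n with
      | zero => exact W_zero _
      | succ n => rw [W_succ, ih.1 n (by omega), smul_zero]
    · refine (norm_W_le _ m ih.1).trans ?_
      have h1 : w m * ‖(W ^ m) x‖ ≤ w m * (1 / (m.factorial : ℝ) * ‖x‖) :=
        mul_le_mul_of_nonneg_left ih.2 (w_pos m).le
      refine h1.trans (le_of_eq ?_)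
      unfold w
      rw [Nat.factorial_succ]
      push_cast
      field_simp

lemma norm_W_pow (m : ℕ) : ‖W ^ m‖ ≤ 1 / (m.factorial : ℝ) :=
  ContinuousLinearMap.opNorm_le_bound _ (by positivity) (fun x => (W_pow x m).2)

lemma W_inc (n : ℕ) (v : E) : W (inc n v) = (w n : ℂ) • inc (n + 1) v := by
  apply L_ext; intro m
  rw [lp.coeFn_smul, Pi.smul_apply]
  cases m with
  | zero => rw [W_zero, inc_ne _ _ _ (by omega), smul_zero]
  | succ m =>
    rw [W_succ]
    by_cases h : m = n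
    · subst h; simp
    · rw [inc_ne _ _ _ h, inc_ne _ _ _ (by omega)]; simp

end Pool.Agent.H281Z.Hom
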