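import Pool.Agent.H281Z.HomB

set_option autoImplicit false

noncomputable section

namespace Pool.Agent.H281Z.Hom

section core

variable (c : H2 →L[ℂ] H2) (hc : ∀ x, c (W x) = - W (c x))
include hc

lemma ent_rec (n : ℕ) (v : E) : (w n : ℂ) • c (inc (n + 1) v) = - W (c (inc n v)) := by
  rw [← hc, W_inc, map_smul]

lemma ent_row0 (n : ℕ) (v : E) : (c (inc (n + 1) v)) 0 = 0 := by
  have h := congrArg (fun x : H2 => x 0) (ent_rec c hc n v)
  simp only [lp.coeFn_smul, Pi.smul_apply, lp.coeFn_neg, Pi.neg_apply, W_zero, neg_zero] at h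
  have h2 : (w n : ℂ) ≠ 0 := by exact_mod_cast (w_pos n).ne'
  exact (smul_eq_zero.mp h).resolve_left h2

lemma ent_step (m n : ℕ) (v : E) :
    (c (inc (n + 1) v)) (m + 1) = (-((w m : ℂ) / (w n : ℂ))) • (c (inc n v)) m := by
  have h := congrArg (fun x : H2 => x (m + 1)) (ent_rec c hc n v)
  simp only [lp.coeFn_smul, Pi.smul_apply, lp.coeFn_neg, Pi.neg_apply, W_succ] at h
  have h2 : (w n : ℂ) ≠ 0 := by exact_mod_cast (w_pos n).ne'
  have h3 : (c (inc (n + 1) v)) (m + 1) =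
      (w n : ℂ)⁻¹ • ((w n : ℂ) • (c (inc (n + 1) v)) (m + 1)) := by
    rw [smul_smul, inv_mul_cancel₀ h2, one_smul]
  rw [h3, h, smul_neg, smul_smul, neg_smul, div_eq_inv_mul]

lemma ent_diag (n : ℕ) (v : E) : (c (inc n v)) n = (-1 : ℂ) ^ n • (c (inc 0 v)) 0 := by
  induction n with
  | zero => simp
  | succ n ih =>
    have h2 : (w n : ℂ) ≠ 0 := by exact_mod_cast (w_pos n).ne'
    rw [ent_step c hc, ih, smul_smul, div_self h2, pow_succ, mul_comm]

lemma ent_up (n : ℕ) (v : E) : (c (inc (n + 1) v)) n = 0 := by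
  induction n with
  | zero => exact ent_row0 c hc 0 v
  | succ n ih => rw [ent_step c hc, ih, smul_zero]

lemma ent_low (n : ℕ) (v : E) :
    (c (inc n v)) (n + 1) = ((-1 : ℂ) ^ n * (w n : ℂ)) • (c (inc 0 v)) 1 := by
  induction n with
  | zero => simp [w]
  | succ n ih =>
    have h2 : (w n : ℂ) ≠ 0 := by exact_mod_cast (w_pos n).ne'
    rw [ent_step c hc, ih, smul_smul]
    congr 1
    field_simp
    ring

lemma ent_zero (x : H2) : (c x) 0 = (c (inc 0 (x 0))) 0 := by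
  have h : (ev 0 : H2 →L[ℂ] E) ∘L c = (ev 0 : H2 →L[ℂ] E) ∘L c ∘L inc 0 ∘L ev 0 := by
    apply ext_inc
    intro i v
    simp only [ContinuousLinearMap.comp_apply, ev_apply]
    cases i with
    | zero => simp
    | succ i => rw [ent_row0 c hc, inc_ne _ _ _ (by omega), map_zero, map_zero]; rfl
  exact DFunLike.congr_fun h x

end core

/-- the marked vectors -/
def vv (j : ℕ) : H2 := inc (2 * j) (k (τ j)) + inc (2 * j + 1) (u j)

lemma vv_apply (j n : ℕ) :
    (vv j) n = (inc (2 * j) (k (τ j)) : H2) n + (inc (2 * j + 1) (u j) : H2) n := rfl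

lemma Q_vv (j : ℕ) : Q (vv j) = vv j := by
  apply ext_par
  · intro i
    rw [Q_even, vv_apply, inc_ne (2 * j + 1) (2 * i) _ (by omega), add_zero]
    by_cases h : i = j
    · subst h; rw [inc_self, φ_k _ (τ_abs i), one_smul]
    · rw [inc_ne _ _ _ (by omega)]; simp
  · intro i
    rw [Q_odd, vv_apply, vv_apply, inc_ne (2 * j + 1) (2 * i) _ (by omega), add_zero,
      inc_ne (2 * j) (2 * i + 1) _ (by omega), zero_add]
    by_cases h : i = j
    · subst h; rw [inc_self, inc_self, φ_k _ (τ_abs i), one_smul]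
    · rw [inc_ne _ _ _ (by omega), inc_ne _ _ _ (by omega)]; simp

lemma norm_W_vv (j : ℕ) : ‖W (vv j)‖ ≤ 4 * w (2 * j) := by
  have h1 := norm_W_le (vv j) (2 * j) (fun n hn => by
    rw [vv_apply, inc_ne _ _ _ (by omega), inc_ne _ _ _ (by omega), add_zero])
  have h2 : ‖vv j‖ ≤ 4 := by
    unfold vv
    refine (norm_add_le _ _).trans ?_
    rw [norm_inc, norm_inc]
    linarith [norm_k_le (τ j), norm_u_le j]
  nlinarith [w_pos (2 * j)]

lemma zero_of_w (x : E) (K : ℝ) (h : ∀ r : ℕ, ‖x‖ ≤ K * w r) : x = 0 := by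
  by_contra hx
  have hp : 0 < ‖x‖ := norm_pos_iff.mpr hx
  obtain ⟨r, hr⟩ := exists_nat_gt (K / ‖x‖)
  have h1 := h r
  unfold w at h1
  rw [div_lt_iff₀ hp] at hr
  rw [mul_one_div, le_div_iff₀ (by positivity)] at h1
  nlinarith

lemma marks (c : H2 →L[ℂ] H2) (hc : ∀ x, c (W x) = - W (c x)) (C : ℝ) (hC : 0 ≤ C)
    (hm : ∀ v, Q v = v → ‖c v - Q (c v)‖ ≤ C * ‖W v‖) (i l : ℕ) :
    (c (inc 0 (k ((i : ℝ) / (i + l) / 2)))) 0 =
        φ ((c (inc 0 (k ((i : ℝ) / (i + l) / 2)))) 0) • k ((i : ℝ) / (i + l) / 2) ∧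
      (c (inc 0 (k (1 / 2)))) 0 = (- φ ((c (inc 0 (k 0))) 0)) • k (1 / 2) := by
  have key : ∀ j, ‖(c (inc 0 (k (τ j)))) 0 - φ ((c (inc 0 (k (τ j)))) 0) • k (τ j)‖
        ≤ 4 * C * w (2 * j) ∧
      ‖(c (inc 0 (u j))) 0 + φ ((c (inc 0 (k (τ j)))) 0) • u j‖
        ≤ (4 * C + ‖(c (inc 0 (k (τ j)))) 1‖) * w (2 * j) := by
    intro j
    have h1 : ‖c (vv j) - Q (c (vv j))‖ ≤ 4 * C * w (2 * j) := by
      refine (hm _ (Q_vv j)).trans ?_
      have := mul_le_mul_of_nonneg_left (norm_W_vv j) hC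
      linarith
    have e0 : (c (vv j)) (2 * j) = (c (inc 0 (k (τ j)))) 0 := by
      unfold vv
      rw [map_add, lp.coeFn_add, Pi.add_apply, ent_diag c hc, ent_up c hc, add_zero, pow_mul]
      simp
    have e1 : (c (vv j)) (2 * j + 1) =
        (w (2 * j) : ℂ) • (c (inc 0 (k (τ j)))) 1 - (c (inc 0 (u j))) 0 := by
      unfold vv
      rw [map_add, lp.coeFn_add, Pi.add_apply, ent_diag c hc, ent_low c hc, pow_succ, pow_mul]
      simp [sub_eq_add_neg]
    constructor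
    · have h2 := (norm_coord_le _ (2 * j)).trans h1
      rwa [lp.coeFn_sub, Pi.sub_apply, Q_even, e0] at h2
    · have h2 := (norm_coord_le _ (2 * j + 1)).trans h1
      rw [lp.coeFn_sub, Pi.sub_apply, Q_odd, e0, e1] at h2
      have h3 : (c (inc 0 (u j))) 0 + φ ((c (inc 0 (k (τ j)))) 0) • u j =
          (w (2 * j) : ℂ) • (c (inc 0 (k (τ j)))) 1 -
          ((w (2 * j) : ℂ) • (c (inc 0 (k (τ j)))) 1 - (c (inc 0 (u j))) 0 -
            φ ((c (inc 0 (k (τ j)))) 0) • u j) := by abel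
      rw [h3]
      refine (norm_sub_le _ _).trans ?_
      rw [norm_smul, Complex.norm_real, Real.norm_eq_abs, abs_of_pos (w_pos _)]
      nlinarith
  have hτ : ∀ i l r : ℕ, τ (Nat.pair (Nat.pair i l) r) = (i : ℝ) / (i + l) / 2 := by
    intro i l r; simp [τ, ix, iy]
  have hw : ∀ a r : ℕ, w (2 * Nat.pair a r) ≤ w r := by
    intro a r
    apply w_anti
    have := Nat.right_le_pair a r
    omega
  constructor
  · rw [← sub_eq_zero]
    apply zero_of_w _ (4 * C)
    intro r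
    have h := (key (Nat.pair (Nat.pair i l) r)).1
    rw [hτ] at h
    refine h.trans ?_
    gcongr
    exact hw _ _
  · rw [neg_smul, ← add_eq_zero_iff_eq_neg]
    apply zero_of_w _ (4 * C + ‖(c (inc 0 (k 0))) 1‖)
    intro r
    have h := (key (Nat.pair (Nat.pair 0 0) r)).2
    have hu : u (Nat.pair (Nat.pair 0 0) r) = k (1 / 2) := by simp [u, ix]
    have ht : τ (Nat.pair (Nat.pair 0 0) r) = 0 := by rw [hτ]; simp
    rw [hu, ht] at h
    refine h.trans ?_
    gcongr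
    exact hw _ _

lemma pow_eig (g : E →L[ℂ] E) (x : E) (a : ℂ) (h : g x = a • x) (m : ℕ) :
    (g ^ m) x = a ^ m • x := by
  induction m with
  | zero => simp
  | succ m ih =>
    have e : (g ^ (m + 1)) x = g ((g ^ m) x) := by rw [pow_succ']; rfl
    rw [e, ih, map_smul, h, smul_smul, pow_succ]

lemma eig_le (g : E →L[ℂ] E) (C : ℝ) (hg : ∀ (m : ℕ) (v : E), ‖(g ^ m) v‖ ≤ C * ‖v‖)
    (t : ℝ) (ht : |t| ≤ 1 / 2) (a : ℂ) (h : g (k t) = a • k t) : ‖a‖ ≤ 1 := by
  by_contra hlt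
  push Not at hlt
  obtain ⟨m, hm⟩ := pow_unbounded_of_one_lt (C * ‖k t‖) hlt
  have h1 := hg m (k t)
  have h2 := norm_φ_le ((g ^ m) (k t))
  rw [pow_eig g _ a h, map_smul, φ_k t ht, smul_eq_mul, mul_one, norm_pow] at h2
  rw [pow_eig g _ a h] at h1
  linarith

lemma final_contra (g g' : E →L[ℂ] E) (C : ℝ) (hC : 0 ≤ C)
    (hg : ∀ (m : ℕ) (v : E), ‖(g ^ m) v‖ ≤ C * ‖v‖)
    (hg' : ∀ (m : ℕ) (v : E), ‖(g' ^ m) v‖ ≤ C * ‖v‖)
    (hinv : ∀ v, g' (g v) = v)
    (h1 : ∀ i l : ℕ, g (k ((i : ℝ) / (i + l) / 2)) =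
      φ (g (k ((i : ℝ) / (i + l) / 2))) • k ((i : ℝ) / (i + l) / 2))
    (h2 : g (k (1 / 2)) = (- φ (g (k 0))) • k (1 / 2)) : False := by
  have uni : ∀ t : ℝ, |t| ≤ 1 / 2 → ∀ a : ℂ, g (k t) = a • k t → ‖a‖ = 1 := by
    intro t ht a ha
    have b1 := eig_le g C hg t ht a ha
    have e : k t = a • g' (k t) := by
      conv_lhs => rw [← hinv (k t), ha, map_smul]
    have ha0 : a ≠ 0 := by
      intro h0
      have := φ_k t ht
      rw [e, h0, zero_smul, map_zero] at this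
      exact zero_ne_one this
    have e2 : g' (k t) = a⁻¹ • k t := by
      conv_rhs => rw [e, smul_smul, inv_mul_cancel₀ ha0, one_smul]
    have b2 := eig_le g' C hg' t ht _ e2
    rw [norm_inv] at b2
    have hp : 0 < ‖a‖ := norm_pos_iff.mpr ha0
    rw [inv_le_one₀ hp] at b2
    linarith
  obtain ⟨M, hM⟩ := exists_nat_gt (2 * C)
  have hM0 : (0 : ℝ) < M := by linarith
  let t : ℕ → ℝ := fun i => (i : ℝ) / M / 2
  have ht : ∀ i, i ≤ M → |t i| ≤ 1 / 2 := by
    intro i hi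
    have : (i : ℝ) ≤ M := by exact_mod_cast hi
    have h3 : (i : ℝ) / M ≤ 1 := div_le_one_of_le₀ this hM0.le
    have h4 : (0 : ℝ) ≤ (i : ℝ) / M := by positivity
    show |(i : ℝ) / M / 2| ≤ 1 / 2
    rw [abs_of_nonneg (by positivity)]
    linarith
  have he : ∀ i, i ≤ M → g (k (t i)) = φ (g (k (t i))) • k (t i) := by
    intro i hi
    have := h1 i (M - i)
    have e : ((i : ℝ) + ((M - i : ℕ) : ℝ)) = M := by
      rw [Nat.cast_sub hi]; ring
    rw [e] at this
    exact this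
  have step : ∀ i, i + 1 ≤ M → φ (g (k (t (i + 1)))) = φ (g (k (t i))) := by
    intro i hi
    have a1 := he (i + 1) hi
    have a2 := he i (by omega)
    apply eq_of_pow_close _ _ (uni _ (ht _ hi) _ a1) (uni _ (ht _ (by omega)) _ a2)
    intro m
    have b1 := hg m (k (t (i + 1)) - k (t i))
    have b2 := norm_φ_le ((g ^ m) (k (t (i + 1)) - k (t i)))
    rw [map_sub, pow_eig g _ _ a1, pow_eig g _ _ a2, map_sub, map_smul, map_smul,
      φ_k _ (ht _ hi), φ_k _ (ht _ (by omega)), smul_eq_mul, smul_eq_mul, mul_one, mul_one] at b2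
    rw [map_sub, pow_eig g _ _ a1, pow_eig g _ _ a2] at b1
    have b3 := norm_k_sub_le _ _ (ht _ hi) (ht i (by omega))
    have b4 : |t (i + 1) - t i| = 1 / M / 2 := by
      have : t (i + 1) - t i = 1 / M / 2 := by
        simp only [t]; push_cast; ring
      rw [this, abs_of_pos (by positivity)]
    rw [b4] at b3
    have b5 : C * ‖k (t (i + 1)) - k (t i)‖ ≤ C * (4 * (1 / M / 2)) :=
      mul_le_mul_of_nonneg_left b3 hC
    have b6 : C * (4 * (1 / M / 2)) < 1 := by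
      have : C * (4 * (1 / M / 2)) = 2 * C / M := by ring
      rw [this, div_lt_one hM0]; exact hM
    linarith
  have chain : ∀ i, i ≤ M → φ (g (k (t i))) = φ (g (k (t 0))) := by
    intro i hi
    induction i with
    | zero => rfl
    | succ i ih => rw [step i hi, ih (by omega)]
  have c1 := chain M le_rfl
  have t0 : t 0 = 0 := by simp [t]
  have tM : t M = 1 / 2 := by simp only [t]; rw [div_self hM0.ne']
  have hh : |(1 / 2 : ℝ)| ≤ 1 / 2 := by rw [abs_of_pos (by norm_num)]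
  rw [t0, tM, h2, map_smul, φ_k _ hh, smul_eq_mul, mul_one] at c1
  have c2 : φ (g (k 0)) = 0 := by linear_combination (-1 / 2 : ℂ) * c1
  have c3 := uni _ hh _ h2
  rw [c2] at c3
  simp at c3

end Pool.Agent.H281Z.Hom
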