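import Pool.Agent.H281Z.HomC

set_option autoImplicit false

noncomputable section

namespace Pool.Agent.H281Z.Hom

section gen

variable {H : Type} [NormedAddCommGroup H] [NormedSpace ℂ H]

lemma norm_one_le' : ‖(1 : H →L[ℂ] H)‖ ≤ 1 := ContinuousLinearMap.norm_id_le

lemma exists_inv [CompleteSpace H] (X : H →L[ℂ] H) (hX : ‖X‖ ≤ 1 / 2) :
    ∃ Z : H →L[ℂ] H, (1 + X) * Z = 1 ∧ Z * (1 + X) = 1 ∧ ‖Z‖ ≤ 2 := by
  have h1 : ‖-X‖ < 1 := by rw [norm_neg]; linarith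
  let v := Units.oneSub (-X) h1
  have hv : (v : H →L[ℂ] H) = 1 + X := by simp [v]
  have e1 : (1 + X) * (↑v⁻¹ : H →L[ℂ] H) = 1 := by rw [← hv]; exact v.mul_inv
  have e2 : (↑v⁻¹ : H →L[ℂ] H) * (1 + X) = 1 := by rw [← hv]; exact v.inv_mul
  refine ⟨↑v⁻¹, e1, e2, ?_⟩
  have e3 : (↑v⁻¹ : H →L[ℂ] H) = 1 - X * (↑v⁻¹ : H →L[ℂ] H) := by
    rw [add_mul, one_mul] at e1
    exact eq_sub_of_add_eq e1
  have h2 : ‖(↑v⁻¹ : H →L[ℂ] H)‖ ≤ 1 + ‖X‖ * ‖(↑v⁻¹ : H →L[ℂ] H)‖ := by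
    conv_lhs => rw [e3]
    exact (norm_sub_le _ _).trans (add_le_add norm_one_le' (norm_mul_le _ _))
  nlinarith [norm_nonneg (↑v⁻¹ : H →L[ℂ] H)]

/-- a bounded intertwiner of `A` and `μ A` -/
def Twist (A : H →L[ℂ] H) (C : ℝ) (μ : ℂ) : Prop :=
  ∃ G G' : H →L[ℂ] H, G * G' = 1 ∧ G' * G = 1 ∧ ‖G‖ ≤ C ∧ ‖G'‖ ≤ C ∧ G * A = μ • (A * G)

lemma Twist.pow {A : H →L[ℂ] H} {C : ℝ} {μ : ℂ} (h : Twist A C μ) (n : ℕ) :
    Twist A (C ^ (n + 1)) (μ ^ (n + 1)) := by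
  obtain ⟨G, G', h1, h2, h3, h4, h5⟩ := h
  have hc : Commute G G' := by unfold Commute SemiconjBy; rw [h1, h2]
  refine ⟨G ^ (n + 1), G' ^ (n + 1), ?_, ?_, ?_, ?_, ?_⟩
  · rw [← hc.mul_pow, h1, one_pow]
  · rw [← hc.symm.mul_pow, h2, one_pow]
  · exact (norm_pow_le' _ (Nat.succ_pos n)).trans (pow_le_pow_left₀ (norm_nonneg _) h3 _)
  · exact (norm_pow_le' _ (Nat.succ_pos n)).trans (pow_le_pow_left₀ (norm_nonneg _) h4 _)
  · induction n with
    | zero => simpa using h5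
    | succ n ih =>
      rw [pow_succ' G (n + 1), mul_assoc, ih, mul_smul_comm, ← mul_assoc, h5, smul_mul_assoc,
        smul_smul, mul_assoc, ← pow_succ]

/-- the three properties of the building block -/
structure Good (A : H →L[ℂ] H) : Prop where
  tw : ∃ C : ℝ, ∀ μ : ℂ, ‖μ‖ = 1 → Twist A C μ
  qn : ∀ K : ℝ, 0 ≤ K → ∃ n : ℕ, K ^ n * ‖A ^ n‖ < 1
  na : ∀ (G G' : H →L[ℂ] H) (C : ℝ), G' * G = 1 → G * A = -(A * G) → G' * A = -(A * G') →
    (∀ m : ℕ, ‖G ^ m‖ ≤ C) → (∀ m : ℕ, ‖G' ^ m‖ ≤ C) → False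

lemma Good.smul {A : H →L[ℂ] H} (h : Good A) (ε : ℂ) (hε : ε ≠ 0) : Good (ε • A) := by
  refine ⟨?_, ?_, ?_⟩
  · obtain ⟨C, hC⟩ := h.tw
    refine ⟨C, fun μ hμ => ?_⟩
    obtain ⟨G, G', h1, h2, h3, h4, h5⟩ := hC μ hμ
    refine ⟨G, G', h1, h2, h3, h4, ?_⟩
    rw [mul_smul_comm, h5, smul_mul_assoc, smul_comm]
  · intro K hK
    obtain ⟨n, hn⟩ := h.qn (K * ‖ε‖) (by positivity)
    refine ⟨n, ?_⟩
    rw [smul_pow, norm_smul, norm_pow, ← mul_assoc, ← mul_pow]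
    exact hn
  · intro G G' C h1 h2 h3 h4 h5
    refine h.na G G' C h1 ?_ ?_ h4 h5
    · rw [mul_smul_comm, smul_mul_assoc, ← smul_neg] at h2
      exact smul_right_injective _ hε h2
    · rw [mul_smul_comm, smul_mul_assoc, ← smul_neg] at h3
      exact smul_right_injective _ hε h3

end gen

lemma norm_pow_smul_le (μ : ℂ) (hμ : ‖μ‖ = 1) (g : E →L[ℂ] E) (hg : ‖g‖ ≤ 2) (n : ℕ) :
    ‖μ ^ n • g‖ ≤ 2 := by
  rw [norm_smul, norm_pow, hμ, one_pow, one_mul]; exact hg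

/-- the diagonal intertwiner on the second level -/
def cOf (μ : ℂ) (hμ : ‖μ‖ = 1) (g : E →L[ℂ] E) (hg : ‖g‖ ≤ 2) : H2 →L[ℂ] H2 :=
  dg (fun n => μ ^ n • g) 2 (by norm_num) (norm_pow_smul_le μ hμ g hg)

lemma cOf_apply (μ : ℂ) (hμ : ‖μ‖ = 1) (g : E →L[ℂ] E) (hg : ‖g‖ ≤ 2) (x : H2) (n : ℕ) :
    (cOf μ hμ g hg x) n = μ ^ n • g (x n) := rfl

lemma norm_cOf_le (μ : ℂ) (hμ : ‖μ‖ = 1) (g : E →L[ℂ] E) (hg : ‖g‖ ≤ 2) :
    ‖cOf μ hμ g hg‖ ≤ 2 := norm_dg_le _ _ _ _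

lemma cOf_mul (μ : ℂ) (hμ : ‖μ‖ = 1) (g : E →L[ℂ] E) (hg : ‖g‖ ≤ 2)
    (μ' : ℂ) (hμ' : ‖μ'‖ = 1) (g' : E →L[ℂ] E) (hg' : ‖g'‖ ≤ 2) (h1 : μ * μ' = 1)
    (h2 : g * g' = 1) : cOf μ hμ g hg * cOf μ' hμ' g' hg' = 1 := by
  ext1 x
  apply L_ext; intro n
  have e : g (g' (x n)) = x n := DFunLike.congr_fun h2 (x n)
  show (cOf μ hμ g hg (cOf μ' hμ' g' hg' x)) n = x n
  rw [cOf_apply, cOf_apply, map_smul, e, smul_smul, ← mul_pow, h1, one_pow, one_smul]

lemma cOf_W (μ : ℂ) (hμ : ‖μ‖ = 1) (g : E →L[ℂ] E) (hg : ‖g‖ ≤ 2) (x : H2) :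
    cOf μ hμ g hg (W x) = μ • W (cOf μ hμ g hg x) := by
  apply L_ext; intro n
  rw [cOf_apply, lp.coeFn_smul, Pi.smul_apply]
  cases n with
  | zero => simp [W_zero]
  | succ n =>
    rw [W_succ, W_succ, cOf_apply, map_smul, smul_smul, smul_smul, smul_smul]
    congr 1; ring

lemma cOf_Q (μ : ℂ) (hμ : ‖μ‖ = 1) (g : E →L[ℂ] E) (hg : ‖g‖ ≤ 2)
    (h : ∀ j, ∃ f : ℂ, g (k (τ j)) = f • k (τ j) ∧ μ • g (u j) = f • u j) (x : H2) :
    Q (cOf μ hμ g hg (Q x)) = cOf μ hμ g hg (Q x) := by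
  apply ext_par
  · intro j
    obtain ⟨f, h1, h2⟩ := h j
    rw [Q_even, cOf_apply, Q_even, map_smul g, h1, map_smul, map_smul, map_smul, φ_k _ (τ_abs j),
      smul_smul, smul_smul]
    simp [mul_assoc, smul_smul]
  · intro j
    obtain ⟨f, h1, h2⟩ := h j
    rw [Q_odd, cOf_apply, cOf_apply, Q_even, Q_odd, map_smul g, map_smul g, h1, map_smul, map_smul,
      map_smul, φ_k _ (τ_abs j), pow_succ, mul_smul, smul_comm μ, h2, smul_smul, smul_smul]
    simp [mul_assoc, smul_smul]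

/-- the complementary idempotent -/
def Y : H2 →L[ℂ] H2 := 1 - Q

lemma Q_mul_Q : Q * Q = Q := by ext1 x; exact Q_Q x

lemma alg_inv {B : Type} [Ring B] (q c c' : B) (hq : q * q = q) (h : c * c' = 1)
    (h1 : q * (c * q) = c * q) :
    ((1 - q) * c * (1 - q) + q) * ((1 - q) * c' * (1 - q) + q) = 1 ∧
      ((1 - q) * c * (1 - q) + q) * (1 - q) = (1 - q) * c := by
  have a1 : (1 - q) * q = 0 := by rw [sub_mul, one_mul, hq, sub_self]
  have a2 : q * (1 - q) = 0 := by rw [mul_sub, mul_one, hq, sub_self]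
  have a3 : (1 - q) * (1 - q) = 1 - q := by rw [mul_sub, mul_one, a1, sub_zero]
  have a4 : (1 - q) * c * (1 - q) = (1 - q) * c := by
    rw [mul_sub, mul_one, mul_assoc, sub_mul 1 q (c * q), one_mul, h1, sub_self, sub_zero]
  have a5 : ((1 - q) * c * (1 - q) + q) * (1 - q) = (1 - q) * c := by
    rw [add_mul, a2, add_zero, mul_assoc, a3, a4]
  refine ⟨?_, a5⟩
  rw [mul_add, ← mul_assoc, ← mul_assoc, a5, mul_assoc (1 - q) c c', h, mul_one, a3, add_mul,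
    mul_assoc _ (1 - q) q, a1, mul_zero, zero_add, hq, sub_add_cancel]

/-- the space of the building block -/
abbrev H3 : Type := L Bool H2

/-- the lift of the second level -/
def J : H2 →L[ℂ] H3 := inc true ∘L Y + inc false ∘L W

lemma J_true (x : H2) : (J x) true = Y x := by
  have : (J x) true = (inc true (Y x) : H3) true + (inc false (W x) : H3) true := rfl
  rw [this, inc_self, inc_ne _ _ _ (by decide), add_zero]

lemma J_false (x : H2) : (J x) false = W x := by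
  have : (J x) false = (inc true (Y x) : H3) false + (inc false (W x) : H3) false := rfl
  rw [this, inc_self, inc_ne _ _ _ (by decide), zero_add]

/-- the building block -/
def A0 : H3 →L[ℂ] H3 := J ∘L ev false

lemma A0_apply (x : H3) : A0 x = J (x false) := rfl

lemma ext_bool {x y : H3} (h1 : x true = y true) (h2 : x false = y false) : x = y := by
  apply L_ext; intro b; cases b
  · exact h2
  · exact h1

lemma A0_pow (n : ℕ) (x : H3) : (A0 ^ (n + 1)) x = J ((W ^ n) (x false)) := by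
  induction n with
  | zero => simp [A0_apply]
  | succ n ih =>
    have e : (A0 ^ (n + 1 + 1)) x = A0 ((A0 ^ (n + 1)) x) := by rw [pow_succ']; rfl
    have e2 : (W ^ (n + 1)) (x false) = W ((W ^ n) (x false)) := by rw [pow_succ']; rfl
    rw [e, ih, A0_apply, J_false, e2]

lemma A0_qn (K : ℝ) (hK : 0 ≤ K) : ∃ n : ℕ, K ^ n * ‖A0 ^ n‖ < 1 := by
  have h1 : ∀ n : ℕ, ‖A0 ^ (n + 1)‖ ≤ ‖J‖ * (1 / (n.factorial : ℝ)) := by
    intro n
    refine ContinuousLinearMap.opNorm_le_bound _ (by positivity) (fun x => ?_)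
    rw [A0_pow, mul_assoc]
    refine (J.le_opNorm _).trans ?_
    gcongr
    refine (W_pow _ n).2.trans ?_
    gcongr
    exact norm_coord_le x false
  have h2 := (FloorSemiring.tendsto_pow_div_factorial_atTop K).const_mul (K * ‖J‖)
  rw [mul_zero] at h2
  obtain ⟨n, hn⟩ := (h2.eventually (gt_mem_nhds zero_lt_one)).exists
  refine ⟨n + 1, lt_of_le_of_lt ?_ hn⟩
  calc K ^ (n + 1) * ‖A0 ^ (n + 1)‖ ≤ K ^ (n + 1) * (‖J‖ * (1 / (n.factorial : ℝ))) := by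
        gcongr; exact h1 n
    _ = K * ‖J‖ * (K ^ n / (n.factorial : ℝ)) := by ring

lemma A0_local (ν : ℂ) (hν : ‖ν‖ = 1) (h4 : ‖ν - 1‖ ≤ 1 / 4) :
    Twist A0 (‖Y‖ * 2 * ‖Y‖ + ‖Q‖ + 2) ν := by
  have hν0 : ν ≠ 0 := by intro h; simp [h] at hν
  have hν' : ‖ν⁻¹‖ = 1 := by rw [norm_inv, hν, inv_one]
  set β : ℂ := 2 * (ν⁻¹ - 1) with hβ
  have hβn : ‖β‖ ≤ 1 / 2 := by
    have : β = -(2 * ν⁻¹) * (ν - 1) := by rw [hβ]; field_simp; ring
    rw [this, norm_mul, norm_neg, norm_mul, hν']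
    simp only [Complex.norm_ofNat]
    linarith
  have hX : ‖β • R‖ ≤ 1 / 2 := by
    rw [norm_smul]
    nlinarith [norm_R_le, norm_nonneg β, norm_nonneg R]
  obtain ⟨g', e1, e2, hg'⟩ := exists_inv (β • R) hX
  set g : E →L[ℂ] E := 1 + β • R with hgd
  have hg : ‖g‖ ≤ 2 := by
    have := (norm_add_le (1 : E →L[ℂ] E) (β • R)).trans (add_le_add norm_one_le' hX)
    linarith
  have gk : ∀ t : ℝ, |t| ≤ 1 / 2 → g (k t) = (1 + β * t) • k t := by
    intro t ht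
    have : g (k t) = k t + β • R (k t) := rfl
    rw [this, R_k t ht, smul_smul, add_smul, one_smul]
  have ne : ∀ t : ℝ, |t| ≤ 1 / 2 → (1 + β * t) ≠ 0 := by
    intro t ht h0
    have h1 : β * t = -1 := by linear_combination h0
    have h2 := congrArg norm h1
    rw [norm_mul, Complex.norm_real, Real.norm_eq_abs, norm_neg, norm_one] at h2
    nlinarith [norm_nonneg β, abs_nonneg t]
  have gk' : ∀ t : ℝ, |t| ≤ 1 / 2 → g' (k t) = (1 + β * t)⁻¹ • k t := by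
    intro t ht
    have h1 : g' (g (k t)) = k t := DFunLike.congr_fun e2 (k t)
    rw [gk t ht, map_smul] at h1
    conv_rhs => rw [← h1, smul_smul, inv_mul_cancel₀ (ne t ht), one_smul]
  have hh : |(1 / 2 : ℝ)| ≤ 1 / 2 := by rw [abs_of_pos (by norm_num)]
  have hhalf : (1 + β * ((1 / 2 : ℝ) : ℂ)) = ν⁻¹ := by rw [hβ]; push_cast; ring
  have m1 : ∀ j, ∃ f : ℂ, g (k (τ j)) = f • k (τ j) ∧ ν • g (u j) = f • u j := by
    intro j
    refine ⟨_, gk _ (τ_abs j), ?_⟩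
    unfold u
    split_ifs with h
    · have : τ j = 0 := by simp [τ, h]
      rw [gk _ hh, hhalf, this, smul_smul, mul_inv_cancel₀ hν0]; simp
    · simp
  have m2 : ∀ j, ∃ f : ℂ, g' (k (τ j)) = f • k (τ j) ∧ ν⁻¹ • g' (u j) = f • u j := by
    intro j
    refine ⟨_, gk' _ (τ_abs j), ?_⟩
    unfold u
    split_ifs with h
    · have : τ j = 0 := by simp [τ, h]
      rw [gk' _ hh, hhalf, this, smul_smul, inv_inv, inv_mul_cancel₀ hν0]; simp
    · simp
  set c := cOf ν hν g hg with hc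
  set c' := cOf ν⁻¹ hν' g' hg' with hc'
  have cc' : c * c' = 1 := cOf_mul _ _ _ _ _ _ _ _ (mul_inv_cancel₀ hν0) e1
  have c'c : c' * c = 1 := cOf_mul _ _ _ _ _ _ _ _ (inv_mul_cancel₀ hν0) e2
  have q1 : Q * (c * Q) = c * Q := by ext1 x; exact cOf_Q ν hν g hg m1 x
  have q2 : Q * (c' * Q) = c' * Q := by ext1 x; exact cOf_Q ν⁻¹ hν' g' hg' m2 x
  obtain ⟨a1, a2⟩ := alg_inv Q c c' Q_mul_Q cc' q1
  obtain ⟨a3, -⟩ := alg_inv Q c' c Q_mul_Q c'c q2
  set a : H2 →L[ℂ] H2 := (1 - Q) * c * (1 - Q) + Q with ha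
  set a' : H2 →L[ℂ] H2 := (1 - Q) * c' * (1 - Q) + Q with ha'
  have nb : ∀ (d : H2 →L[ℂ] H2) (s : ℂ), ‖d‖ ≤ 2 → ‖s‖ = 1 → ∀ b : Bool,
      ‖(cond b (s • ((1 - Q) * d * (1 - Q) + Q)) d : H2 →L[ℂ] H2)‖ ≤
        ‖Y‖ * 2 * ‖Y‖ + ‖Q‖ + 2 := by
    intro d s hd hs b
    cases b
    · show ‖d‖ ≤ _
      have : 0 ≤ ‖Y‖ * 2 * ‖Y‖ + ‖Q‖ := by positivity
      linarith
    · show ‖s • (Y * d * Y + Q)‖ ≤ _
      rw [norm_smul, hs, one_mul]
      have h1 : ‖Y * d * Y‖ ≤ ‖Y‖ * 2 * ‖Y‖ := by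
        refine (norm_mul_le _ _).trans ?_
        gcongr
        refine (norm_mul_le _ _).trans ?_
        gcongr
      linarith [norm_add_le (Y * d * Y) Q]
  have hK : 0 ≤ ‖Y‖ * 2 * ‖Y‖ + ‖Q‖ + 2 := by positivity
  refine ⟨dg (fun b => cond b (ν • a) c) _ hK (nb c ν (norm_cOf_le _ _ _ _) hν),
    dg (fun b => cond b (ν⁻¹ • a') c') _ hK (nb c' ν⁻¹ (norm_cOf_le _ _ _ _) hν'), ?_, ?_,
    norm_dg_le _ _ _ _, norm_dg_le _ _ _ _, ?_⟩
  · ext1 x
    apply ext_bool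
    · show ν • a (ν⁻¹ • a' (x true)) = x true
      have : a (a' (x true)) = x true := DFunLike.congr_fun a1 (x true)
      rw [map_smul, this, smul_smul, mul_inv_cancel₀ hν0, one_smul]
    · exact DFunLike.congr_fun cc' (x false)
  · ext1 x
    apply ext_bool
    · show ν⁻¹ • a' (ν • a (x true)) = x true
      have : a' (a (x true)) = x true := DFunLike.congr_fun a3 (x true)
      rw [map_smul, this, smul_smul, inv_mul_cancel₀ hν0, one_smul]
    · exact DFunLike.congr_fun c'c (x false)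
  · ext1 x
    apply ext_bool
    · show ν • a ((J (x false)) true) = ν • (J (c (x false))) true
      rw [J_true, J_true]
      congr 1
      exact DFunLike.congr_fun a2 (x false)
    · show c ((J (x false)) false) = ν • (J (c (x false))) false
      rw [J_false, J_false]
      exact cOf_W _ _ _ _ _

lemma A0_tw : ∃ C : ℝ, ∀ μ : ℂ, ‖μ‖ = 1 → Twist A0 C μ := by
  refine ⟨(‖Y‖ * 2 * ‖Y‖ + ‖Q‖ + 2) ^ (15 + 1), fun μ hμ => ?_⟩
  set x : ℝ := Complex.arg μ / 16 with hx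
  have h1 : ‖Complex.exp (Complex.I * x)‖ = 1 := by
    rw [mul_comm]; exact Complex.norm_exp_ofReal_mul_I x
  have h2 : ‖Complex.exp (Complex.I * x) - 1‖ ≤ 1 / 4 := by
    refine (Real.norm_exp_I_mul_ofReal_sub_one_le (x := x)).trans ?_
    rw [hx, Real.norm_eq_abs, abs_div, abs_of_pos (by norm_num : (0 : ℝ) < 16)]
    linarith [Complex.abs_arg_le_pi μ, Real.pi_le_four]
  have h3 := (A0_local _ h1 h2).pow 15
  have h4 : Complex.exp (Complex.I * x) ^ (15 + 1) = μ := by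
    rw [← Complex.exp_nat_mul]
    have h5 := Complex.norm_mul_exp_arg_mul_I μ
    rw [hμ] at h5
    rw [← h5, hx]
    push_cast
    rw [one_mul]
    congr 1; ring
  rwa [h4] at h3

section na

variable (G : H3 →L[ℂ] H3) (hG : G * A0 = -(A0 * G))
include hG

lemma anti (x : H3) : G (A0 x) = - A0 (G x) := DFunLike.congr_fun hG x

lemma G_false (x : H3) : (G x) false = (G (inc false (x false))) false := by
  have h1 : x = inc true (x true) + inc false (x false) := by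
    apply ext_bool
    · rw [lp.coeFn_add, Pi.add_apply, inc_self, inc_ne _ _ _ (by decide), add_zero]
    · rw [lp.coeFn_add, Pi.add_apply, inc_self, inc_ne _ _ _ (by decide), zero_add]
  have h2 : (G (inc true (x true))) false = 0 := by
    apply W_inj
    have h3 := anti G hG (inc true (x true))
    rw [A0_apply, inc_ne _ _ _ (by decide), map_zero, map_zero, A0_apply] at h3
    have h4 := congrArg (fun y : H3 => y false) h3
    simp only [lp.coeFn_neg, Pi.neg_apply, J_false, lp.coeFn_zero, Pi.zero_apply] at h4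
    exact neg_eq_zero.mp h4.symm
  conv_lhs => rw [h1, map_add, lp.coeFn_add, Pi.add_apply, h2, zero_add]

lemma c_anti (x : H2) :
    ((ev false : H3 →L[ℂ] H2) ∘L G ∘L inc false) (W x) =
      - W (((ev false : H3 →L[ℂ] H2) ∘L G ∘L inc false) x) := by
  have h3 := anti G hG (inc false x)
  have h4 := congrArg (fun y : H3 => y false) h3
  simp only [lp.coeFn_neg, Pi.neg_apply] at h4
  rw [G_false G hG, A0_apply, A0_apply, J_false, J_false, inc_self] at h4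
  exact h4

lemma c_mark (v : H2) (hv : Q v = v) :
    ‖((ev false : H3 →L[ℂ] H2) ∘L G ∘L inc false) v -
      Q (((ev false : H3 →L[ℂ] H2) ∘L G ∘L inc false) v)‖ ≤ ‖G‖ * ‖W v‖ := by
  have h1 : A0 (inc false v) = inc false (W v) := by
    rw [A0_apply, inc_self]
    apply ext_bool
    · rw [J_true, inc_ne _ _ _ (by decide)]
      show v - Q v = 0
      rw [hv, sub_self]
    · rw [J_false, inc_self]
  have h3 := anti G hG (inc false v)
  have h4 := congrArg (fun y : H3 => y true) h3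
  simp only [lp.coeFn_neg, Pi.neg_apply] at h4
  rw [h1, A0_apply, J_true] at h4
  have h5 : ‖Y ((G (inc false v)) false)‖ ≤ ‖G‖ * ‖W v‖ := by
    rw [← norm_neg, ← h4]
    refine (norm_coord_le _ _).trans ((G.le_opNorm _).trans ?_)
    rw [norm_inc]
  exact h5

lemma P_G (x : H3) : ((G x) false) 0 =
    ((ev 0 : H2 →L[ℂ] E) ∘L ((ev false : H3 →L[ℂ] H2) ∘L G ∘L inc false) ∘L inc 0)
      ((x false) 0) := by
  rw [G_false G hG]
  exact ent_zero _ (c_anti G hG) (x false)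

lemma P_pow (m : ℕ) (x : H3) : (((G ^ m) x) false) 0 =
    (((ev 0 : H2 →L[ℂ] E) ∘L ((ev false : H3 →L[ℂ] H2) ∘L G ∘L inc false) ∘L inc 0) ^ m)
      ((x false) 0) := by
  induction m with
  | zero => simp
  | succ m ih =>
    rw [pow_succ', pow_succ']
    show ((G ((G ^ m) x)) false) 0 = _
    rw [P_G G hG, ih]
    rfl

lemma P_bound (C : ℝ) (hC : ∀ m : ℕ, ‖G ^ m‖ ≤ C) (m : ℕ) (v : E) :
    ‖(((ev 0 : H2 →L[ℂ] E) ∘L ((ev false : H3 →L[ℂ] H2) ∘L G ∘L inc false) ∘L inc 0) ^ m) v‖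
      ≤ C * ‖v‖ := by
  have h := P_pow G hG m (inc false (inc 0 v))
  rw [inc_self, inc_self] at h
  rw [← h]
  refine (norm_coord_le _ _).trans ((norm_coord_le _ _).trans ?_)
  refine ((G ^ m).le_of_opNorm_le (hC m) _).trans ?_
  rw [norm_inc, norm_inc]

end na

theorem good_A0 : Good A0 := by
  refine ⟨A0_tw, A0_qn, ?_⟩
  intro G G' C h1 h2 h3 h4 h5
  have hC : 0 ≤ C := (norm_nonneg _).trans (h4 0)
  have hm := marks _ (c_anti G h2) ‖G‖ (norm_nonneg _) (c_mark G h2)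
  refine final_contra _ _ C hC (P_bound G h2 C h4) (P_bound G' h3 C h5) ?_
    (fun i l => (hm i l).1) (hm 0 0).2
  intro v
  have e1 := P_G G h2 (inc false (inc 0 v))
  rw [inc_self, inc_self] at e1
  rw [← e1, ← P_G G' h3]
  have e2 : G' (G (inc false (inc 0 v))) = inc false (inc 0 v) := DFunLike.congr_fun h1 _
  rw [e2, inc_self, inc_self]

end Pool.Agent.H281Z.Hom
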