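import Pool.Agent.H281Z.HomD

set_option autoImplicit false

noncomputable section

namespace Pool.Agent.H281Z.Hom

open ComplexConjugate

lemma blockid {B : Type} [Ring B] [Algebra ℂ B] (A G' Z Zc : B) (a ab b bb c cb e μ : ℂ)
    (hZ : (1 + bb • A) * Z = 1) (hZc : Zc * (1 + cb • A) = 1) (hG : A * G' = μ • (G' * A))
    (h1 : μ * (1 - ab * b) = e * (1 - a * bb)) (h2 : c * (1 - ab * b) = e * (b - a))
    (h3 : cb * μ * (1 - ab * b) = bb - ab) :
    G' * (e • ((A + b • 1) * Z - a • 1)) =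
      ((A + c • 1) * Zc) * (G' * (1 - ab • ((A + b • 1) * Z))) := by
  have e1 : (A + b • 1) * Z - a • 1 = ((b - a) • 1 + (1 - a * bb) • A) * Z := by
    have : a • (1 : B) = a • ((1 + bb • A) * Z) := by rw [hZ]
    rw [this]
    simp only [add_mul, smul_mul_assoc, one_mul]
    module
  have e2 : 1 - ab • ((A + b • 1) * Z) = ((1 - ab * b) • 1 + (bb - ab) • A) * Z := by
    have : 1 - ab • ((A + b • 1) * Z) = (1 + bb • A) * Z - ab • ((A + b • 1) * Z) := by rw [hZ]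
    rw [this]
    simp only [add_mul, smul_mul_assoc, one_mul]
    module
  have e3 : G' * ((1 - ab * b) • 1 + (bb - ab) • A) = (1 - ab * b) • ((1 + cb • A) * G') := by
    rw [← h3]
    simp only [add_mul, mul_add, smul_mul_assoc, mul_smul_comm, one_mul, mul_one, hG]
    module
  have e4 : (1 - ab * b) • ((A + c • 1) * G') =
      e • (G' * ((b - a) • 1 + (1 - a * bb) • A)) := by
    simp only [add_mul, mul_add, smul_mul_assoc, mul_smul_comm, one_mul, mul_one, hG, smul_add,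
      smul_smul]
    rw [mul_comm (1 - ab * b) μ, mul_comm (1 - ab * b) c, h1, h2, add_comm]
  rw [e1, e2, ← mul_assoc G', e3, mul_smul_comm, ← mul_assoc G', ← smul_mul_assoc e, ← e4]
  simp only [smul_mul_assoc, mul_smul_comm]
  congr 1
  rw [← mul_assoc, ← mul_assoc, mul_assoc (A + c • 1) Zc, hZc, mul_one]

lemma key_ineq (α β b : ℂ) :
    ‖α - β * b‖ ^ 2 - ‖α * conj b - β‖ ^ 2 = (‖α‖ ^ 2 - ‖β‖ ^ 2) * (1 - ‖b‖ ^ 2) := by
  simp only [Complex.sq_norm, Complex.normSq_apply, Complex.sub_re, Complex.sub_im, Complex.mul_re,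
    Complex.mul_im, Complex.conj_re, Complex.conj_im]
  ring

lemma key_lt (α β b : ℂ) (h : ‖β‖ < ‖α‖) (hb : ‖b‖ < 1) : ‖α * conj b - β‖ < ‖α - β * b‖ := by
  have h1 := key_ineq α β b
  have h2 : 0 < ‖α‖ ^ 2 - ‖β‖ ^ 2 := by nlinarith [norm_nonneg β]
  have h3 : 0 < 1 - ‖b‖ ^ 2 := by nlinarith [norm_nonneg b]
  have h4 := mul_pos h2 h3
  exact lt_of_pow_lt_pow_left₀ 2 (norm_nonneg _) (by linarith)

lemma key_ge (α β b : ℂ) (hb : ‖b‖ < 1) : ‖α‖ - ‖β‖ ≤ ‖α - β * b‖ := by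
  have h1 := norm_sub_norm_le α (β * b)
  rw [norm_mul] at h1
  nlinarith [norm_nonneg β]

/-- the open unit disc -/
abbrev D : Type := {b : ℂ // ‖b‖ < 1}

lemma den_ne (a b : ℂ) (ha : ‖a‖ < 1) (hb : ‖b‖ < 1) : 1 - conj a * b ≠ 0 := by
  have h := key_ge 1 (conj a) b hb
  rw [norm_one, Complex.norm_conj] at h
  exact norm_pos_iff.mp (by linarith)

lemma mob_lt (e a b : ℂ) (he : ‖e‖ = 1) (ha : ‖a‖ < 1) (hb : ‖b‖ < 1) :
    ‖e * (b - a) / (1 - conj a * b)‖ < 1 := by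
  have h := key_lt 1 (conj a) b (by rw [norm_one, Complex.norm_conj]; exact ha) hb
  rw [one_mul, ← map_sub, Complex.norm_conj] at h
  rw [norm_div, norm_mul, he, one_mul, div_lt_one (norm_pos_iff.mpr (den_ne a b ha hb))]
  exact h

/-- a disc automorphism -/
def mob (e a : ℂ) (he : ‖e‖ = 1) (ha : ‖a‖ < 1) (b : D) : D :=
  ⟨e * (b.1 - a) / (1 - conj a * b.1), mob_lt e a b.1 he ha b.2⟩

lemma mob_bij (e a : ℂ) (he : ‖e‖ = 1) (ha : ‖a‖ < 1) : Function.Bijective (mob e a he ha) := by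
  have he0 : e ≠ 0 := by intro h; simp [h] at he
  have haa : 1 - conj a * a ≠ 0 := den_ne a a ha ha
  constructor
  · intro b1 b2 h
    have h1 := congrArg Subtype.val h
    simp only [mob] at h1
    rw [div_eq_div_iff (den_ne a _ ha b1.2) (den_ne a _ ha b2.2)] at h1
    apply Subtype.ext
    have h2 : e * (1 - conj a * a) * (b1.1 - b2.1) = 0 := by linear_combination h1
    exact sub_eq_zero.mp ((mul_eq_zero.mp h2).resolve_left (mul_ne_zero he0 haa))
  · intro c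
    have hc : ‖c.1 / e‖ < 1 := by rw [norm_div, he, div_one]; exact c.2
    have hna : ‖-a‖ < 1 := by rw [norm_neg]; exact ha
    have hd := den_ne (-a) _ hna hc
    let b : D := ⟨1 * (c.1 / e - -a) / (1 - conj (-a) * (c.1 / e)), mob_lt 1 _ _ norm_one hna hc⟩
    refine ⟨b, Subtype.ext ?_⟩
    simp only [mob]
    rw [div_eq_iff (den_ne a _ ha b.2)]
    have hb : b.1 * (1 - conj (-a) * (c.1 / e)) = c.1 / e + a := by
      simp only [b]; rw [div_mul_cancel₀ _ hd]; ring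
    rw [map_neg] at hb
    have h3 : c.1 = e * (c.1 / e) := by field_simp
    generalize c.1 / e = y at hb h3
    rw [h3]
    linear_combination e * hb

section big

variable {H : Type} [NormedAddCommGroup H] [NormedSpace ℂ H] [CompleteSpace H]
variable (A : H →L[ℂ] H) (hA : ‖A‖ ≤ 1 / 2)
include hA

omit [CompleteSpace H] in
lemma smul_half (ρ : ℂ) (hρ : ‖ρ‖ ≤ 1) : ‖ρ • A‖ ≤ 1 / 2 := by
  rw [norm_smul]
  nlinarith [norm_nonneg ρ, norm_nonneg A]

omit [CompleteSpace H] in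
lemma conj_half (b : D) : ‖conj b.1 • A‖ ≤ 1 / 2 :=
  smul_half A hA _ (by rw [Complex.norm_conj]; exact b.2.le)

/-- inverse of `1 + conj b A` -/
def Zb (b : D) : H →L[ℂ] H := Classical.choose (exists_inv _ (conj_half A hA b))

lemma Zb_spec (b : D) : (1 + conj b.1 • A) * Zb A hA b = 1 ∧ Zb A hA b * (1 + conj b.1 • A) = 1 ∧
    ‖Zb A hA b‖ ≤ 2 := Classical.choose_spec (exists_inv _ (conj_half A hA b))

/-- the Moebius image of `A` -/
def Tb (b : D) : H →L[ℂ] H := (A + b.1 • 1) * Zb A hA b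

lemma norm_Tb (b : D) : ‖Tb A hA b‖ ≤ 3 := by
  unfold Tb
  refine (norm_mul_le _ _).trans ?_
  have h1 : ‖A + b.1 • 1‖ ≤ 3 / 2 := by
    refine (norm_add_le _ _).trans ?_
    rw [norm_smul]
    have := norm_one_le' (H := H)
    nlinarith [b.2, norm_nonneg b.1, norm_nonneg (1 : H →L[ℂ] H)]
  nlinarith [(Zb_spec A hA b).2.2, norm_nonneg (Zb A hA b), norm_nonneg (A + b.1 • 1)]

/-- the direct sum over the disc -/
def TT : L D H →L[ℂ] L D H := dg (Tb A hA) 3 (by norm_num) (norm_Tb A hA)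

lemma TT_apply (x : L D H) (b : D) : (TT A hA x) b = Tb A hA b (x b) := rfl

lemma block_unit (α β : ℂ) (h : ‖β‖ < ‖α‖) (b : D) :
    ∃ V : H →L[ℂ] H, (α • 1 - β • Tb A hA b) * V = 1 ∧ V * (α • 1 - β • Tb A hA b) = 1 ∧
      ‖V‖ ≤ 3 / (‖α‖ - ‖β‖) := by
  have hs := key_ge α β b.1 b.2
  have hs0 : 0 < ‖α - β * b.1‖ := by linarith
  have hsne : α - β * b.1 ≠ 0 := norm_pos_iff.mp hs0
  set ρ : ℂ := (α * conj b.1 - β) / (α - β * b.1) with hρ
  have hρ1 : ‖ρ‖ ≤ 1 := by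
    rw [hρ, norm_div, div_le_one hs0]; exact (key_lt α β b.1 h b.2).le
  obtain ⟨Z', z1, z2, z3⟩ := exists_inv _ (smul_half A hA ρ hρ1)
  obtain ⟨y1, y2, y3⟩ := Zb_spec A hA b
  have e : α • 1 - β • Tb A hA b = (α - β * b.1) • ((1 + ρ • A) * Zb A hA b) := by
    have h1 : α • (1 : H →L[ℂ] H) = α • ((1 + conj b.1 • A) * Zb A hA b) := by rw [y1]
    have h2 : (α - β * b.1) * ρ = α * conj b.1 - β := by rw [hρ]; field_simp
    rw [h1]
    unfold Tb
    simp only [add_mul, smul_mul_assoc, one_mul, smul_add, smul_smul, h2]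
    module
  refine ⟨(α - β * b.1)⁻¹ • ((1 + conj b.1 • A) * Z'), ?_, ?_, ?_⟩
  · rw [e, smul_mul_smul_comm, mul_inv_cancel₀ hsne, one_smul, mul_assoc, ← mul_assoc (Zb A hA b),
      y2, one_mul, z1]
  · rw [e, smul_mul_smul_comm, inv_mul_cancel₀ hsne, one_smul, mul_assoc, ← mul_assoc Z',
      z2, one_mul, y1]
  · rw [norm_smul, norm_inv]
    have h1 : ‖(1 + conj b.1 • A) * Z'‖ ≤ 3 := by
      refine (norm_mul_le _ _).trans ?_
      have h2 := (norm_add_le (1 : H →L[ℂ] H) _).trans (add_le_add norm_one_le' (conj_half A hA b))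
      nlinarith [norm_nonneg Z', norm_nonneg (1 + conj b.1 • A)]
    rw [div_eq_inv_mul]
    have h3 : 0 < ‖α‖ - ‖β‖ := by linarith
    gcongr

lemma TT_unit (α β : ℂ) (h : ‖β‖ < ‖α‖) : IsUnit (α • 1 - β • TT A hA) := by
  choose V h1 h2 h3 using block_unit A hA α β h
  have hK : 0 ≤ 3 / (‖α‖ - ‖β‖) := by
    have h3 : 0 < ‖α‖ - ‖β‖ := by linarith
    positivity
  refine ⟨⟨_, dg V _ hK h3, ?_, ?_⟩, rfl⟩
  · ext1 x
    apply L_ext; intro b
    exact DFunLike.congr_fun (h1 b) (x b)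
  · ext1 x
    apply L_ext; intro b
    exact DFunLike.congr_fun (h2 b) (x b)

lemma TT_spec : spectrum ℂ (TT A hA) ⊆ Metric.closedBall (0 : ℂ) 1 := by
  intro z hz
  by_contra hn
  apply hz
  rw [mem_closedBall_zero_iff, not_le] at hn
  have := TT_unit A hA z 1 (by rw [norm_one]; exact hn)
  rw [one_smul] at this
  rw [spectrum.mem_resolventSet_iff, Algebra.algebraMap_eq_smul_one]
  exact this

lemma TT_twist (C : ℝ) (hC : ∀ μ : ℂ, ‖μ‖ = 1 → Twist A C μ) (e a : ℂ) (he : ‖e‖ = 1)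
    (ha : ‖a‖ < 1) :
    ∃ Γ : (L D H →L[ℂ] L D H)ˣ, ‖(Γ : L D H →L[ℂ] L D H)‖ ≤ C ∧
      ‖((Γ⁻¹ : (L D H →L[ℂ] L D H)ˣ) : L D H →L[ℂ] L D H)‖ ≤ C ∧
      e • ((TT A hA - a • (1 : L D H →L[ℂ] L D H)) *
        Ring.inverse ((1 : L D H →L[ℂ] L D H) - (conj a) • TT A hA)) =
      (Γ : L D H →L[ℂ] L D H) * TT A hA * ((Γ⁻¹ : (L D H →L[ℂ] L D H)ˣ) : L D H →L[ℂ] L D H) := by
  have he0 : e ≠ 0 := by intro h; simp [h] at he
  have hee : conj e * e = 1 := by rw [Complex.conj_mul', he]; simp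
  let μ : D → ℂ := fun b => e * (1 - a * conj b.1) / (1 - conj a * b.1)
  have hcj : ∀ b : D, conj (1 - conj a * b.1) = 1 - a * conj b.1 := by intro b; simp
  have hμ : ∀ b, ‖μ b‖ = 1 := by
    intro b
    simp only [μ]
    rw [norm_div, norm_mul, he, one_mul, ← hcj, Complex.norm_conj,
      div_self (norm_ne_zero_iff.mpr (den_ne a _ ha b.2))]
  choose G G' g1 g2 g3 g4 g5 using fun b => hC (μ b) (hμ b)
  have hC0 : 0 ≤ C := (norm_nonneg _).trans (g3 ⟨0, by simp⟩)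
  let σ : D ≃ D := Equiv.ofBijective _ (mob_bij e a he ha)
  let Γ : L D H →L[ℂ] L D H := dg G C hC0 g3 ∘L pull σ σ.injective
  let Γ' : L D H →L[ℂ] L D H := pull σ.symm σ.symm.injective ∘L dg G' C hC0 g4
  have hΓ : ∀ x b, (Γ x) b = G b (x (σ b)) := fun x b => rfl
  have hΓ' : ∀ x b, (Γ' x) (σ b) = G' b (x b) := by
    intro x b
    show G' (σ.symm (σ b)) (x (σ.symm (σ b))) = _
    rw [σ.symm_apply_apply]
  have i1 : Γ * Γ' = 1 := by
    ext1 x
    apply L_ext; intro b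
    show (Γ (Γ' x)) b = x b
    rw [hΓ, hΓ']
    exact DFunLike.congr_fun (g1 b) (x b)
  have i2 : Γ' * Γ = 1 := by
    ext1 x
    apply L_ext; intro c
    obtain ⟨b, rfl⟩ := σ.surjective c
    show (Γ' (Γ x)) (σ b) = x (σ b)
    rw [hΓ', hΓ]
    exact DFunLike.congr_fun (g2 b) (x (σ b))
  have hN := TT_unit A hA 1 (conj a) (by rw [norm_one, Complex.norm_conj]; exact ha)
  rw [one_smul] at hN
  have main : Γ' * (e • (TT A hA - a • 1)) = TT A hA * (Γ' * (1 - conj a • TT A hA)) := by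
    ext1 x
    apply L_ext; intro c
    obtain ⟨b, rfl⟩ := σ.surjective c
    show (Γ' ((e • (TT A hA - a • 1)) x)) (σ b) =
      Tb A hA (σ b) ((Γ' ((1 - conj a • TT A hA) x)) (σ b))
    rw [hΓ', hΓ']
    have hd := den_ne a _ ha b.2
    have hd' : 1 - a * conj b.1 ≠ 0 := by rw [← hcj]; exact (map_ne_zero _).mpr hd
    have hσ : (σ b).1 = e * (b.1 - a) / (1 - conj a * b.1) := rfl
    have hG : A * G' b = μ b • (G' b * A) := by
      calc A * G' b = G' b * (G b * A) * G' b := by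
            rw [← mul_assoc (G' b), g2, one_mul]
        _ = μ b • (G' b * A) := by
            rw [g5, mul_smul_comm, smul_mul_assoc, mul_assoc, mul_assoc, g1, mul_one]
    have := blockid A (G' b) (Zb A hA b) (Zb A hA (σ b)) a (conj a) b.1 (conj b.1) (σ b).1
      (conj (σ b).1) e (μ b) (Zb_spec A hA b).1 (Zb_spec A hA (σ b)).2.1 hG
      (by simp only [μ]; rw [div_mul_cancel₀ _ hd]) (by rw [hσ, div_mul_cancel₀ _ hd])
      (by
        rw [hσ, map_div₀, hcj, map_mul, map_sub, mul_assoc]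
        simp only [μ]
        rw [div_mul_cancel₀ _ hd, div_mul_eq_mul_div, div_eq_iff hd']
        linear_combination (conj b.1 - conj a) * (1 - a * conj b.1) * hee)
    exact DFunLike.congr_fun this (x b)
  refine ⟨⟨Γ, Γ', i1, i2⟩, ?_, ?_, ?_⟩
  · refine (ContinuousLinearMap.opNorm_comp_le _ _).trans ?_
    have := mul_le_mul (norm_dg_le G C hC0 g3) (norm_pull_le (F := H) σ σ.injective)
      (norm_nonneg _) hC0
    rwa [mul_one] at this
  · refine (ContinuousLinearMap.opNorm_comp_le _ _).trans ?_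
    have := mul_le_mul (norm_pull_le (F := H) σ.symm σ.symm.injective) (norm_dg_le G' C hC0 g4)
      (norm_nonneg _) zero_le_one
    rwa [one_mul] at this
  · show _ = Γ * TT A hA * Γ'
    have m2 : e • (TT A hA - a • 1) = Γ * TT A hA * Γ' * (1 - conj a • TT A hA) := by
      rw [mul_assoc, mul_assoc, ← main, ← mul_assoc, i1, one_mul]
    rw [← smul_mul_assoc, m2, mul_assoc, Ring.mul_inverse_cancel _ hN, mul_one]

lemma Tb_left (hq : ∀ K : ℝ, 0 ≤ K → ∃ n : ℕ, K ^ n * ‖A ^ n‖ < 1) (b : D) (hb : b.1 ≠ 0) :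
    ∃ V : H →L[ℂ] H, V * Tb A hA b = 1 := by
  obtain ⟨n, hn⟩ := hq ‖-b.1⁻¹‖ (norm_nonneg _)
  set x : H →L[ℂ] H := (-b.1⁻¹) • A with hx
  have h1 : ‖x ^ n‖ < 1 := by rw [hx, smul_pow, norm_smul, norm_pow]; exact hn
  let v := Units.oneSub (x ^ n) h1
  have hv : (v : H →L[ℂ] H) = 1 - x ^ n := by simp [v]
  have h2 : A + b.1 • 1 = b.1 • (1 - x) := by
    rw [hx, smul_sub, smul_smul, mul_neg, mul_inv_cancel₀ hb, neg_smul, one_smul, sub_neg_eq_add,
      add_comm]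
  have h3 := geom_sum_mul_neg x n
  refine ⟨(1 + conj b.1 • A) * (b.1⁻¹ • ((↑v⁻¹ : H →L[ℂ] H) * ∑ i ∈ Finset.range n, x ^ i)), ?_⟩
  unfold Tb
  rw [h2, mul_assoc, ← mul_assoc _ _ (Zb A hA b), smul_mul_smul_comm, inv_mul_cancel₀ hb, one_smul,
    mul_assoc _ _ (1 - x), h3, ← hv, v.inv_mul, one_mul, (Zb_spec A hA b).1]

/-- the centre of the disc -/
def o : D := ⟨0, by simp⟩

lemma Tb_o : Tb A hA o = A := by
  have h := (Zb_spec A hA o).1
  unfold Tb
  simp only [o, map_zero, zero_smul, add_zero, one_mul] at h ⊢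
  rw [h, mul_one]

lemma TT_inc (v : H) : TT A hA (inc o v) = inc o (A v) := by
  apply L_ext; intro b
  rw [TT_apply]
  by_cases h : b = o
  · subst h; rw [inc_self, inc_self, Tb_o]
  · rw [inc_ne _ _ _ h, inc_ne _ _ _ h, map_zero]

lemma keeps (hq : ∀ K : ℝ, 0 ≤ K → ∃ n : ℕ, K ^ n * ‖A ^ n‖ < 1) (Γ : L D H →L[ℂ] L D H)
    (hΓ : Γ * TT A hA = -(TT A hA * Γ)) (v : H) :
    Γ (inc o v) = inc o (((ev o : L D H →L[ℂ] H) ∘L Γ ∘L inc o) v) := by
  apply L_ext; intro b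
  by_cases h : b = o
  · subst h; rw [inc_self]; rfl
  · rw [inc_ne _ _ _ h]
    have hb : b.1 ≠ 0 := fun h0 => h (Subtype.ext h0)
    obtain ⟨V, hV⟩ := Tb_left A hA hq b hb
    set X : H →L[ℂ] H := (ev b : L D H →L[ℂ] H) ∘L Γ ∘L inc o with hX
    have h1 : X * A = -(Tb A hA b * X) := by
      ext1 y
      have h2 : Γ (TT A hA (inc o y)) = - TT A hA (Γ (inc o y)) := DFunLike.congr_fun hΓ _
      rw [TT_inc] at h2
      exact congrArg (fun z : L D H => z b) h2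
    have h3 : ∀ n : ℕ, ‖X‖ ≤ ‖V‖ ^ n * ‖X * A ^ n‖ := by
      intro n
      induction n with
      | zero => simp
      | succ n ih =>
        have h4 : X * A ^ n = -(V * (X * A ^ (n + 1))) := by
          rw [pow_succ', ← mul_assoc X, h1, neg_mul, mul_neg, neg_neg, ← mul_assoc, ← mul_assoc,
            hV, one_mul]
        have h5 : ‖X * A ^ n‖ ≤ ‖V‖ * ‖X * A ^ (n + 1)‖ := by
          conv_lhs => rw [h4, norm_neg]
          exact norm_mul_le _ _
        refine ih.trans ?_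
        rw [pow_succ ‖V‖, mul_assoc]
        gcongr
    obtain ⟨n, hn⟩ := hq ‖V‖ (norm_nonneg _)
    have h6 : ‖X‖ ≤ ‖V‖ ^ n * (‖X‖ * ‖A ^ n‖) := by
      refine (h3 n).trans ?_
      gcongr
      exact norm_mul_le _ _
    have h7 : ‖X‖ = 0 := by nlinarith [norm_nonneg X]
    have h8 : X v = 0 := by rw [norm_eq_zero.mp h7]; rfl
    exact h8

lemma no_anti (hg : Good A) (Γ Γ' : L D H →L[ℂ] L D H) (C : ℝ) (h1 : Γ' * Γ = 1)
    (h2 : Γ * TT A hA = -(TT A hA * Γ)) (h3 : Γ' * TT A hA = -(TT A hA * Γ'))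
    (h4 : ∀ m : ℕ, ‖Γ ^ m‖ ≤ C) (h5 : ∀ m : ℕ, ‖Γ' ^ m‖ ≤ C) : False := by
  have hC : 0 ≤ C := (norm_nonneg _).trans (h4 0)
  have an : ∀ Γ : L D H →L[ℂ] L D H, Γ * TT A hA = -(TT A hA * Γ) →
      ((ev o : L D H →L[ℂ] H) ∘L Γ ∘L inc o) * A =
        -(A * ((ev o : L D H →L[ℂ] H) ∘L Γ ∘L inc o)) := by
    intro Γ hΓ
    ext1 y
    have h2 : Γ (TT A hA (inc o y)) = - TT A hA (Γ (inc o y)) := DFunLike.congr_fun hΓ _
    rw [TT_inc] at h2
    have h3 := congrArg (fun z : L D H => z o) h2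
    simp only [lp.coeFn_neg, Pi.neg_apply, TT_apply, Tb_o] at h3
    exact h3
  have pw : ∀ Γ : L D H →L[ℂ] L D H, Γ * TT A hA = -(TT A hA * Γ) → (∀ m : ℕ, ‖Γ ^ m‖ ≤ C) →
      ∀ m : ℕ, ‖((ev o : L D H →L[ℂ] H) ∘L Γ ∘L inc o) ^ m‖ ≤ C := by
    intro Γ hΓ hb m
    have e : ∀ (m : ℕ) (v : H), (Γ ^ m) (inc o v) =
        inc o ((((ev o : L D H →L[ℂ] H) ∘L Γ ∘L inc o) ^ m) v) := by
      intro m v
      induction m with
      | zero => simp
      | succ m ih =>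
        rw [pow_succ', pow_succ']
        show Γ ((Γ ^ m) (inc o v)) = _
        rw [ih, keeps A hA hg.qn Γ hΓ]
        rfl
    refine ContinuousLinearMap.opNorm_le_bound _ hC (fun v => ?_)
    rw [← norm_inc o, ← e, ← norm_inc o v]
    exact (Γ ^ m).le_of_opNorm_le (hb m) _
  refine hg.na _ _ C ?_ (an Γ h2) (an Γ' h3) (pw Γ h2 h4) (pw Γ' h3 h5)
  ext1 v
  show (Γ' (inc o (((ev o : L D H →L[ℂ] H) ∘L Γ ∘L inc o) v))) o = v
  rw [← keeps A hA hg.qn Γ h2]
  have : Γ' (Γ (inc o v)) = inc o v := DFunLike.congr_fun h1 _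
  rw [this, inc_self]

end big

lemma no_sim {H : Type} [NormedAddCommGroup H] [InnerProductSpace ℂ H] [CompleteSpace H]
    (A : H →L[ℂ] H) (hA : ‖A‖ ≤ 1 / 2) (hg : Good A) (S : (L D H →L[ℂ] L D H)ˣ)
    (U : L D H →L[ℂ] L D H) (hU : U ∈ unitary (L D H →L[ℂ] L D H))
    (hE : -((S : L D H →L[ℂ] L D H) * TT A hA * (↑S⁻¹ : L D H →L[ℂ] L D H)) =
      U * ((S : L D H →L[ℂ] L D H) * TT A hA * (↑S⁻¹ : L D H →L[ℂ] L D H)) * star U) : False := by
  have u1 : star U * U = 1 := hU.1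
  have u2 : U * star U = 1 := hU.2
  have s1 : (S : L D H →L[ℂ] L D H) * (↑S⁻¹ : L D H →L[ℂ] L D H) = 1 := S.mul_inv
  have s2 : (↑S⁻¹ : L D H →L[ℂ] L D H) * (S : L D H →L[ℂ] L D H) = 1 := S.inv_mul
  generalize (↑S⁻¹ : L D H →L[ℂ] L D H) = P at hE s1 s2
  generalize (S : L D H →L[ℂ] L D H) = N at hE s1 s2
  have conj_anti : ∀ V : L D H →L[ℂ] L D H, V * (N * TT A hA * P) = -(N * TT A hA * P * V) →
      P * V * N * TT A hA = -(TT A hA * (P * V * N)) := by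
    intro V hV
    calc P * V * N * TT A hA = P * (V * (N * TT A hA * P)) * N := by
          simp only [mul_assoc, s2, mul_one]
      _ = -((P * N) * TT A hA * (P * V * N)) := by
          rw [hV]; simp only [mul_assoc, mul_neg, neg_mul]
      _ = _ := by rw [s2, one_mul]
  have pw : ∀ V ∈ unitary (L D H →L[ℂ] L D H), ∀ m : ℕ, ‖(P * V * N) ^ m‖ ≤ ‖P‖ * ‖N‖ := by
    intro V hV m
    have e : (P * V * N) ^ m = P * (V ^ m * N) := by
      induction m with
      | zero => simp [s2]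
      | succ m ih =>
        rw [pow_succ, ih, pow_succ]
        calc P * (V ^ m * N) * (P * V * N) = P * (V ^ m * (N * P) * V * N) := by
              simp only [mul_assoc]
          _ = _ := by rw [s1, mul_one]
    rw [e]
    refine (norm_mul_le _ _).trans ?_
    rw [CStarRing.norm_mem_unitary_mul _ (pow_mem hV m)]
  refine no_anti A hA hg (P * U * N) (P * star U * N) (‖P‖ * ‖N‖) ?_ (conj_anti _ ?_)
    (conj_anti _ ?_) (pw U hU) (pw _ (Unitary.star_mem hU))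
  · calc P * star U * N * (P * U * N) = P * (star U * (N * P) * U) * N := by
          simp only [mul_assoc]
      _ = 1 := by rw [s1, mul_one, u1, mul_one, s2]
  · rw [← neg_mul, hE, mul_assoc _ (star U), u1, mul_one]
  · have h1 : star U * -(N * TT A hA * P) = N * TT A hA * P * star U := by
      rw [hE, ← mul_assoc, ← mul_assoc, u1, one_mul]
    rw [← h1, mul_neg, neg_neg]

lemma exists_good : ∃ A : H3 →L[ℂ] H3, ‖A‖ ≤ 1 / 2 ∧ Good A := by
  have hp : 0 < 1 / (2 * (‖A0‖ + 1)) := by positivity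
  refine ⟨((1 / (2 * (‖A0‖ + 1)) : ℝ) : ℂ) • A0, ?_, good_A0.smul _ (by exact_mod_cast hp.ne')⟩
  rw [norm_smul, Complex.norm_real, Real.norm_eq_abs, abs_of_pos hp, div_mul_eq_mul_div, one_mul,
    div_le_div_iff₀ (by positivity) (by norm_num)]
  linarith

end Pool.Agent.H281Z.Hom
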