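import Pool.Agent.H281Z.WidB

set_option autoImplicit false

namespace Pool.Agent.H281Z.Ref

open MeasureTheory Set Metric Filter Topology Complex

/-- Cayley map -/
noncomputable def cay (x : ℝ) : ℂ := ((x : ℂ) - I) / ((x : ℂ) + I)

theorem add_I_ne (x : ℝ) : (x : ℂ) + I ≠ 0 := by
  intro h
  have := congrArg Complex.im h
  simp at this

theorem norm_cay (x : ℝ) : ‖cay x‖ = 1 := by
  rw [cay, norm_div, div_eq_one_iff_eq (norm_ne_zero_iff.2 (add_I_ne x))]
  rw [← Complex.norm_conj]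
  simp

theorem continuous_cay : Continuous cay :=
  Continuous.div (by fun_prop) (by fun_prop) add_I_ne

/-- correction term -/
noncomputable def uu (x : ℝ) : ℝ := Real.log ‖(x : ℂ) + I‖

theorem continuous_uu : Continuous uu :=
  Continuous.log (by fun_prop) fun x => norm_ne_zero_iff.2 (add_I_ne x)

theorem norm_cay_sub (x y : ℝ) :
    ‖cay x - cay y‖ = 2 * |x - y| / (‖(x : ℂ) + I‖ * ‖(y : ℂ) + I‖) := by
  have h : cay x - cay y = 2 * I * ((x - y : ℝ) : ℂ) / (((x : ℂ) + I) * ((y : ℂ) + I)) := by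
    have := add_I_ne x
    have := add_I_ne y
    rw [cay, cay]
    field_simp
    push_cast
    ring
  rw [h, norm_div, norm_mul, norm_mul, norm_mul, norm_real]
  simp

theorem log_cay_sub {x y : ℝ} (h : x ≠ y) :
    Real.log ‖cay x - cay y‖ = Real.log |x - y| + (Real.log 2 - uu x - uu y) := by
  have h1 := norm_ne_zero_iff.2 (add_I_ne x)
  have h2 := norm_ne_zero_iff.2 (add_I_ne y)
  have h3 : |x - y| ≠ 0 := abs_ne_zero.2 (sub_ne_zero.2 h)
  rw [norm_cay_sub, Real.log_div (by positivity) (by positivity), Real.log_mul (by norm_num) h3,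
    Real.log_mul h1 h2, uu, uu]
  ring

theorem cay_ne {x y : ℝ} (h : x ≠ y) : cay x ≠ cay y := by
  rw [← sub_ne_zero, ← norm_ne_zero_iff, norm_cay_sub]
  have h1 := norm_ne_zero_iff.2 (add_I_ne x)
  have h2 := norm_ne_zero_iff.2 (add_I_ne y)
  have h3 : |x - y| ≠ 0 := abs_ne_zero.2 (sub_ne_zero.2 h)
  positivity

/-- regularised kernel -/
noncomputable def kr (r : ℝ) (p : ℝ × ℝ) : ℝ :=
  Real.log ‖1 - r * (cay p.1 * (starRingEnd ℂ) (cay p.2))‖

theorem cont_z (r : ℝ) :
    Continuous fun p : ℝ × ℝ => (r : ℂ) * (cay p.1 * (starRingEnd ℂ) (cay p.2)) := by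
  have := continuous_cay
  fun_prop

theorem norm_z {r : ℝ} (hr0 : 0 < r) (p : ℝ × ℝ) :
    ‖(r : ℂ) * (cay p.1 * (starRingEnd ℂ) (cay p.2))‖ = r := by
  simp [norm_cay, abs_of_pos hr0]

theorem meas_kr (r : ℝ) : Measurable (kr r) :=
  Real.measurable_log.comp (continuous_const.sub (cont_z r)).norm.measurable

theorem kr_le {r : ℝ} (hr0 : 0 < r) (hr1 : r < 1) (p : ℝ × ℝ) :
    Real.log (1 - r) ≤ kr r p ∧ kr r p ≤ Real.log 2 := by
  have h1 := norm_z hr0 p
  unfold kr
  set z := (r : ℂ) * (cay p.1 * (starRingEnd ℂ) (cay p.2))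
  have h2 : 1 - r ≤ ‖1 - z‖ := by
    have := norm_sub_norm_le (1 : ℂ) z
    simpa [h1] using this
  have h3 : ‖1 - z‖ ≤ 2 := by
    have := norm_sub_le (1 : ℂ) z
    simp only [norm_one, h1] at this
    linarith
  exact ⟨Real.log_le_log (by linarith) h2, Real.log_le_log (by linarith) h3⟩

theorem integrable_kr (α β : Measure ℝ) [IsProbabilityMeasure α] [IsProbabilityMeasure β]
    {r : ℝ} (hr0 : 0 < r) (hr1 : r < 1) : Integrable (kr r) (α.prod β) := by
  refine Integrable.of_bound (C := -Real.log (1 - r) + Real.log 2) (meas_kr r).aestronglyMeasurable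
    (Eventually.of_forall fun p => ?_)
  obtain ⟨h4, h5⟩ := kr_le hr0 hr1 p
  have h6 : Real.log (1 - r) ≤ 0 := Real.log_nonpos (by linarith) (by linarith)
  have h7 : 0 ≤ Real.log 2 := Real.log_nonneg (by norm_num)
  rw [Real.norm_eq_abs, abs_le]
  constructor <;> linarith

theorem hasSum_kr (α β : Measure ℝ) [IsProbabilityMeasure α] [IsProbabilityMeasure β]
    {r : ℝ} (hr0 : 0 < r) (hr1 : r < 1) :
    HasSum (fun n : ℕ => r ^ n / n *
      ((∫ x, cay x ^ n ∂α) * (starRingEnd ℂ) (∫ x, cay x ^ n ∂β)).re)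
      (-∫ p, kr r p ∂(α.prod β)) := by
  let F : ℕ → ℝ × ℝ → ℝ := fun n p =>
    (((r : ℂ) * (cay p.1 * (starRingEnd ℂ) (cay p.2))) ^ n / n).re
  have hGb : ∀ (n : ℕ) (p : ℝ × ℝ),
      ‖((r : ℂ) * (cay p.1 * (starRingEnd ℂ) (cay p.2))) ^ n / n‖ ≤ r ^ n := by
    intro n p
    rw [norm_div, norm_pow, norm_z hr0]
    rcases Nat.eq_zero_or_pos n with rfl | hn
    · simp
    · apply div_le_self (by positivity)
      simpa using Nat.succ_le_of_lt hn
  have hFb : ∀ n p, ‖F n p‖ ≤ r ^ n := fun n p => (abs_re_le_norm _).trans (hGb n p)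
  have hGc : ∀ n : ℕ, Continuous fun p : ℝ × ℝ =>
      ((r : ℂ) * (cay p.1 * (starRingEnd ℂ) (cay p.2))) ^ n / n :=
    fun n => ((cont_z r).pow n).div_const _
  have hFi : ∀ n, Integrable (F n) (α.prod β) := fun n =>
    Integrable.of_bound (continuous_re.comp (hGc n)).aestronglyMeasurable _
      (Eventually.of_forall (hFb n))
  have hFs : Summable fun n => ∫ p, ‖F n p‖ ∂(α.prod β) := by
    refine Summable.of_nonneg_of_le (fun n => integral_nonneg fun _ => norm_nonneg _)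
      (fun n => ?_) (summable_geometric_of_lt_one hr0.le hr1)
    have := integral_mono (hFi n).norm (integrable_const (r ^ n)) (hFb n)
    simpa using this
  have hS := hasSum_integral_of_summable_integral_norm hFi hFs
  have heq : ∫ p, (∑' n, F n p) ∂(α.prod β) = -∫ p, kr r p ∂(α.prod β) := by
    rw [← integral_neg]
    refine integral_congr_ae (Eventually.of_forall fun p => ?_)
    have h1 := hasSum_re (hasSum_taylorSeries_neg_log
      (z := (r : ℂ) * (cay p.1 * (starRingEnd ℂ) (cay p.2))) (by rw [norm_z hr0]; exact hr1))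
    simp only
    rw [h1.tsum_eq, neg_re, log_re, kr]
  rw [heq] at hS
  refine HasSum.congr_fun hS ?_
  intro n
  symm
  have hGi : Integrable (fun p : ℝ × ℝ =>
      ((r : ℂ) * (cay p.1 * (starRingEnd ℂ) (cay p.2))) ^ n / n) (α.prod β) :=
    Integrable.of_bound (C := r ^ n) (hGc n).aestronglyMeasurable (Eventually.of_forall (hGb n))
  have h1 : ∫ p, F n p ∂(α.prod β) =
      (∫ p : ℝ × ℝ, ((r : ℂ) * (cay p.1 * (starRingEnd ℂ) (cay p.2))) ^ n / n ∂(α.prod β)).re :=
    integral_re hGi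
  have h2 : (fun p : ℝ × ℝ => ((r : ℂ) * (cay p.1 * (starRingEnd ℂ) (cay p.2))) ^ n / n) =
      fun p : ℝ × ℝ => ((r ^ n / n : ℝ) : ℂ) * (cay p.1 ^ n * (starRingEnd ℂ) (cay p.2 ^ n)) := by
    funext p
    push_cast
    rw [map_pow]
    ring
  rw [h1, h2, integral_const_mul,
    integral_prod_mul (fun x : ℝ => cay x ^ n) (fun y : ℝ => (starRingEnd ℂ) (cay y ^ n)),
    integral_conj, re_ofReal_mul]

theorem kr_ineq (α β : Measure ℝ) [IsProbabilityMeasure α] [IsProbabilityMeasure β]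
    {r : ℝ} (hr0 : 0 < r) (hr1 : r < 1) :
    ∫ p, kr r p ∂(α.prod α) + ∫ p, kr r p ∂(β.prod β) ≤ 2 * ∫ p, kr r p ∂(α.prod β) := by
  have h := (((hasSum_kr α α hr0 hr1).add (hasSum_kr β β hr0 hr1)).sub
    ((hasSum_kr α β hr0 hr1).mul_left 2)).nonneg (fun n => by
      set a := ∫ x, cay x ^ n ∂α
      set b := ∫ x, cay x ^ n ∂β
      have h1 : 0 ≤ r ^ n / n := by positivity
      have h2 : 0 ≤ (a * (starRingEnd ℂ) a).re + (b * (starRingEnd ℂ) b).re -
          2 * (a * (starRingEnd ℂ) b).re := by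
        simp only [mul_re, conj_re, conj_im]
        nlinarith [sq_nonneg (a.re - b.re), sq_nonneg (a.im - b.im)]
      nlinarith [mul_nonneg h1 h2])
  linarith

theorem k_le_kr {r : ℝ} (hr0 : 0 < r) {p : ℝ × ℝ} (h : p.1 ≠ p.2) :
    Real.log ‖cay p.1 - cay p.2‖ ≤ kr r p - (1 / 2) * Real.log r := by
  unfold kr
  have hne := cay_ne h
  have hx1 := norm_cay p.1
  have hy1 := norm_cay p.2
  set x := cay p.1
  set y := cay p.2
  have hx : x.re ^ 2 + x.im ^ 2 = 1 := by
    have := Complex.sq_norm x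
    rw [hx1, normSq_apply] at this
    nlinarith
  have hy : y.re ^ 2 + y.im ^ 2 = 1 := by
    have := Complex.sq_norm y
    rw [hy1, normSq_apply] at this
    nlinarith
  have h4 : 0 < ‖x - y‖ := norm_pos_iff.2 (sub_ne_zero.2 hne)
  have h5 : r * ‖x - y‖ ^ 2 ≤ ‖1 - r * (x * (starRingEnd ℂ) y)‖ ^ 2 := by
    rw [Complex.sq_norm, Complex.sq_norm, normSq_apply, normSq_apply]
    simp only [sub_re, sub_im, one_re, one_im, mul_re, mul_im, ofReal_re, ofReal_im, conj_re,
      conj_im]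
    have e : (x.re * y.re + x.im * y.im) ^ 2 + (x.im * y.re - x.re * y.im) ^ 2 = 1 := by
      have : (x.re * y.re + x.im * y.im) ^ 2 + (x.im * y.re - x.re * y.im) ^ 2 =
        (x.re ^ 2 + x.im ^ 2) * (y.re ^ 2 + y.im ^ 2) := by ring
      rw [this, hx, hy, mul_one]
    nlinarith [sq_nonneg (1 - r)]
  have h6 := Real.log_le_log (by positivity) h5
  rw [Real.log_mul hr0.ne' (by positivity), Real.log_pow, Real.log_pow] at h6
  push_cast at h6
  linarith

theorem ae_ne_prod (α β : Measure ℝ) [IsProbabilityMeasure α] [IsProbabilityMeasure β]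
    [NullSingletonClass β] : ∀ᵐ p ∂(α.prod β), p.1 ≠ p.2 := by
  rw [ae_iff]
  have : (α.prod β) {p : ℝ × ℝ | p.1 = p.2} = 0 := by
    refine Measure.measure_prod_null_of_ae_null
      (isClosed_eq continuous_fst continuous_snd).measurableSet (Eventually.of_forall fun x => ?_)
    have : Prod.mk x ⁻¹' {p : ℝ × ℝ | p.1 = p.2} = {x} := by
      ext y; simp [eq_comm]
    simp only [this, measure_singleton, Pi.zero_apply]
  simpa using this

theorem k_facts (α β : Measure ℝ) [IsProbabilityMeasure α] [IsProbabilityMeasure β]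
    [NullSingletonClass β] (hα : Integrable uu α) (hβ : Integrable uu β)
    (h : Integrable (fun p : ℝ × ℝ => Real.log |p.1 - p.2|) (α.prod β)) :
    Integrable (fun p : ℝ × ℝ => Real.log ‖cay p.1 - cay p.2‖) (α.prod β) ∧
    ∫ p : ℝ × ℝ, Real.log ‖cay p.1 - cay p.2‖ ∂(α.prod β) =
      ∫ p : ℝ × ℝ, Real.log |p.1 - p.2| ∂(α.prod β) +
        (Real.log 2 - ∫ x, uu x ∂α - ∫ x, uu x ∂β) := by
  have e : (fun p : ℝ × ℝ => Real.log |p.1 - p.2| + (Real.log 2 - uu p.1 - uu p.2)) =ᵐ[α.prod β]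
      fun p : ℝ × ℝ => Real.log ‖cay p.1 - cay p.2‖ := by
    filter_upwards [ae_ne_prod α β] with p hp
    exact (log_cay_sub hp).symm
  have h1 : Integrable (fun p : ℝ × ℝ => uu p.1) (α.prod β) := hα.comp_fst β
  have h2 : Integrable (fun p : ℝ × ℝ => uu p.2) (α.prod β) := hβ.comp_snd α
  have h3 : Integrable (fun p : ℝ × ℝ => Real.log 2 - uu p.1) (α.prod β) :=
    (integrable_const _).sub h1
  have h4 : Integrable (fun p : ℝ × ℝ => Real.log 2 - uu p.1 - uu p.2) (α.prod β) := h3.sub h2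
  refine ⟨(h.add h4).congr e, ?_⟩
  rw [← integral_congr_ae e, integral_add h h4, integral_sub h3 h2,
    integral_sub (integrable_const _) h1, integral_fun_fst, integral_fun_snd]
  simp

theorem energy_principle (α β : Measure ℝ) [IsProbabilityMeasure α] [IsProbabilityMeasure β]
    [NullSingletonClass α] [NullSingletonClass β] (hα : Integrable uu α) (hβ : Integrable uu β)
    (h1 : Integrable (fun p : ℝ × ℝ => Real.log |p.1 - p.2|) (α.prod α))
    (h2 : Integrable (fun p : ℝ × ℝ => Real.log |p.1 - p.2|) (β.prod β))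
    (h3 : Integrable (fun p : ℝ × ℝ => Real.log |p.1 - p.2|) (α.prod β)) :
    ∫ p : ℝ × ℝ, Real.log |p.1 - p.2| ∂(α.prod α) + ∫ p : ℝ × ℝ, Real.log |p.1 - p.2| ∂(β.prod β)
      ≤ 2 * ∫ p : ℝ × ℝ, Real.log |p.1 - p.2| ∂(α.prod β) := by
  obtain ⟨i1, e1⟩ := k_facts α α hα hα h1
  obtain ⟨i2, e2⟩ := k_facts β β hβ hβ h2
  obtain ⟨i3, e3⟩ := k_facts α β hα hβ h3
  let r : ℕ → ℝ := fun n => 1 - 1 / 2 * (1 / ((n : ℝ) + 1))
  have hrh : ∀ n, 1 / 2 ≤ r n := by
    intro n
    have : 1 / ((n : ℝ) + 1) ≤ 1 := by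
      rw [div_le_one (by positivity)]
      have : (0 : ℝ) ≤ n := by positivity
      linarith
    simp only [r]; linarith
  have hr0 : ∀ n, 0 < r n := fun n => by linarith [hrh n]
  have hr1 : ∀ n, r n < 1 := by
    intro n
    have : 0 < 1 / ((n : ℝ) + 1) := by positivity
    simp only [r]; linarith
  have hrt : Tendsto r atTop (𝓝 1) := by
    have := (tendsto_one_div_add_atTop_nhds_zero_nat (𝕜 := ℝ)).const_mul (1 / 2)
    have h2 := tendsto_const_nhds (x := (1 : ℝ)).sub this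
    rw [mul_zero, sub_zero] at h2
    exact h2
  have up : ∀ (γ : Measure ℝ) [IsProbabilityMeasure γ] [NullSingletonClass γ],
      Integrable (fun p : ℝ × ℝ => Real.log ‖cay p.1 - cay p.2‖) (γ.prod γ) → ∀ n,
      ∫ p : ℝ × ℝ, Real.log ‖cay p.1 - cay p.2‖ ∂(γ.prod γ) ≤
        ∫ p, kr (r n) p ∂(γ.prod γ) - (1 / 2) * Real.log (r n) := by
    intro γ _ _ hi n
    have h := integral_mono_ae hi ((integrable_kr γ γ (hr0 n) (hr1 n)).sub
      (integrable_const ((1 / 2) * Real.log (r n)))) (by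
        filter_upwards [ae_ne_prod γ γ] with p hp
        exact k_le_kr (hr0 n) hp)
    simp only [Pi.sub_apply] at h
    rw [integral_sub (integrable_kr γ γ (hr0 n) (hr1 n)) (integrable_const _)] at h
    simpa using h
  have hlim : Tendsto (fun n => ∫ p, kr (r n) p ∂(α.prod β)) atTop
      (𝓝 (∫ p : ℝ × ℝ, Real.log ‖cay p.1 - cay p.2‖ ∂(α.prod β))) := by
    refine tendsto_integral_of_dominated_convergence
      (fun p => |Real.log ‖cay p.1 - cay p.2‖| + Real.log 2)
      (fun n => (meas_kr _).aestronglyMeasurable) (i3.abs.add (integrable_const _)) (fun n => ?_) ?_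
    · filter_upwards [ae_ne_prod α β] with p hp
      have a1 := k_le_kr (hr0 n) hp
      have a2 := (kr_le (hr0 n) (hr1 n) p).2
      have a3 : -Real.log 2 ≤ Real.log (r n) := by
        rw [← Real.log_inv]
        exact Real.log_le_log (by norm_num) (by linarith [hrh n])
      have a4 := neg_abs_le (Real.log ‖cay p.1 - cay p.2‖)
      have a5 := abs_nonneg (Real.log ‖cay p.1 - cay p.2‖)
      have h7 : 0 ≤ Real.log 2 := Real.log_nonneg (by norm_num)
      rw [Real.norm_eq_abs, abs_le]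
      constructor <;> linarith
    · filter_upwards [ae_ne_prod α β] with p hp
      have e : ‖cay p.1 - cay p.2‖ = ‖1 - ((1 : ℝ) : ℂ) * (cay p.1 * (starRingEnd ℂ) (cay p.2))‖ := by
        have h0 : (1 : ℂ) = cay p.2 * (starRingEnd ℂ) (cay p.2) := by
          rw [mul_conj, normSq_eq_norm_sq, norm_cay]; simp
        have : 1 - ((1 : ℝ) : ℂ) * (cay p.1 * (starRingEnd ℂ) (cay p.2)) =
            -(cay p.1 - cay p.2) * (starRingEnd ℂ) (cay p.2) := by
          conv_lhs => rw [h0]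
          push_cast
          ring
        rw [this, norm_mul, norm_neg, Complex.norm_conj, norm_cay, mul_one]
      have hne : ‖cay p.1 - cay p.2‖ ≠ 0 := norm_ne_zero_iff.2 (sub_ne_zero.2 (cay_ne hp))
      rw [e] at hne ⊢
      have hc : Continuous fun s : ℝ => ‖1 - (s : ℂ) * (cay p.1 * (starRingEnd ℂ) (cay p.2))‖ := by
        fun_prop
      exact ((hc.tendsto 1).comp hrt).log hne
  have hlog : Tendsto (fun n => Real.log (r n)) atTop (𝓝 0) := by
    simpa using hrt.log one_ne_zero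
  have hfin := ge_of_tendsto' ((hlim.const_mul 2).sub hlog) (fun n => (by
    have a1 := up α i1 n
    have a2 := up β i2 n
    have a3 := kr_ineq α β (hr0 n) (hr1 n)
    linarith : ∫ p : ℝ × ℝ, Real.log ‖cay p.1 - cay p.2‖ ∂(α.prod α) +
      ∫ p : ℝ × ℝ, Real.log ‖cay p.1 - cay p.2‖ ∂(β.prod β) ≤
      2 * ∫ p, kr (r n) p ∂(α.prod β) - Real.log (r n)))
  rw [e1, e2, e3] at hfin
  linarith

end Pool.Agent.H281Z.Ref
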