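import Pool.Agent.H281Z.RefA

set_option autoImplicit false

namespace Pool.Agent.H281Z.Ref

open MeasureTheory Set Metric Filter Topology Pool.Agent.H281Z.Wid

theorem map_withDensity {s : Set ℝ} (hs : MeasurableSet s) {f f' : ℝ → ℝ} (hf : Measurable f)
    (hd : ∀ x ∈ s, HasDerivWithinAt f (f' x) s x) (hinj : InjOn f s) (w : ℝ → ENNReal) :
    Measure.map f ((volume.restrict s).withDensity fun x => ENNReal.ofReal |f' x| * w (f x)) =
      (volume.restrict (f '' s)).withDensity w := by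
  ext t ht
  rw [Measure.map_apply hf ht, withDensity_apply _ (hf ht), withDensity_apply _ ht,
    ← lintegral_indicator (hf ht), ← lintegral_indicator ht,
    lintegral_image_eq_lintegral_abs_deriv_mul hs hd hinj]
  refine lintegral_congr fun x => ?_
  by_cases hx : f x ∈ t
  · rw [indicator_of_mem hx, indicator_of_mem (show x ∈ f ⁻¹' t from hx)]
  · rw [indicator_of_notMem hx, indicator_of_notMem (show x ∉ f ⁻¹' t from hx), mul_zero]

/-- arcsine density -/
noncomputable def wd (t : ℝ) : ENNReal := ENNReal.ofReal (1 / (Real.pi * Real.sqrt (324 - t ^ 2)))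

theorem meas_wd : Measurable wd := by
  unfold wd
  fun_prop

/-- arcsine law on `[-18, 18]` -/
noncomputable def Om : Measure ℝ := (volume.restrict (Ioo (-18 : ℝ) 18)).withDensity wd

theorem Om_half : ENNReal.ofReal (1 / Real.pi) •
    Measure.map (fun θ : ℝ => 18 * Real.cos θ) (volume.restrict (Ioo 0 Real.pi)) = Om := by
  have hpi := Real.pi_pos
  have h := map_withDensity (s := Ioo 0 Real.pi) measurableSet_Ioo
    (f := fun θ : ℝ => 18 * Real.cos θ) (f' := fun θ => 18 * -Real.sin θ) (by fun_prop)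
    (fun x _ => ((Real.hasDerivAt_cos x).const_mul 18).hasDerivWithinAt)
    (fun x hx y hy hxy => Real.injOn_cos (Ioo_subset_Icc_self hx) (Ioo_subset_Icc_self hy)
      (by simpa using hxy)) wd
  have him : (fun θ : ℝ => 18 * Real.cos θ) '' Ioo 0 Real.pi = Ioo (-18 : ℝ) 18 := by
    apply Subset.antisymm
    · rintro _ ⟨x, hx, rfl⟩
      have h1 := Real.strictAntiOn_cos ⟨le_rfl, hpi.le⟩ (Ioo_subset_Icc_self hx) hx.1
      have h2 := Real.strictAntiOn_cos (Ioo_subset_Icc_self hx) ⟨hpi.le, le_rfl⟩ hx.2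
      simp only [Real.cos_zero, Real.cos_pi] at h1 h2
      constructor <;> simp only <;> linarith
    · have := intermediate_value_Ioo' hpi.le (f := fun θ : ℝ => 18 * Real.cos θ) (by fun_prop)
      simpa using this
  rw [him] at h
  rw [Om, ← h, ← Measure.map_smul, ← withDensity_const]
  congr 1
  refine withDensity_congr_ae ?_
  filter_upwards [ae_restrict_mem measurableSet_Ioo] with x hx
  have h1 := Real.sin_pos_of_pos_of_lt_pi hx.1 hx.2
  have h2 : Real.sqrt (324 - (18 * Real.cos x) ^ 2) = 18 * Real.sin x := by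
    rw [Real.sqrt_eq_iff_mul_self_eq_of_pos (by positivity)]
    nlinarith [Real.sin_sq_add_cos_sq x]
  rw [wd, h2, ← ENNReal.ofReal_mul (abs_nonneg _), mul_neg, abs_neg, abs_of_pos (by positivity)]
  congr 1
  field_simp

theorem Om_eq : Om = Measure.map (fun z : ℂ => 18 * z.re) sig := by
  have hpi := Real.pi_pos
  have hm : Measurable fun θ : ℝ => 18 * Real.cos θ := by fun_prop
  have h1 : Measure.map (fun θ : ℝ => 18 * Real.cos θ) (volume.restrict (Ioo Real.pi (2 * Real.pi))) =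
      Measure.map (fun θ : ℝ => 18 * Real.cos θ) (volume.restrict (Ioo 0 Real.pi)) := by
    have h2 := (Measure.measurePreserving_sub_left volume (2 * Real.pi)).restrict_preimage
      (s := Ioo 0 Real.pi) measurableSet_Ioo
    have h3 : (fun θ : ℝ => 2 * Real.pi - θ) ⁻¹' Ioo 0 Real.pi = Ioo Real.pi (2 * Real.pi) := by
      ext θ
      simp only [mem_preimage, mem_Ioo]
      constructor <;> rintro ⟨a, b⟩ <;> constructor <;> linarith
    rw [h3] at h2
    rw [← h2.map_eq, Measure.map_map hm (by fun_prop)]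
    congr 1
    funext θ
    simp
  have h4 : volume.restrict (Ioc 0 (2 * Real.pi)) =
      volume.restrict (Ioo 0 Real.pi) + volume.restrict (Ioo Real.pi (2 * Real.pi)) := by
    rw [Measure.restrict_congr_set (Ioo_ae_eq_Ioc (a := 0) (b := Real.pi)),
      Measure.restrict_congr_set (Ioo_ae_eq_Ioc (a := Real.pi) (b := 2 * Real.pi)),
      ← Measure.restrict_union (Ioc_disjoint_Ioc_of_le le_rfl) measurableSet_Ioc,
      Ioc_union_Ioc_eq_Ioc hpi.le (by linarith)]
  rw [sig, Measure.map_smul, Measure.map_map (by fun_prop) (meas_cm 1)]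
  have h5 : (fun z : ℂ => 18 * z.re) ∘ circleMap 0 1 = fun θ : ℝ => 18 * Real.cos θ := by
    funext θ
    simp [circleMap]
  rw [h5, h4, Measure.map_add _ _ hm, h1, ← two_smul ENNReal, smul_smul, ← Om_half]
  congr 1
  rw [← ENNReal.ofReal_ofNat, ← ENNReal.ofReal_mul (by positivity)]
  congr 1
  field_simp

instance : IsProbabilityMeasure Om := by
  rw [Om_eq]
  exact Measure.isProbabilityMeasure_map (by fun_prop)

instance : NullSingletonClass Om := by
  unfold Om
  infer_instance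

theorem ae_Om : ∀ᵐ t ∂Om, t ∈ Ioo (-18 : ℝ) 18 :=
  (withDensity_absolutelyContinuous _ _).ae_le (ae_restrict_mem measurableSet_Ioo)

theorem Om_log (s : ℝ) (w : ℂ) (hw : w ≠ 0) (hs : (s : ℂ) = 9 * (w + w⁻¹)) :
    Integrable (fun t : ℝ => Real.log |t - s|) Om ∧
      ∫ t, Real.log |t - s| ∂Om = Real.log 9 + Real.posLog ‖w‖ + Real.posLog ‖w⁻¹‖ := by
  have hm : Measurable fun t : ℝ => Real.log |t - s| := Real.measurable_log.comp (by fun_prop)
  have hm2 : Measurable fun z : ℂ => 18 * z.re := by fun_prop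
  have e : (fun z : ℂ => Real.log 9 + Real.log ‖z - w‖ + Real.log ‖z - w⁻¹‖) =ᵐ[sig]
      fun z : ℂ => Real.log |18 * z.re - s| := by
    filter_upwards [ae_sig, Measure.ae_ne sig w, Measure.ae_ne sig w⁻¹] with z hz h1 h2
    have hz0 : z ≠ 0 := by rintro rfl; simp at hz
    have h3 : (starRingEnd ℂ) z = z⁻¹ := by
      rw [Complex.inv_def, Complex.normSq_eq_norm_sq, hz]; simp
    have h4 : ((18 * z.re - s : ℝ) : ℂ) = 9 * z⁻¹ * (z - w) * (z - w⁻¹) := by
      push_cast
      rw [hs, Complex.re_eq_add_conj, h3]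
      field_simp
      ring
    have h5 : |18 * z.re - s| = 9 * ‖z - w‖ * ‖z - w⁻¹‖ := by
      rw [← Real.norm_eq_abs, ← Complex.norm_real, h4]
      simp [hz]
    have h6 := norm_ne_zero_iff.2 (sub_ne_zero.2 h1)
    have h7 := norm_ne_zero_iff.2 (sub_ne_zero.2 h2)
    rw [h5, Real.log_mul (by positivity) h7, Real.log_mul (by norm_num) h6]
  have i1 : Integrable (fun z : ℂ => Real.log 9 + Real.log ‖z - w‖) sig :=
    (integrable_const _).add (integrable_sig_log w)
  rw [Om_eq, integrable_map_measure hm.aestronglyMeasurable hm2.aemeasurable,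
    integral_map hm2.aemeasurable hm.aestronglyMeasurable]
  refine ⟨(i1.add (integrable_sig_log w⁻¹)).congr e, ?_⟩
  rw [← integral_congr_ae e, integral_add i1 (integrable_sig_log w⁻¹),
    integral_add (integrable_const _) (integrable_sig_log w),
    integral_sig (fun x : ℂ => Real.log ‖x - w‖) (Real.measurable_log.comp (by fun_prop)),
    integral_sig (fun x : ℂ => Real.log ‖x - w⁻¹‖) (Real.measurable_log.comp (by fun_prop)),
    circleAverage_log_norm_sub_const_eq_posLog, circleAverage_log_norm_sub_const_eq_posLog]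
  simp

theorem Om_log_in (s : ℝ) (h1 : -18 ≤ s) (h2 : s ≤ 18) :
    Integrable (fun t : ℝ => Real.log |t - s|) Om ∧ ∫ t, Real.log |t - s| ∂Om = Real.log 9 := by
  let w : ℂ := ⟨s / 18, Real.sqrt (1 - (s / 18) ^ 2)⟩
  have h3 : 0 ≤ 1 - (s / 18) ^ 2 := by nlinarith
  have hn : Complex.normSq w = 1 := by
    rw [Complex.normSq_apply]
    simp only [w]
    rw [Real.mul_self_sqrt h3]
    ring
  have hw : ‖w‖ = 1 := by
    rw [Complex.norm_def, hn, Real.sqrt_one]
  have hw0 : w ≠ 0 := by rintro h; simp [h] at hw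
  have h := Om_log s w hw0 (by
    rw [Complex.inv_def, hn]
    apply Complex.ext <;> simp [w]
    ring)
  simpa [hw] using h

theorem Om_log_out (a : ℝ) (ha : 1 ≤ a) :
    Integrable (fun t : ℝ => Real.log |t - -9 * (a + a⁻¹)|) Om ∧
      ∫ t, Real.log |t - -9 * (a + a⁻¹)| ∂Om = Real.log 9 + Real.log a := by
  have h := Om_log (-9 * (a + a⁻¹)) (-a : ℝ) (by simp; linarith) (by push_cast; rw [inv_neg]; ring)
  refine ⟨h.1, ?_⟩
  rw [h.2, norm_inv, Complex.norm_real, norm_neg, Real.norm_of_nonneg (by linarith),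
    Real.posLog_eq_log (by rwa [abs_of_nonneg (by linarith)]),
    (Real.posLog_eq_zero_iff _).2 (by
      rw [abs_of_nonneg (by positivity)]; exact inv_le_one_of_one_le₀ ha), add_zero]

/-- the cubic -/
def qq (x : ℝ) : ℝ := x ^ 3 - 7 * x ^ 2 + 18

theorem cont_qq : Continuous qq := by unfold qq; fun_prop

theorem deriv_qq (x : ℝ) : HasDerivAt qq (3 * x ^ 2 - 14 * x) x := by
  have := (((hasDerivAt_pow 3 x).sub ((hasDerivAt_pow 2 x).const_mul 7)).add_const 18)
  refine HasDerivAt.congr_deriv this ?_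
  push_cast
  ring

/-- branch measures -/
noncomputable def nuB (s : Set ℝ) : Measure ℝ :=
  (volume.restrict s).withDensity fun x => ENNReal.ofReal |3 * x ^ 2 - 14 * x| * wd (qq x)

theorem branch (s : Set ℝ) (hs : MeasurableSet s) (hinj : InjOn qq s)
    (him : qq '' s = Ioo (-18 : ℝ) 18) :
    ∃ ξ : ℝ → ℝ, Measurable ξ ∧ (∀ t ∈ Ioo (-18 : ℝ) 18, ξ t ∈ s ∧ qq (ξ t) = t) ∧
      nuB s = Measure.map ξ Om := by
  have he := ContinuousOn.measurableEmbedding hs cont_qq.continuousOn hinj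
  let ξ : ℝ → ℝ := Function.extend (s.domRestrict qq) Subtype.val (fun _ => 0)
  have hξ : Measurable ξ := he.measurable_extend measurable_subtype_coe measurable_const
  have hξq : ∀ x ∈ s, ξ (qq x) = x := fun x hx =>
    he.injective.extend_apply Subtype.val (fun _ => 0) ⟨x, hx⟩
  refine ⟨ξ, hξ, ?_, ?_⟩
  · intro t ht
    rw [← him] at ht
    obtain ⟨x, hx, rfl⟩ := ht
    rw [hξq x hx]
    exact ⟨hx, rfl⟩
  · have h := map_withDensity hs cont_qq.measurable
      (fun x _ => (deriv_qq x).hasDerivWithinAt) hinj wd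
    rw [him] at h
    rw [Om, ← h, Measure.map_map hξ cont_qq.measurable]
    symm
    rw [Measure.map_congr (g := id), Measure.map_id, nuB]
    filter_upwards [(withDensity_absolutelyContinuous _ _).ae_le (ae_restrict_mem hs)] with x hx
    exact hξq x hx

theorem qq_mem {x : ℝ} (h : x ∈ Ioo (-2 : ℝ) 0 ∨ x ∈ Ioo (0 : ℝ) 3 ∨ x ∈ Ioo (6 : ℝ) 7) :
    qq x ∈ Ioo (-18 : ℝ) 18 := by
  have e1 : qq x = 18 - x ^ 2 * (7 - x) := by unfold qq; ring
  have e2 : qq x = -18 + (x + 2) * ((3 - x) * (6 - x)) := by unfold qq; ring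
  have h1 : 0 < x ^ 2 * (7 - x) := by
    rcases h with h | h | h
    · exact mul_pos (sq_pos_of_neg h.2) (by linarith [h.2])
    · exact mul_pos (sq_pos_of_pos h.1) (by linarith [h.2])
    · exact mul_pos (sq_pos_of_pos (by linarith [h.1])) (by linarith [h.2])
  have h2 : 0 < (x + 2) * ((3 - x) * (6 - x)) := by
    rcases h with h | h | h
    · exact mul_pos (by linarith [h.1]) (mul_pos (by linarith [h.2]) (by linarith [h.2]))
    · exact mul_pos (by linarith [h.1]) (mul_pos (by linarith [h.2]) (by linarith [h.2]))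
    · exact mul_pos (by linarith [h.1]) (mul_pos_of_neg_of_neg (by linarith [h.1]) (by linarith [h.1]))
  constructor <;> linarith

theorem qq_sub (x y : ℝ) : qq x - qq y = (x - y) * (x ^ 2 + x * y + y ^ 2 - 7 * (x + y)) := by
  unfold qq; ring

theorem conic {x y : ℝ} (h : qq x = qq y) (hne : x ≠ y) :
    x ^ 2 + x * y + y ^ 2 - 7 * (x + y) = 0 := by
  have := qq_sub x y
  rw [h, sub_self] at this
  exact (mul_eq_zero.1 this.symm).resolve_left (sub_ne_zero.2 hne)

theorem branch1 : ∃ ξ : ℝ → ℝ, Measurable ξ ∧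
    (∀ t ∈ Ioo (-18 : ℝ) 18, ξ t ∈ Ioo (-2 : ℝ) 0 ∧ qq (ξ t) = t) ∧
      nuB (Ioo (-2 : ℝ) 0) = Measure.map ξ Om := by
  refine branch _ measurableSet_Ioo (fun x hx y hy h => ?_) (Subset.antisymm ?_ ?_)
  · by_contra hne
    have := conic h hne
    nlinarith [mul_pos_of_neg_of_neg hx.2 hy.2, hx.2, hy.2, sq_nonneg x, sq_nonneg y]
  · rintro _ ⟨x, hx, rfl⟩
    exact qq_mem (Or.inl hx)
  · have := intermediate_value_Ioo (show (-2 : ℝ) ≤ 0 by norm_num) cont_qq.continuousOn
    rwa [show qq (-2) = -18 by norm_num [qq], show qq 0 = 18 by norm_num [qq]] at this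

theorem branch2 : ∃ ξ : ℝ → ℝ, Measurable ξ ∧
    (∀ t ∈ Ioo (-18 : ℝ) 18, ξ t ∈ Ioo (0 : ℝ) 3 ∧ qq (ξ t) = t) ∧
      nuB (Ioo (0 : ℝ) 3) = Measure.map ξ Om := by
  refine branch _ measurableSet_Ioo (fun x hx y hy h => ?_) (Subset.antisymm ?_ ?_)
  · by_contra hne
    have := conic h hne
    nlinarith [mul_pos hx.1 (sub_pos.2 hx.2), mul_pos hy.1 (sub_pos.2 hy.2),
      mul_pos hx.1 (sub_pos.2 hy.2), hx.1, hy.1]
  · rintro _ ⟨x, hx, rfl⟩
    exact qq_mem (Or.inr (Or.inl hx))
  · have := intermediate_value_Ioo' (show (0 : ℝ) ≤ 3 by norm_num) cont_qq.continuousOn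
    rwa [show qq 3 = -18 by norm_num [qq], show qq 0 = 18 by norm_num [qq]] at this

theorem branch3 : ∃ ξ : ℝ → ℝ, Measurable ξ ∧
    (∀ t ∈ Ioo (-18 : ℝ) 18, ξ t ∈ Ioo (6 : ℝ) 7 ∧ qq (ξ t) = t) ∧
      nuB (Ioo (6 : ℝ) 7) = Measure.map ξ Om := by
  refine branch _ measurableSet_Ioo (fun x hx y hy h => ?_) (Subset.antisymm ?_ ?_)
  · by_contra hne
    have := conic h hne
    nlinarith [mul_pos (sub_pos.2 hx.1) (sub_pos.2 hy.1), hx.1, hy.1, sq_nonneg (x - 6),
      sq_nonneg (y - 6)]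
  · rintro _ ⟨x, hx, rfl⟩
    exact qq_mem (Or.inr (Or.inr hx))
  · have := intermediate_value_Ioo (show (6 : ℝ) ≤ 7 by norm_num) cont_qq.continuousOn
    rwa [show qq 6 = -18 by norm_num [qq], show qq 7 = 18 by norm_num [qq]] at this

theorem vieta {a b c : ℝ} (hab : a < b) (hbc : b < c) (h1 : qq a = qq b) (h2 : qq a = qq c) :
    a + b + c = 7 ∧ a * b + a * c + b * c = 0 := by
  have e1 := conic h1 hab.ne
  have e2 := conic h2 (hab.trans hbc).ne
  have e3 : (b - c) * (a + b + c - 7) = 0 := by linear_combination e1 - e2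
  have e4 : a + b + c = 7 := by
    have := (mul_eq_zero.1 e3).resolve_left (sub_ne_zero.2 hbc.ne)
    linarith
  refine ⟨e4, ?_⟩
  linear_combination (a + b) * e4 - e1

end Pool.Agent.H281Z.Ref
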