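import Mathlib

set_option autoImplicit false

namespace Pool.Agent.H281Z.RefDefs

open MeasureTheory Set Filter Topology

/-- The double integral of `log |x - y|` against `ρ × ρ` (minus the logarithmic energy). -/
noncomputable def logInt (ρ : Measure ℝ) : ℝ :=
  ∫ p : ℝ × ℝ, Real.log |p.1 - p.2| ∂(ρ.prod ρ)

/-- `ρ` is a probability measure carried by `K` with finite logarithmic energy. -/
def FiniteEnergyOn (K : Set ℝ) (ρ : Measure ℝ) : Prop :=
  IsProbabilityMeasure ρ ∧ ρ Kᶜ = 0 ∧ (∀ x, ρ {x} = 0) ∧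
    Integrable (fun p : ℝ × ℝ => Real.log |p.1 - p.2|) (ρ.prod ρ)

/-- `ν` is the equilibrium measure of `K`: it minimises the logarithmic energy. -/
def IsEquilibrium (K : Set ℝ) (ν : Measure ℝ) : Prop :=
  FiniteEnergyOn K ν ∧ ∀ ρ, FiniteEnergyOn K ρ → logInt ρ ≤ logInt ν

/-- The union of the intervals `[α j, β j]`. -/
def gapSet {l : ℕ} (α β : Fin (l + 1) → ℝ) : Set ℝ := ⋃ j, Icc (α j) (β j)

/-- The function `G_γ` on the upper half-plane, with principal square roots of the linear factors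
(the branch with `G_γ(z) ~ -1/z` at infinity). -/
noncomputable def greenG {l : ℕ} (α β : Fin (l + 1) → ℝ) (γ : Fin l → ℝ) (z : ℂ) : ℂ :=
  -(∏ j, (z - γ j)) / ∏ j, ((z - α j) ^ (1 / 2 : ℂ) * (z - β j) ^ (1 / 2 : ℂ))

/-- The reflectionless measure `(1/π) Im G_γ(x + i0) χ_K(x) dx`. -/
noncomputable def reflMeasure {l : ℕ} (α β : Fin (l + 1) → ℝ) (γ : Fin l → ℝ) : Measure ℝ :=
  (volume.restrict (gapSet α β)).withDensity fun x =>
    ENNReal.ofReal
      (limUnder (𝓝[>] (0 : ℝ)) (fun ε : ℝ => (greenG α β γ (x + ε * Complex.I)).im) / Real.pi)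

/-- The `L²` Widom factor of `μ`; the capacity is `exp (logInt ν)` for the equilibrium
measure `ν`. -/
noncomputable def widomL2 (μ ν : Measure ℝ) (n : ℕ) : ℝ :=
  (⨅ P : {P : Polynomial ℝ // P.Monic ∧ P.natDegree = n},
    Real.sqrt (∫ x, (P.1.eval x) ^ 2 ∂μ)) / Real.exp (logInt ν) ^ n

/-- The Szegő quantity `exp ∫ log (dμ/dν) dν`. -/
noncomputable def szego (μ ν : Measure ℝ) : ℝ :=
  Real.exp (∫ x, Real.log (μ.rnDeriv ν x).toReal ∂ν)

end Pool.Agent.H281Z.RefDefs
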