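import Pool.Agent.H281Z.RefB
import Pool.Agent.H281Z.RefDefs

set_option autoImplicit false

namespace Pool.Agent.H281Z.Ref

open MeasureTheory Set Metric Filter Topology Pool.Agent.H281Z.RefDefs

/-- inverse branch -/
noncomputable def x1 : ℝ → ℝ := branch1.choose
/-- inverse branch -/
noncomputable def x2 : ℝ → ℝ := branch2.choose
/-- inverse branch -/
noncomputable def x3 : ℝ → ℝ := branch3.choose

theorem m1 : Measurable x1 := branch1.choose_spec.1
theorem m2 : Measurable x2 := branch2.choose_spec.1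
theorem m3 : Measurable x3 := branch3.choose_spec.1

theorem roots {t : ℝ} (ht : t ∈ Ioo (-18 : ℝ) 18) :
    x1 t ∈ Ioo (-2 : ℝ) 0 ∧ x2 t ∈ Ioo (0 : ℝ) 3 ∧ x3 t ∈ Ioo (6 : ℝ) 7 ∧ qq (x1 t) = t ∧
      x1 t + x2 t + x3 t = 7 ∧ x1 t * x2 t + x1 t * x3 t + x2 t * x3 t = 0 := by
  obtain ⟨a1, a2⟩ : x1 t ∈ Ioo (-2 : ℝ) 0 ∧ qq (x1 t) = t := branch1.choose_spec.2.1 t ht
  obtain ⟨b1, b2⟩ : x2 t ∈ Ioo (0 : ℝ) 3 ∧ qq (x2 t) = t := branch2.choose_spec.2.1 t ht
  obtain ⟨c1, c2⟩ : x3 t ∈ Ioo (6 : ℝ) 7 ∧ qq (x3 t) = t := branch3.choose_spec.2.1 t ht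
  exact ⟨a1, b1, c1, a2, vieta (a1.2.trans b1.1) (by linarith [b1.2, c1.1]) (a2.trans b2.symm)
    (a2.trans c2.symm)⟩

/-- the equilibrium measure -/
noncomputable def nu : Measure ℝ :=
  (3⁻¹ : ENNReal) • (nuB (Ioo (-2 : ℝ) 0) + nuB (Ioo (0 : ℝ) 3) + nuB (Ioo (6 : ℝ) 7))

theorem nu_eq : nu = (3⁻¹ : ENNReal) • (Om.map x1 + Om.map x2 + Om.map x3) := by
  rw [nu, branch1.choose_spec.2.2, branch2.choose_spec.2.2, branch3.choose_spec.2.2]
  rfl

instance : IsProbabilityMeasure nu := by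
  constructor
  rw [nu_eq, Measure.smul_apply, Measure.add_apply, Measure.add_apply,
    Measure.map_apply m1 MeasurableSet.univ, Measure.map_apply m2 MeasurableSet.univ,
    Measure.map_apply m3 MeasurableSet.univ]
  simp only [preimage_univ, measure_univ, smul_eq_mul]
  rw [show (1 + 1 + 1 : ENNReal) = 3 by norm_num]
  exact ENNReal.inv_mul_cancel (by norm_num) (by norm_num)

instance : NullSingletonClass nu := by
  constructor
  intro x
  have : ∀ s, nuB s {x} = 0 := fun s => by unfold nuB; exact measure_singleton x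
  simp [nu, this]

theorem ae_nu : ∀ᵐ x ∂nu, x ∈ Ioo (-2 : ℝ) 0 ∨ x ∈ Ioo (0 : ℝ) 3 ∨ x ∈ Ioo (6 : ℝ) 7 := by
  have : ∀ a b : ℝ, ∀ᵐ x ∂(nuB (Ioo a b)), x ∈ Ioo a b := fun a b =>
    (withDensity_absolutelyContinuous _ _).ae_le (ae_restrict_mem measurableSet_Ioo)
  refine Measure.ae_smul_measure ?_ _
  rw [ae_add_measure_iff, ae_add_measure_iff]
  refine ⟨⟨?_, ?_⟩, ?_⟩
  · filter_upwards [this (-2) 0] with x hx using Or.inl hx
  · filter_upwards [this 0 3] with x hx using Or.inr (Or.inl hx)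
  · filter_upwards [this 6 7] with x hx using Or.inr (Or.inr hx)

theorem int_nu (F : ℝ → ℝ) (hF : Measurable F) (h1 : Integrable (fun t => F (x1 t)) Om)
    (h2 : Integrable (fun t => F (x2 t)) Om) (h3 : Integrable (fun t => F (x3 t)) Om) :
    Integrable F nu ∧ ∫ x, F x ∂nu = 1 / 3 * ∫ t, (F (x1 t) + F (x2 t) + F (x3 t)) ∂Om := by
  have i1 : Integrable F (Om.map x1) :=
    (integrable_map_measure hF.aestronglyMeasurable m1.aemeasurable).2 h1
  have i2 : Integrable F (Om.map x2) :=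
    (integrable_map_measure hF.aestronglyMeasurable m2.aemeasurable).2 h2
  have i3 : Integrable F (Om.map x3) :=
    (integrable_map_measure hF.aestronglyMeasurable m3.aemeasurable).2 h3
  rw [nu_eq]
  refine ⟨((i1.add_measure i2).add_measure i3).smul_measure (by norm_num), ?_⟩
  rw [integral_smul_measure, integral_add_measure (i1.add_measure i2) i3,
    integral_add_measure i1 i2, integral_map m1.aemeasurable hF.aestronglyMeasurable,
    integral_map m2.aemeasurable hF.aestronglyMeasurable,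
    integral_map m3.aemeasurable hF.aestronglyMeasurable,
    integral_add (f := fun t => F (x1 t) + F (x2 t)) (h1.add h2) h3, integral_add h1 h2]
  simp

theorem log_le_C {x y : ℝ} (h1 : -2 ≤ x) (h2 : x ≤ 7) :
    Real.log |x - y| ≤ Real.log (|y| + 8) := by
  have h0 := abs_nonneg y
  rcases (abs_nonneg (x - y)).eq_or_lt with h | h
  · rw [← h, Real.log_zero]
    exact Real.log_nonneg (by linarith)
  · apply Real.log_le_log h
    have := abs_sub x y
    have : |x| ≤ 7 := abs_le.2 ⟨by linarith, h2⟩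
    linarith

theorem pot (y : ℝ) (h : Integrable (fun t : ℝ => Real.log |t - qq y|) Om) :
    Integrable (fun x : ℝ => Real.log |x - y|) nu ∧
      ∫ x, Real.log |x - y| ∂nu = 1 / 3 * ∫ t, Real.log |t - qq y| ∂Om := by
  have hm : Measurable fun x : ℝ => Real.log |x - y| := Real.measurable_log.comp (by fun_prop)
  have key : ∀ᵐ t ∂Om, Real.log |x1 t - y| + Real.log |x2 t - y| + Real.log |x3 t - y| =
      Real.log |t - qq y| ∧ Real.log |x1 t - y| ≤ Real.log (|y| + 8) ∧
      Real.log |x2 t - y| ≤ Real.log (|y| + 8) ∧ Real.log |x3 t - y| ≤ Real.log (|y| + 8) := by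
    filter_upwards [ae_Om, Measure.ae_ne Om (qq y)] with t ht hne
    obtain ⟨a, b, c, e0, e1, e2⟩ := roots ht
    refine ⟨?_, log_le_C a.1.le (by linarith [a.2]), log_le_C (by linarith [b.1]) (by linarith [b.2]),
      log_le_C (by linarith [c.1]) c.2.le⟩
    have e : t - qq y = (x1 t - y) * (x2 t - y) * (x3 t - y) := by
      conv_lhs => rw [← e0]
      unfold qq
      linear_combination (x1 t ^ 2 - y ^ 2) * e1 + (y - x1 t) * e2
    have hp : (x1 t - y) * (x2 t - y) * (x3 t - y) ≠ 0 := e ▸ sub_ne_zero.2 hne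
    simp only [ne_eq, mul_eq_zero, not_or] at hp
    rw [e, abs_mul, abs_mul, Real.log_mul (mul_ne_zero (abs_ne_zero.2 hp.1.1) (abs_ne_zero.2 hp.1.2))
      (abs_ne_zero.2 hp.2), Real.log_mul (abs_ne_zero.2 hp.1.1) (abs_ne_zero.2 hp.1.2)]
  have hC : 0 ≤ Real.log (|y| + 8) := Real.log_nonneg (by linarith [abs_nonneg y])
  have hb : Integrable (fun t : ℝ => abs (Real.log |t - qq y|) + 2 * Real.log (|y| + 8)) Om :=
    h.abs.add (integrable_const _)
  have h0 := int_nu _ hm (hb.mono' (hm.comp m1).aestronglyMeasurable ?_)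
    (hb.mono' (hm.comp m2).aestronglyMeasurable ?_) (hb.mono' (hm.comp m3).aestronglyMeasurable ?_)
  · refine ⟨h0.1, ?_⟩
    rw [h0.2]
    congr 1
    refine integral_congr_ae ?_
    filter_upwards [key] with t ht using ht.1
  all_goals
    filter_upwards [key] with t ht
    have a1 := neg_abs_le (Real.log |t - qq y|)
    have a2 := abs_nonneg (Real.log |t - qq y|)
    rw [Real.norm_eq_abs, abs_le]
    constructor <;> linarith [ht.1, ht.2.1, ht.2.2.1, ht.2.2.2]

theorem pot_in {y : ℝ} (hy : y ∈ Icc (-2 : ℝ) 3 ∪ Icc (6 : ℝ) 7) :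
    Integrable (fun x : ℝ => Real.log |x - y|) nu ∧
      ∫ x, Real.log |x - y| ∂nu = 1 / 3 * Real.log 9 := by
  have e1 : qq y = 18 - y ^ 2 * (7 - y) := by unfold qq; ring
  have e2 : qq y = -18 + (y + 2) * ((3 - y) * (6 - y)) := by unfold qq; ring
  have h1 : 0 ≤ y ^ 2 * (7 - y) := by
    rcases hy with h | h <;> exact mul_nonneg (sq_nonneg _) (by linarith [h.2])
  have h2 : 0 ≤ (y + 2) * ((3 - y) * (6 - y)) := by
    rcases hy with h | h
    · exact mul_nonneg (by linarith [h.1]) (mul_nonneg (by linarith [h.2]) (by linarith [h.2]))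
    · exact mul_nonneg (by linarith [h.1])
        (mul_nonneg_of_nonpos_of_nonpos (by linarith [h.1]) (by linarith [h.1]))
  obtain ⟨a, b⟩ := Om_log_in (qq y) (by linarith) (by linarith)
  rw [← b]
  exact pot y a

theorem cross (ρ : Measure ℝ) [IsProbabilityMeasure ρ]
    (hρ : ∀ᵐ y ∂ρ, y ∈ Icc (-2 : ℝ) 3 ∪ Icc (6 : ℝ) 7) :
    Integrable (fun p : ℝ × ℝ => Real.log |p.1 - p.2|) (nu.prod ρ) ∧
      ∫ p : ℝ × ℝ, Real.log |p.1 - p.2| ∂(nu.prod ρ) = 1 / 3 * Real.log 9 := by
  have hm : Measurable fun p : ℝ × ℝ => Real.log |p.1 - p.2| :=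
    Real.measurable_log.comp (by fun_prop)
  have hi : Integrable (fun p : ℝ × ℝ => Real.log |p.1 - p.2|) (nu.prod ρ) := by
    rw [integrable_prod_iff' hm.aestronglyMeasurable]
    refine ⟨by filter_upwards [hρ] with y hy using (pot_in hy).1, ?_⟩
    refine Integrable.of_bound (C := 2 * Real.log 15 - 1 / 3 * Real.log 9)
      hm.aestronglyMeasurable.norm.prod_swap.integral_prod_right' ?_
    filter_upwards [hρ] with y hy
    rw [Real.norm_of_nonneg (integral_nonneg fun _ => norm_nonneg _)]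
    have h1 := integral_mono_ae (pot_in hy).1.norm
      ((integrable_const (2 * Real.log 15)).sub (pot_in hy).1) (by
        filter_upwards [ae_nu] with x hx
        simp only [Pi.sub_apply]
        have h7 : 0 ≤ Real.log 15 := Real.log_nonneg (by norm_num)
        have hy7 : |y| ≤ 7 := by
          rcases hy with h | h <;> exact abs_le.2 ⟨by linarith [h.1], by linarith [h.2]⟩
        have h2 : Real.log |x - y| ≤ Real.log 15 := by
          refine (log_le_C ?_ ?_).trans (Real.log_le_log (by positivity) (by linarith))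
          · rcases hx with h | h | h <;> linarith [h.1]
          · rcases hx with h | h | h <;> linarith [h.2]
        rw [Real.norm_eq_abs, abs_le]
        constructor <;> linarith)
    simp only [Pi.sub_apply] at h1
    rw [integral_sub (integrable_const _) (pot_in hy).1, (pot_in hy).2] at h1
    simpa using h1
  refine ⟨hi, ?_⟩
  rw [integral_prod_symm _ hi, integral_congr_ae (g := fun _ => 1 / 3 * Real.log 9)]
  · simp
  · filter_upwards [hρ] with y hy using (pot_in hy).2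

theorem ae_nu' : ∀ᵐ y ∂nu, y ∈ Icc (-2 : ℝ) 3 ∪ Icc (6 : ℝ) 7 := by
  filter_upwards [ae_nu] with x hx
  rcases hx with h | h | h
  · exact Or.inl ⟨h.1.le, by linarith [h.2]⟩
  · exact Or.inl ⟨by linarith [h.1], h.2.le⟩
  · exact Or.inr ⟨h.1.le, h.2.le⟩

theorem gap_eq : gapSet ![(-2 : ℝ), 6] ![3, 7] = Icc (-2 : ℝ) 3 ∪ Icc (6 : ℝ) 7 := by
  ext x
  simp [gapSet, Fin.exists_fin_two]

theorem logInt_nu : logInt nu = 1 / 3 * Real.log 9 := (cross nu ae_nu').2

theorem int_uu (ρ : Measure ℝ) [IsProbabilityMeasure ρ]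
    (hρ : ∀ᵐ y ∂ρ, y ∈ Icc (-2 : ℝ) 3 ∪ Icc (6 : ℝ) 7) : Integrable uu ρ := by
  obtain ⟨C, hC⟩ := (isCompact_Icc.union isCompact_Icc : IsCompact
    (Icc (-2 : ℝ) 3 ∪ Icc (6 : ℝ) 7)).exists_bound_of_continuousOn continuous_uu.continuousOn
  refine Integrable.of_bound (C := C) continuous_uu.aestronglyMeasurable ?_
  filter_upwards [hρ] with y hy using hC y hy

theorem isEq_nu : IsEquilibrium (gapSet ![(-2 : ℝ), 6] ![3, 7]) nu := by
  rw [gap_eq]
  refine ⟨⟨inferInstance, ae_nu', fun x => measure_singleton x, (cross nu ae_nu').1⟩, ?_⟩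
  rintro ρ ⟨h1, h2, h3, h4⟩
  have : NullSingletonClass ρ := ⟨h3⟩
  have h := energy_principle nu ρ (int_uu nu ae_nu') (int_uu ρ h2) (cross nu ae_nu').1 h4
    (cross ρ h2).1
  rw [(cross nu ae_nu').2, (cross ρ h2).2] at h
  rw [logInt_nu, logInt]
  linarith

end Pool.Agent.H281Z.Ref
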