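import Pool.Agent.H281Z.RefC

set_option autoImplicit false

namespace Pool.Agent.H281Z.Ref

open MeasureTheory Set Metric Filter Topology Pool.Agent.H281Z.RefDefs

theorem lim_cpow_pos {x e : ℝ} (h : e < x) :
    Tendsto (fun ε : ℝ => ((x : ℂ) + ε * Complex.I - e) ^ (1 / 2 : ℂ)) (𝓝[>] 0)
      (𝓝 ((Real.sqrt (x - e) : ℝ) : ℂ)) := by
  have h1 : Tendsto (fun ε : ℝ => ((x : ℂ) + ε * Complex.I - e)) (𝓝[>] 0)
      (𝓝 ((x - e : ℝ) : ℂ)) := by
    have : Continuous fun ε : ℝ => ((x : ℂ) + ε * Complex.I - e) := by fun_prop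
    have := (this.tendsto 0).mono_left (nhdsWithin_le_nhds (s := Ioi 0))
    simpa using this
  have h2 := (continuousAt_cpow_const (b := (1 / 2 : ℂ))
    (Complex.ofReal_mem_slitPlane.2 (sub_pos.2 h))).tendsto.comp h1
  rw [Real.sqrt_eq_rpow, Complex.ofReal_cpow (sub_pos.2 h).le]
  simpa [Function.comp_def] using h2

theorem lim_cpow_neg {x e : ℝ} (h : x < e) :
    Tendsto (fun ε : ℝ => ((x : ℂ) + ε * Complex.I - e) ^ (1 / 2 : ℂ)) (𝓝[>] 0)
      (𝓝 (((Real.sqrt (e - x) : ℝ) : ℂ) * Complex.I)) := by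
  have h1 : Tendsto (fun ε : ℝ => ((x : ℂ) + ε * Complex.I - e)) (𝓝[>] 0)
      (𝓝[{z : ℂ | 0 ≤ z.im}] ((x - e : ℝ) : ℂ)) := by
    refine tendsto_nhdsWithin_iff.2 ⟨?_, ?_⟩
    · have : Continuous fun ε : ℝ => ((x : ℂ) + ε * Complex.I - e) := by fun_prop
      have := (this.tendsto 0).mono_left (nhdsWithin_le_nhds (s := Ioi 0))
      simpa using this
    · filter_upwards [self_mem_nhdsWithin] with ε hε
      simpa using le_of_lt hε
  have h2 := (Complex.continuousWithinAt_log_of_re_neg_of_im_zero (z := ((x - e : ℝ) : ℂ))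
    (by simpa using h) (by simp)).tendsto.comp h1
  have h3 := (Complex.continuous_exp.tendsto _).comp (h2.mul_const (1 / 2 : ℂ))
  have hne : ((x - e : ℝ) : ℂ) ≠ 0 := by exact_mod_cast (sub_neg.2 h).ne
  rw [← Complex.cpow_def_of_ne_zero hne, Complex.ofReal_cpow_of_nonpos (sub_neg.2 h).le] at h3
  have h4 : Complex.exp (Real.pi * Complex.I * (1 / 2)) = Complex.I := by
    rw [← Complex.exp_pi_div_two_mul_I]
    congr 1
    rw [Complex.exp_pi_div_two_mul_I]
    ring
  rw [h4, ← Complex.ofReal_neg, neg_sub] at h3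
  rw [Real.sqrt_eq_rpow, Complex.ofReal_cpow (sub_pos.2 h).le]
  push_cast at h3 ⊢
  refine h3.congr fun ε => ?_
  simp only [Function.comp]
  rw [Complex.cpow_def_of_ne_zero]
  intro h0
  have := congrArg Complex.re h0
  simp at this
  linarith

/-- quartic under the root -/
def DD (x : ℝ) : ℝ := (x + 2) * (3 - x) * (6 - x) * (7 - x)

theorem lim_G {x : ℝ} (hx : x ∈ Ioo (-2 : ℝ) 0 ∨ x ∈ Ioo (0 : ℝ) 3 ∨ x ∈ Ioo (6 : ℝ) 7) :
    Tendsto (fun ε : ℝ => (greenG ![(-2 : ℝ), 6] ![3, 7] ![29 / 5] (x + ε * Complex.I)).im)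
      (𝓝[>] 0) (𝓝 (|x - 29 / 5| / Real.sqrt (DD x))) := by
  have h0 : Tendsto (fun ε : ℝ => -((x : ℂ) + ε * Complex.I - ((29 / 5 : ℝ) : ℂ))) (𝓝[>] 0)
      (𝓝 (-((x - 29 / 5 : ℝ) : ℂ))) := by
    have : Continuous fun ε : ℝ => -((x : ℂ) + ε * Complex.I - ((29 / 5 : ℝ) : ℂ)) := by fun_prop
    have := (this.tendsto 0).mono_left (nhdsWithin_le_nhds (s := Ioi 0))
    simpa using this
  have hx' : x ∈ Ioo (-2 : ℝ) 3 ∨ x ∈ Ioo (6 : ℝ) 7 := by
    rcases hx with h | h | h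
    · exact Or.inl ⟨h.1, by linarith [h.2]⟩
    · exact Or.inl ⟨by linarith [h.1], h.2⟩
    · exact Or.inr h
  have hG : ∀ z : ℂ, greenG ![(-2 : ℝ), 6] ![3, 7] ![29 / 5] z = -(z - ((29 / 5 : ℝ) : ℂ)) /
      ((z - ((-2 : ℝ) : ℂ)) ^ (1 / 2 : ℂ) * (z - ((3 : ℝ) : ℂ)) ^ (1 / 2 : ℂ) *
        ((z - ((6 : ℝ) : ℂ)) ^ (1 / 2 : ℂ) * (z - ((7 : ℝ) : ℂ)) ^ (1 / 2 : ℂ))) := by
    intro z
    rw [greenG, Fin.prod_univ_one]
    congr 1
    exact Fin.prod_univ_two _
  simp only [hG]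
  rcases hx' with h | h
  · have a1 := Real.sqrt_pos.2 (sub_pos.2 h.1)
    have a2 := Real.sqrt_pos.2 (sub_pos.2 h.2)
    have a3 := Real.sqrt_pos.2 (show 0 < 6 - x by linarith [h.2])
    have a4 := Real.sqrt_pos.2 (show 0 < 7 - x by linarith [h.2])
    have h1 := h0.div (((lim_cpow_pos h.1).mul (lim_cpow_neg h.2)).mul
      ((lim_cpow_neg (show x < 6 by linarith [h.2])).mul
        (lim_cpow_neg (show x < 7 by linarith [h.2])))) (by
          simp only [ne_eq, mul_eq_zero, Complex.ofReal_eq_zero, a1.ne', a2.ne', a3.ne', a4.ne',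
            Complex.I_ne_zero, or_self, not_false_eq_true])
    have h2 := (Complex.continuous_im.tendsto _).comp h1
    refine Tendsto.congr (fun _ => rfl) (h2.mono_right (le_of_eq ?_))
    congr 1
    symm
    have e : Real.sqrt (DD x) = Real.sqrt (x - -2) * Real.sqrt (3 - x) * Real.sqrt (6 - x) *
        Real.sqrt (7 - x) := by
      rw [← Real.sqrt_mul (by linarith [h.1]),
        ← Real.sqrt_mul (mul_nonneg (by linarith [h.1]) (by linarith [h.2])),
        ← Real.sqrt_mul (mul_nonneg (mul_nonneg (by linarith [h.1]) (by linarith [h.2]))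
          (by linarith [h.2])), DD, sub_neg_eq_add]
    rw [e, abs_of_neg (by linarith [h.2])]
    set s1 := Real.sqrt (x - -2)
    set s2 := Real.sqrt (3 - x)
    set s3 := Real.sqrt (6 - x)
    set s4 := Real.sqrt (7 - x)
    have : -((x - 29 / 5 : ℝ) : ℂ) / ((s1 : ℂ) * (s2 * Complex.I) * (s3 * Complex.I * (s4 * Complex.I))) =
        ((-(x - 29 / 5) / (s1 * s2 * s3 * s4) : ℝ) : ℂ) * Complex.I := by
      have b1 : (s1 : ℂ) ≠ 0 := by exact_mod_cast a1.ne'
      have b2 : (s2 : ℂ) ≠ 0 := by exact_mod_cast a2.ne'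
      have b3 : (s3 : ℂ) ≠ 0 := by exact_mod_cast a3.ne'
      have b4 : (s4 : ℂ) ≠ 0 := by exact_mod_cast a4.ne'
      push_cast
      field_simp
      rw [Complex.I_pow_four]
      ring
    rw [this, Complex.mul_I_im, Complex.ofReal_re]
  · have a1 := Real.sqrt_pos.2 (show 0 < x - -2 by linarith [h.1])
    have a2 := Real.sqrt_pos.2 (show 0 < x - 3 by linarith [h.1])
    have a3 := Real.sqrt_pos.2 (show 0 < x - 6 by linarith [h.1])
    have a4 := Real.sqrt_pos.2 (show 0 < 7 - x by linarith [h.2])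
    have h1 := h0.div (((lim_cpow_pos (show -2 < x by linarith [h.1])).mul
      (lim_cpow_pos (show 3 < x by linarith [h.1]))).mul
      ((lim_cpow_pos h.1).mul (lim_cpow_neg h.2))) (by
          simp only [ne_eq, mul_eq_zero, Complex.ofReal_eq_zero, a1.ne', a2.ne', a3.ne', a4.ne',
            Complex.I_ne_zero, or_self, not_false_eq_true])
    have h2 := (Complex.continuous_im.tendsto _).comp h1
    refine Tendsto.congr (fun _ => rfl) (h2.mono_right (le_of_eq ?_))
    congr 1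
    symm
    have e : Real.sqrt (DD x) = Real.sqrt (x - -2) * Real.sqrt (x - 3) * Real.sqrt (x - 6) *
        Real.sqrt (7 - x) := by
      rw [← Real.sqrt_mul (by linarith [h.1]),
        ← Real.sqrt_mul (mul_nonneg (by linarith [h.1]) (by linarith [h.1])),
        ← Real.sqrt_mul (mul_nonneg (mul_nonneg (by linarith [h.1]) (by linarith [h.1]))
          (by linarith [h.1])), DD]
      congr 1
      ring
    rw [e, abs_of_pos (by linarith [h.1])]
    set s1 := Real.sqrt (x - -2)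
    set s2 := Real.sqrt (x - 3)
    set s3 := Real.sqrt (x - 6)
    set s4 := Real.sqrt (7 - x)
    have : -((x - 29 / 5 : ℝ) : ℂ) / ((s1 : ℂ) * s2 * (s3 * (s4 * Complex.I))) =
        (((x - 29 / 5) / (s1 * s2 * s3 * s4) : ℝ) : ℂ) * Complex.I := by
      have b1 : (s1 : ℂ) ≠ 0 := by exact_mod_cast a1.ne'
      have b2 : (s2 : ℂ) ≠ 0 := by exact_mod_cast a2.ne'
      have b3 : (s3 : ℂ) ≠ 0 := by exact_mod_cast a3.ne'
      have b4 : (s4 : ℂ) ≠ 0 := by exact_mod_cast a4.ne'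
      push_cast
      field_simp
      rw [Complex.I_sq]
      ring
    rw [this, Complex.mul_I_im, Complex.ofReal_re]

/-- relative density -/
noncomputable def ff (x : ℝ) : ENNReal := ENNReal.ofReal (|x - 29 / 5| / |x - 14 / 3|)

theorem meas_ff : Measurable ff := by unfold ff; fun_prop

theorem mu_eq : reflMeasure ![(-2 : ℝ), 6] ![3, 7] ![29 / 5] = nu.withDensity ff := by
  have hK : volume.restrict (gapSet ![(-2 : ℝ), 6] ![3, 7]) =
      volume.restrict (Ioo (-2 : ℝ) 0) + volume.restrict (Ioo (0 : ℝ) 3) +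
        volume.restrict (Ioo (6 : ℝ) 7) := by
    rw [gap_eq, Measure.restrict_union _ measurableSet_Icc,
      Measure.restrict_congr_set (Ioo_ae_eq_Ioc (a := (-2 : ℝ)) (b := 0)),
      Measure.restrict_congr_set (Ioo_ae_eq_Ioc (a := (0 : ℝ)) (b := 3)),
      Measure.restrict_congr_set (Ioo_ae_eq_Icc (a := (6 : ℝ)) (b := 7)),
      ← Measure.restrict_union (Ioc_disjoint_Ioc_of_le le_rfl) measurableSet_Ioc,
      Ioc_union_Ioc_eq_Ioc (by norm_num) (by norm_num),
      Measure.restrict_congr_set (Ioc_ae_eq_Icc (a := (-2 : ℝ)) (b := 3))]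
    rw [Set.disjoint_left]
    intro x h1 h2
    linarith [h1.2, h2.1]
  have hg : Measurable fun x : ℝ => ENNReal.ofReal |3 * x ^ 2 - 14 * x| * wd (qq x) :=
    Measurable.mul (by fun_prop) (meas_wd.comp cont_qq.measurable)
  have key : ∀ s : Set ℝ, MeasurableSet s →
      (∀ x ∈ s, x ∈ Ioo (-2 : ℝ) 0 ∨ x ∈ Ioo (0 : ℝ) 3 ∨ x ∈ Ioo (6 : ℝ) 7) →
      (volume.restrict s).withDensity (fun x : ℝ => ENNReal.ofReal
        (limUnder (𝓝[>] (0 : ℝ)) (fun ε : ℝ =>
          (greenG ![(-2 : ℝ), 6] ![3, 7] ![29 / 5] (x + ε * Complex.I)).im) / Real.pi)) =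
      (3⁻¹ : ENNReal) • (nuB s).withDensity ff := by
    intro s hs hsub
    rw [nuB, ← withDensity_mul _ hg meas_ff, ← withDensity_smul _ (hg.mul meas_ff)]
    refine withDensity_congr_ae ?_
    filter_upwards [ae_restrict_mem hs] with x hx
    have hx' := hsub x hx
    rw [(lim_G hx').limUnder_eq]
    simp only [Pi.smul_apply, Pi.mul_apply, smul_eq_mul, wd, ff]
    have hD : 0 < DD x := by
      unfold DD
      rcases hx' with h | h | h
      · exact mul_pos (mul_pos (mul_pos (by linarith [h.1]) (by linarith [h.2])) (by linarith [h.2]))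
          (by linarith [h.2])
      · exact mul_pos (mul_pos (mul_pos (by linarith [h.1]) (by linarith [h.2])) (by linarith [h.2]))
          (by linarith [h.2])
      · exact mul_pos (mul_pos_of_neg_of_neg (mul_neg_of_pos_of_neg (by linarith [h.1])
          (by linarith [h.1])) (by linarith [h.1])) (by linarith [h.2])
    have hx0 : x ≠ 0 := by
      rcases hx' with h | h | h
      · exact h.2.ne
      · exact h.1.ne'
      · exact (show (0 : ℝ) < x by linarith [h.1]).ne'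
    have hxc : x - 14 / 3 ≠ 0 := by
      rcases hx' with h | h | h
      · exact (show x - 14 / 3 < 0 by linarith [h.2]).ne
      · exact (show x - 14 / 3 < 0 by linarith [h.2]).ne
      · exact (show 0 < x - 14 / 3 by linarith [h.1]).ne'
    have e1 : Real.sqrt (324 - qq x ^ 2) = |x| * Real.sqrt (DD x) := by
      rw [← Real.sqrt_sq_eq_abs, ← Real.sqrt_mul (sq_nonneg _)]
      congr 1
      unfold qq DD
      ring
    have e2 : |3 * x ^ 2 - 14 * x| = 3 * |x| * |x - 14 / 3| := by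
      rw [← abs_of_pos (show (0 : ℝ) < 3 by norm_num), ← abs_mul, ← abs_mul]
      congr 1
      rw [abs_of_pos (show (0 : ℝ) < 3 by norm_num)]
      ring
    have hpi := Real.pi_pos
    have b1 := abs_pos.2 hx0
    have b2 := abs_pos.2 hxc
    have b3 := Real.sqrt_pos.2 hD
    rw [e1, e2, ← ENNReal.ofReal_ofNat, ← ENNReal.ofReal_inv_of_pos (by norm_num),
      ← ENNReal.ofReal_mul (by positivity), ← ENNReal.ofReal_mul (by positivity),
      ← ENNReal.ofReal_mul (by positivity)]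
    congr 1
    generalize |x - 14 / 3| = u at b2
    generalize |x - 29 / 5| = v
    field_simp
  rw [reflMeasure, hK, withDensity_add_measure, withDensity_add_measure,
    key _ measurableSet_Ioo (fun x hx => Or.inl hx),
    key _ measurableSet_Ioo (fun x hx => Or.inr (Or.inl hx)),
    key _ measurableSet_Ioo (fun x hx => Or.inr (Or.inr hx)), nu, withDensity_smul_measure,
    withDensity_add_measure, withDensity_add_measure, smul_add, smul_add]

theorem div_diff {a b c : ℝ} (hab : a < b) (hbc : b < c) (n4 n3 n2 n1 : ℝ) :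
    (n4 * a ^ 4 + n3 * a ^ 3 + n2 * a ^ 2 + n1 * a) / ((a - b) * (a - c)) +
    (n4 * b ^ 4 + n3 * b ^ 3 + n2 * b ^ 2 + n1 * b) / ((b - a) * (b - c)) +
    (n4 * c ^ 4 + n3 * c ^ 3 + n2 * c ^ 2 + n1 * c) / ((c - a) * (c - b)) =
    n4 * ((a + b + c) ^ 2 - (a * b + a * c + b * c)) + n3 * (a + b + c) + n2 := by
  have h1 := sub_ne_zero.2 hab.ne
  have h2 := sub_ne_zero.2 hbc.ne
  have h3 := sub_ne_zero.2 (hab.trans hbc).ne
  have h4 := sub_ne_zero.2 hab.ne'
  have h5 := sub_ne_zero.2 hbc.ne'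
  have h6 := sub_ne_zero.2 (hab.trans hbc).ne'
  field_simp
  ring

theorem moment (p2 p1 p0 : ℝ) :
    Integrable (fun x => (ff x).toReal • (p2 * x ^ 2 + p1 * x + p0)) nu ∧
    ∫ x, (ff x).toReal • (p2 * x ^ 2 + p1 * x + p0) ∂nu =
      p2 * (49 - 7 * (29 / 5)) + p1 * (7 - 29 / 5) + p0 := by
  have hm : Measurable fun x => (ff x).toReal • (p2 * x ^ 2 + p1 * x + p0) :=
    (meas_ff.ennreal_toReal).smul (by fun_prop)
  have hv : ∀ x : ℝ, x ∈ Icc (-2 : ℝ) 3 ∪ Icc (6 : ℝ) 7 →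
      (ff x).toReal • (p2 * x ^ 2 + p1 * x + p0) =
        (x - 29 / 5) / (x - 14 / 3) * (p2 * x ^ 2 + p1 * x + p0) := by
    intro x hx
    rw [ff, ENNReal.toReal_ofReal (by positivity), smul_eq_mul]
    rcases hx with h | h
    · rw [abs_of_neg (by linarith [h.2]), abs_of_neg (by linarith [h.2]), neg_div_neg_eq]
    · rw [abs_of_pos (by linarith [h.1]), abs_of_pos (by linarith [h.1])]
  have hc : ContinuousOn (fun x : ℝ => (x - 29 / 5) / (x - 14 / 3) * (p2 * x ^ 2 + p1 * x + p0))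
      (Icc (-2 : ℝ) 3 ∪ Icc (6 : ℝ) 7) := by
    refine ContinuousOn.mul (ContinuousOn.div (by fun_prop) (by fun_prop) ?_) (by fun_prop)
    rintro x (h | h)
    · exact (show x - 14 / 3 < 0 by linarith [h.2]).ne
    · exact (show 0 < x - 14 / 3 by linarith [h.1]).ne'
  obtain ⟨C, hC⟩ := (isCompact_Icc.union isCompact_Icc : IsCompact
    (Icc (-2 : ℝ) 3 ∪ Icc (6 : ℝ) 7)).exists_bound_of_continuousOn hc
  have hK : ∀ᵐ t ∂Om, x1 t ∈ Icc (-2 : ℝ) 3 ∪ Icc (6 : ℝ) 7 ∧
      x2 t ∈ Icc (-2 : ℝ) 3 ∪ Icc (6 : ℝ) 7 ∧ x3 t ∈ Icc (-2 : ℝ) 3 ∪ Icc (6 : ℝ) 7 := by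
    filter_upwards [ae_Om] with t ht
    obtain ⟨a, b, c, -⟩ := roots ht
    exact ⟨Or.inl ⟨a.1.le, by linarith [a.2]⟩, Or.inl ⟨by linarith [b.1], b.2.le⟩,
      Or.inr ⟨c.1.le, c.2.le⟩⟩
  have h0 := int_nu _ hm
    (Integrable.of_bound (C := C) (hm.comp m1).aestronglyMeasurable (by
      filter_upwards [hK] with t ht
      rw [hv _ ht.1]; exact hC _ ht.1))
    (Integrable.of_bound (C := C) (hm.comp m2).aestronglyMeasurable (by
      filter_upwards [hK] with t ht
      rw [hv _ ht.2.1]; exact hC _ ht.2.1))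
    (Integrable.of_bound (C := C) (hm.comp m3).aestronglyMeasurable (by
      filter_upwards [hK] with t ht
      rw [hv _ ht.2.2]; exact hC _ ht.2.2))
  refine ⟨h0.1, ?_⟩
  rw [h0.2, integral_congr_ae
    (g := fun _ => 3 * (p2 * (49 - 7 * (29 / 5)) + p1 * (7 - 29 / 5) + p0))]
  · simp
  · filter_upwards [hK, ae_Om] with t ht ht'
    obtain ⟨a, b, c, -, e1, e2⟩ := roots ht'
    rw [hv _ ht.1, hv _ ht.2.1, hv _ ht.2.2]
    have hd := div_diff (a.2.trans b.1) (show x2 t < x3 t by linarith [b.2, c.1]) p2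
      (p1 - 29 / 5 * p2) (p0 - 29 / 5 * p1) (-(29 / 5) * p0)
    rw [e1, e2] at hd
    have tr : ∀ u v w : ℝ, u ≠ 0 → u - 14 / 3 ≠ 0 → u + v + w = 7 → u * v + u * w + v * w = 0 →
        (u - 29 / 5) / (u - 14 / 3) * (p2 * u ^ 2 + p1 * u + p0) =
        3 * ((p2 * u ^ 4 + (p1 - 29 / 5 * p2) * u ^ 3 + (p0 - 29 / 5 * p1) * u ^ 2 +
          -(29 / 5) * p0 * u) / ((u - v) * (u - w))) := by
      intro u v w hu hu' f1 f2
      have : (u - v) * (u - w) = 3 * u * (u - 14 / 3) := by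
        linear_combination (-2 * u) * f1 + f2
      rw [this]
      field_simp
      ring
    rw [tr (x1 t) (x2 t) (x3 t) a.2.ne (show x1 t - 14 / 3 < 0 by linarith [a.2]).ne e1 e2,
      tr (x2 t) (x1 t) (x3 t) b.1.ne' (show x2 t - 14 / 3 < 0 by linarith [b.2]).ne
        (by linarith) (by linarith),
      tr (x3 t) (x1 t) (x2 t) (show 0 < x3 t by linarith [c.1]).ne'
        (show 0 < x3 t - 14 / 3 by linarith [c.1]).ne' (by linarith) (by linarith)]
    linarith

theorem ff_lt_top : ∀ᵐ x ∂nu, ff x < ⊤ := Eventually.of_forall fun _ => ENNReal.ofReal_lt_top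

theorem mu_prob : IsProbabilityMeasure (nu.withDensity ff) := by
  have h := moment 0 0 1
  simp only [zero_mul, zero_add, smul_eq_mul, mul_one] at h
  constructor
  rw [withDensity_apply _ MeasurableSet.univ, Measure.restrict_univ]
  have h2 := ofReal_integral_eq_lintegral_ofReal h.1 (Eventually.of_forall fun _ => by positivity)
  rw [h.2, ENNReal.ofReal_one] at h2
  rw [h2]
  refine lintegral_congr fun x => ?_
  exact (ENNReal.ofReal_toReal ENNReal.ofReal_ne_top).symm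

theorem exists_a (σ : ℝ) (h : 2 ≤ σ) : ∃ a : ℝ, 1 ≤ a ∧ a + a⁻¹ = σ := by
  have h1 : 0 ≤ σ ^ 2 - 4 := by nlinarith
  have h2 := Real.sqrt_nonneg (σ ^ 2 - 4)
  have h3 := Real.sq_sqrt h1
  refine ⟨(σ + Real.sqrt (σ ^ 2 - 4)) / 2, by linarith, ?_⟩
  have : ((σ + Real.sqrt (σ ^ 2 - 4)) / 2)⁻¹ = (σ - Real.sqrt (σ ^ 2 - 4)) / 2 := by
    apply inv_eq_of_mul_eq_one_right
    nlinarith
  rw [this]
  ring

theorem pot_out (y a : ℝ) (ha : 1 ≤ a) (h : qq y = -9 * (a + a⁻¹)) :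
    Integrable (fun x : ℝ => Real.log |x - y|) nu ∧
      ∫ x, Real.log |x - y| ∂nu = 1 / 3 * (Real.log 9 + Real.log a) := by
  obtain ⟨h1, h2⟩ := Om_log_out a ha
  rw [← h] at h1 h2
  rw [← h2]
  exact pot y h1

theorem main :
    IsEquilibrium (gapSet ![(-2 : ℝ), 6] ![3, 7]) nu ∧
    IsProbabilityMeasure (reflMeasure ![(-2 : ℝ), 6] ![3, 7] ![29 / 5]) ∧
    Integrable (fun x =>
      Real.log ((reflMeasure ![(-2 : ℝ), 6] ![3, 7] ![29 / 5]).rnDeriv nu x).toReal) nu ∧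
    widomL2 (reflMeasure ![(-2 : ℝ), 6] ![3, 7] ![29 / 5]) nu 1 ^ 2 <
      2 * szego (reflMeasure ![(-2 : ℝ), 6] ![3, 7] ![29 / 5]) nu := by
  rw [mu_eq]
  obtain ⟨a, ha1, ha2⟩ := exists_a (932 / 375) (by norm_num)
  obtain ⟨b, hb1, hb2⟩ := exists_a (886 / 243) (by norm_num)
  obtain ⟨i1, e1⟩ := pot_out (29 / 5) a ha1 (by rw [ha2]; norm_num [qq])
  obtain ⟨i2, e2⟩ := pot_out (14 / 3) b hb1 (by rw [hb2]; norm_num [qq])
  have hae : (fun x => Real.log |x - 29 / 5| - Real.log |x - 14 / 3|) =ᵐ[nu]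
      fun x => Real.log ((nu.withDensity ff).rnDeriv nu x).toReal := by
    filter_upwards [Measure.rnDeriv_withDensity nu meas_ff, Measure.ae_ne nu (29 / 5),
      Measure.ae_ne nu (14 / 3)] with x h1 h2 h3
    rw [h1, ff, ENNReal.toReal_ofReal (by positivity),
      Real.log_div (abs_ne_zero.2 (sub_ne_zero.2 h2)) (abs_ne_zero.2 (sub_ne_zero.2 h3))]
  refine ⟨isEq_nu, mu_prob, (i1.sub i2).congr hae, ?_⟩
  have hS : szego (nu.withDensity ff) nu ^ 3 = a / b := by
    rw [szego, ← integral_congr_ae hae, integral_sub i1 i2, e1, e2, ← Real.exp_nat_mul]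
    rw [← Real.exp_log (show 0 < a / b by positivity), Real.log_div (by positivity) (by positivity)]
    congr 1
    push_cast
    ring
  have hA : Real.exp (logInt nu) ^ 3 = 9 := by
    rw [logInt_nu, ← Real.exp_nat_mul, ← Real.exp_log (show (0 : ℝ) < 9 by norm_num)]
    congr 1
    rw [Real.exp_log (by norm_num)]
    push_cast
    ring
  have hinf : (⨅ P : {P : Polynomial ℝ // P.Monic ∧ P.natDegree = 1},
      Real.sqrt (∫ x, (P.1.eval x) ^ 2 ∂(nu.withDensity ff))) ≤ Real.sqrt (174 / 25) := by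
    refine ciInf_le_of_le ⟨0, by rintro _ ⟨P, rfl⟩; exact Real.sqrt_nonneg _⟩
      ⟨Polynomial.X - Polynomial.C (6 / 5), Polynomial.monic_X_sub_C _,
        Polynomial.natDegree_X_sub_C _⟩ (le_of_eq ?_)
    congr 1
    rw [integral_withDensity_eq_integral_toReal_smul meas_ff ff_lt_top]
    have h := (moment 1 (-12 / 5) (36 / 25)).2
    rw [show (174 / 25 : ℝ) = 1 * (49 - 7 * (29 / 5)) + -12 / 5 * (7 - 29 / 5) + 36 / 25 by norm_num,
      ← h]
    congr 1
    funext x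
    congr 1
    simp only [Polynomial.eval_sub, Polynomial.eval_X, Polynomial.eval_C]
    ring
  have hinf0 : 0 ≤ (⨅ P : {P : Polynomial ℝ // P.Monic ∧ P.natDegree = 1},
      Real.sqrt (∫ x, (P.1.eval x) ^ 2 ∂(nu.withDensity ff))) :=
    Real.iInf_nonneg fun _ => Real.sqrt_nonneg _
  have hA0 := Real.exp_pos (logInt nu)
  have hW : widomL2 (nu.withDensity ff) nu 1 ^ 2 ≤ 174 / 25 / Real.exp (logInt nu) ^ 2 := by
    rw [widomL2, pow_one, div_pow]
    gcongr
    calc _ ≤ Real.sqrt (174 / 25) ^ 2 := by gcongr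
      _ = 174 / 25 := Real.sq_sqrt (by norm_num)
  refine lt_of_le_of_lt hW ?_
  have hS0 : 0 < szego (nu.withDensity ff) nu := Real.exp_pos _
  refine lt_of_pow_lt_pow_left₀ 3 (by positivity) ?_
  rw [mul_pow, hS, div_pow, ← pow_mul, mul_comm 2 3, pow_mul, hA]
  have ha3 : a * a - 932 / 375 * a + 1 = 0 := by
    rw [← ha2]; field_simp; ring
  have hb3 : b * b - 886 / 243 * b + 1 = 0 := by
    rw [← hb2]; field_simp; ring
  have ha4 : 197 / 100 ≤ a := by
    by_contra h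
    push Not at h
    nlinarith
  have hb4 : b ≤ 335 / 100 := by
    by_contra h
    push Not at h
    nlinarith
  have : 197 / 335 ≤ a / b := by
    rw [le_div_iff₀ (by linarith)]
    linarith
  norm_num
  linarith

end Pool.Agent.H281Z.Ref
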