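import Mathlib

set_option autoImplicit false

namespace Pool.Agent.H281Z.Tate

open Module

/-- Deformation lemma. -/
theorem deform {k T U : Type*} [Field k] [AddCommGroup T] [Module k T] [AddCommGroup U]
    [Module k U] [FiniteDimensional k T] [FiniteDimensional k U]
    (d σ : T →ₗ[k] T) (c : ℕ → U →ₗ[k] T) (N : ℕ)
    (h0 : ∀ u, σ (c 0 u) = 0) (hs : ∀ p u, d (c p u) = σ (c (p + 1) u))
    (hN : ∀ p, N < p → c p = 0) (hinj : ∀ u, c 0 u = 0 → u = 0) :
    finrank k U ≤ finrank k (LinearMap.ker d) := by
  obtain ⟨W, hW⟩ := (LinearMap.ker d).exists_isCompl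
  let π : T →ₗ[k] LinearMap.ker d := (LinearMap.ker d).projectionOnto W hW
  have hπ : ∀ z : T, d z = 0 → π z = 0 → z = 0 := by
    intro z hz h
    have : π ((⟨z, hz⟩ : LinearMap.ker d) : T) = ⟨z, hz⟩ :=
      Submodule.projectionOnto_apply_left hW _
    have h2 : (⟨z, hz⟩ : LinearMap.ker d) = 0 := by rw [← this]; exact h
    exact congrArg Subtype.val h2
  have key : ∀ M : ℕ, M * finrank k U ≤ (M + N) * finrank k (LinearMap.ker d) := by
    intro M
    let Z : ℕ → (Fin M → U) →ₗ[k] T := fun q =>
      ∑ j : Fin M, if (j : ℕ) ≤ q then (c (q - j)) ∘ₗ LinearMap.proj j else 0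
    have hZ : ∀ q a, Z q a = ∑ j : Fin M, if (j : ℕ) ≤ q then c (q - j) (a j) else 0 := by
      intro q a
      simp only [Z, LinearMap.sum_apply]
      refine Finset.sum_congr rfl fun j _ => ?_
      split_ifs <;> simp
    let Φ : (Fin M → U) →ₗ[k] (Fin (M + N) → LinearMap.ker d) :=
      LinearMap.pi fun q => π ∘ₗ Z q
    have hΦ : Function.Injective Φ := by
      rw [injective_iff_map_eq_zero]
      intro a ha
      have h1 : ∀ q, d (Z q a) = σ (Z (q + 1) a) := by
        intro q
        rw [hZ, hZ, map_sum, map_sum]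
        refine Finset.sum_congr rfl fun j _ => ?_
        by_cases hj : (j : ℕ) ≤ q
        · rw [if_pos hj, if_pos (by omega), hs]
          congr 3
          omega
        · rw [if_neg hj]
          by_cases hj2 : (j : ℕ) ≤ q + 1
          · rw [if_pos hj2]
            have : q + 1 - j = 0 := by omega
            rw [this, h0, map_zero]
          · rw [if_neg hj2]; simp
      have h2 : ∀ q, M + N ≤ q → Z q a = 0 := by
        intro q hq
        rw [hZ]
        refine Finset.sum_eq_zero fun j _ => ?_
        have := j.2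
        rw [if_pos (by omega), hN _ (by omega)]
        simp
      have h3 : ∀ r q, M + N ≤ q + r → Z q a = 0 := by
        intro r
        induction r with
        | zero => intro q hq; exact h2 q (by simpa using hq)
        | succ r ih =>
          intro q hq
          by_cases hq2 : M + N ≤ q
          · exact h2 q hq2
          · apply hπ
            · rw [h1, ih (q + 1) (by omega), map_zero]
            · have := congrFun ha ⟨q, by omega⟩
              simpa [Φ] using this
      have h4 : ∀ q, ∀ j : Fin M, (j : ℕ) < q → a j = 0 := by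
        intro q
        induction q with
        | zero => intro j hj; omega
        | succ q ih =>
          intro j hj
          by_cases hjq : (j : ℕ) < q
          · exact ih j hjq
          · have hq : (j : ℕ) = q := by omega
            have h5 := h3 (M + N) q (by omega)
            rw [hZ, Finset.sum_eq_single j] at h5
            · rw [if_pos (by omega)] at h5
              have : q - j = 0 := by omega
              rw [this] at h5
              exact hinj _ h5
            · intro i _ hi
              split_ifs with h6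
              · have : (i : ℕ) < q := by
                  have : (i : ℕ) ≠ j := fun h => hi (Fin.ext h)
                  omega
                rw [ih i this, map_zero]
              · rfl
            · simp
      funext j
      exact h4 M j j.2
    have := LinearMap.finrank_le_finrank_of_injective hΦ
    simpa [Module.finrank_pi_fintype] using this
  by_contra hlt
  push Not at hlt
  have h := key (N * finrank k (LinearMap.ker d) + 1)
  set κ := finrank k (LinearMap.ker d)
  have h2 : (N * κ + 1) * (κ + 1) ≤ (N * κ + 1) * finrank k U := Nat.mul_le_mul_left _ hlt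
  nlinarith

section tree

variable {R P T : Type*} [CommRing R] [AddCommGroup P] [Module R P] [AddCommGroup T] [Module R T]

/-- left subtree -/
def s0 : (List Bool → P) →ₗ[R] (List Bool → P) := LinearMap.funLeft R P (List.cons false)
/-- right subtree -/
def s1 : (List Bool → P) →ₗ[R] (List Bool → P) := LinearMap.funLeft R P (List.cons true)

/-- join of two trees -/
def jn (u v : List Bool → P) : List Bool → P
  | [] => 0
  | false :: l => u l
  | true :: l => v l

@[simp] theorem s0_jn (u v : List Bool → P) : (s0 (R := R)) (jn u v) = u := rfl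
@[simp] theorem s1_jn (u v : List Bool → P) : (s1 (R := R)) (jn u v) = v := rfl

/-- join as a linear map -/
def jnL : ((List Bool → P) × (List Bool → P)) →ₗ[R] (List Bool → P) where
  toFun w := jn w.1 w.2
  map_add' a b := by
    funext l
    rcases l with _ | ⟨_ | _, l⟩ <;> simp [jn]
  map_smul' r a := by
    funext l
    rcases l with _ | ⟨_ | _, l⟩ <;> simp [jn]

/-- the total differential on trees -/
def DD (D : P →ₗ[R] P) : List R → (List Bool → P) →ₗ[R] (List Bool → P)
  | [] => D.compLeft (List Bool)
  | x :: L => jnL ∘ₗ LinearMap.prod (DD D L ∘ₗ s0 + x • s1) (DD D L ∘ₗ s1)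

@[simp] theorem s0_DD (D : P →ₗ[R] P) (x : R) (L : List R) (u : List Bool → P) :
    (s0 (R := R)) (DD D (x :: L) u) = DD D L (s0 (R := R) u) + x • s1 (R := R) u := rfl

@[simp] theorem s1_DD (D : P →ₗ[R] P) (x : R) (L : List R) (u : List Bool → P) :
    (s1 (R := R)) (DD D (x :: L) u) = DD D L (s1 (R := R) u) := rfl

theorem DD_nil (D : P →ₗ[R] P) (u : List Bool → P) : DD D [] u [] = D (u []) := rfl

/-- null trees -/
def Null : List R → R → (List Bool → P) → Prop
  | [], a, w => a • w [] = 0
  | x :: L, a, w => Null L a (s0 (R := R) w) ∧ Null L (a * x) (s1 (R := R) w)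

theorem Null.add : ∀ (L : List R) (a : R) (u v : List Bool → P),
    Null L a u → Null L a v → Null L a (u + v)
  | [], a, u, v, hu, hv => by
      simp only [Null] at *
      simp [smul_add, hu, hv]
  | x :: L, a, u, v, hu, hv => by
      simp only [Null, map_add] at *
      exact ⟨Null.add L _ _ _ hu.1 hv.1, Null.add L _ _ _ hu.2 hv.2⟩

theorem null_smul : ∀ (L : List R) (a b : R) (u : List Bool → P),
    Null L a (b • u) ↔ Null L (a * b) u
  | [], a, b, u => by
      simp only [Null]
      simp [mul_smul]
  | x :: L, a, b, u => by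
      simp only [Null, map_smul]
      rw [null_smul L, null_smul L, mul_right_comm]

theorem null_zero : ∀ (L : List R) (a : R), Null L a (0 : List Bool → P)
  | [], a => by simp [Null]
  | x :: L, a => by
      simp only [Null, map_zero]
      exact ⟨null_zero L _, null_zero L _⟩

theorem Null.DD (D : P →ₗ[R] P) : ∀ (L : List R) (a : R) (u : List Bool → P),
    Null L a u → Null L a (DD D L u)
  | [], a, u, hu => by
      simp only [Null] at *
      rw [DD_nil, ← map_smul, hu, map_zero]
  | x :: L, a, u, hu => by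
      simp only [Null, s0_DD, s1_DD] at *
      exact ⟨Null.add L _ _ _ (Null.DD D L _ _ hu.1) ((null_smul L _ _ _).2 hu.2),
        Null.DD D L _ _ hu.2⟩

theorem null_DD_DD (h2 : ∀ p : P, p + p = 0) (D : P →ₗ[R] P) (hD : ∀ p, D (D p) = 0) :
    ∀ (L : List R) (a : R) (u : List Bool → P), Null L a (DD D L (DD D L u))
  | [], a, u => by
      simp only [Null]
      rw [DD_nil, DD_nil, hD, smul_zero]
  | x :: L, a, u => by
      simp only [Null, s0_DD, s1_DD, map_add, map_smul]
      refine ⟨?_, null_DD_DD h2 D hD L _ _⟩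
      have : ∀ w : List Bool → P, w + w = 0 := fun w => funext fun l => h2 _
      rw [add_assoc, this, add_zero]
      exact null_DD_DD h2 D hD L _ _

/-- annihilator property -/
def KK (P : Type*) [AddCommGroup P] [Module R P] (x : R) : List R → R → Prop
  | [], a => ∀ p : P, (a * x) • p = 0 → ∃ q : P, a • (p + x • q) = 0
  | y :: L, a => KK P x L a ∧ KK P x L (a * y)

theorem exists_of_KK (x : R) : ∀ (L : List R) (a : R) (w : List Bool → P),
    KK P x L a → Null L (a * x) w → ∃ v : List Bool → P, Null L a (w + x • v)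
  | [], a, w, hK, hw => by
      obtain ⟨q, hq⟩ := hK _ hw
      exact ⟨fun _ => q, hq⟩
  | y :: L, a, w, hK, hw => by
      obtain ⟨v0, h0⟩ := exists_of_KK x L a _ hK.1 hw.1
      obtain ⟨v1, h1⟩ := exists_of_KK x L (a * y) (s1 (R := R) w) hK.2
        (by rw [mul_right_comm]; exact hw.2)
      refine ⟨jn v0 v1, ?_⟩
      simp only [Null, map_add, map_smul, s0_jn, s1_jn]
      exact ⟨h0, h1⟩

/-- good lists -/
def Good (D : P →ₗ[R] P) : List R → R → Prop
  | [], a => ∀ p, a • D p = 0
  | x :: L, a => KK P x L a ∧ Good D L (a * x)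

/-- root of a tree -/
def root : List R → (List Bool → P) → P
  | [], u => u []
  | _ :: L, u => root L (s0 (R := R) u)

theorem exists_tree (h2 : ∀ p : P, p + p = 0) (D : P →ₗ[R] P) (hD : ∀ p, D (D p) = 0) (e : P) :
    ∀ (L : List R) (a : R), Good D L a →
      ∃ u : List Bool → P, root L u = e ∧ Null L a (DD D L u)
  | [], a, h => ⟨fun _ => e, rfl, h _⟩
  | x :: L, a, h => by
      obtain ⟨u0, hr, h0⟩ := exists_tree h2 D hD e L _ h.2
      obtain ⟨u1, h1⟩ := exists_of_KK x L a _ h.1 h0
      refine ⟨jn u0 u1, hr, ?_⟩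
      simp only [Null, s0_DD, s1_DD, s0_jn, s1_jn]
      refine ⟨h1, ?_⟩
      have h3 := Null.DD D L a _ h1
      have h4 := Null.add L a _ _ (null_DD_DD h2 D hD L a u0) h3
      have : ∀ w : List Bool → P, w + w = 0 := fun w => funext fun l => h2 _
      rw [map_add, map_smul, ← add_assoc, this, zero_add] at h4
      exact (null_smul L _ _ _).1 h4

/-- the cubical higher products -/
def BB (μ : P →ₗ[R] P →ₗ[R] T) (τ : T →ₗ[R] T) :
    List R → ℕ → (List Bool → P) →ₗ[R] (List Bool → P) →ₗ[R] T
  | [], 0 => μ.compl₁₂ (LinearMap.proj []) (LinearMap.proj [])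
  | [], _ + 1 => 0
  | _ :: L, 0 => (BB μ τ L 0).compl₁₂ s0 s0
  | x :: L, p + 1 => (BB μ τ L (p + 1)).compl₁₂ s0 s0 +
      x • (((BB μ τ L p).compl₁₂ s1 s0).flip.compr₂ τ)

variable (μ : P →ₗ[R] P →ₗ[R] T) (τ : T →ₗ[R] T)

theorem BB_nil_zero (u v : List Bool → P) : BB μ τ [] 0 u v = μ (u []) (v []) := rfl
theorem BB_nil_succ (p : ℕ) (u v : List Bool → P) : BB μ τ [] (p + 1) u v = 0 := rfl
theorem BB_cons_zero (x : R) (L : List R) (u v : List Bool → P) :
    BB μ τ (x :: L) 0 u v = BB μ τ L 0 (s0 (R := R) u) (s0 (R := R) v) := rfl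
theorem BB_cons_succ (x : R) (L : List R) (p : ℕ) (u v : List Bool → P) :
    BB μ τ (x :: L) (p + 1) u v = BB μ τ L (p + 1) (s0 (R := R) u) (s0 (R := R) v) +
      x • τ (BB μ τ L p (s1 (R := R) v) (s0 (R := R) u)) := rfl

theorem BB_zero : ∀ (L : List R) (u v : List Bool → P),
    BB μ τ L 0 u v = μ (root L u) (root L v)
  | [], _, _ => rfl
  | x :: L, u, v => by rw [BB_cons_zero, BB_zero L]; rfl

theorem BB_big : ∀ (L : List R) (p : ℕ) (u v : List Bool → P), L.length < p →
    BB μ τ L p u v = 0
  | [], 0, _, _, h => by simp at h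
  | [], _ + 1, _, _, _ => rfl
  | _ :: _, 0, _, _, h => by simp at h
  | x :: L, p + 1, u, v, h => by
      simp only [List.length_cons] at h
      rw [BB_cons_succ, BB_big L _ _ _ (by omega), BB_big L _ _ _ (by omega)]
      simp

theorem BB_null : ∀ (L : List R) (p : ℕ) (a : R) (w v : List Bool → P), Null L a w →
    a • BB μ τ L p w v = 0 ∧ a • BB μ τ L p v w = 0
  | [], 0, a, w, v, h => by
      simp only [Null] at h
      rw [BB_nil_zero, BB_nil_zero]
      constructor
      · rw [← LinearMap.smul_apply, ← map_smul, h]; simp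
      · rw [← map_smul, h]; simp
  | [], _ + 1, _, _, _, _ => by simp [BB_nil_succ]
  | x :: L, 0, a, w, v, h => by
      rw [BB_cons_zero, BB_cons_zero]
      exact BB_null L 0 a _ _ h.1
  | x :: L, p + 1, a, w, v, h => by
      rw [BB_cons_succ, BB_cons_succ, smul_add, smul_add, (BB_null L _ a _ _ h.1).1,
        (BB_null L _ a _ _ h.1).2, zero_add, zero_add]
      constructor
      · rw [smul_comm, ← map_smul, (BB_null L _ a _ _ h.1).2]; simp
      · rw [smul_smul, ← map_smul, (BB_null L _ _ _ _ h.2).1]; simp

theorem BB_identity (h2 : ∀ t : T, t + t = 0) (D : P →ₗ[R] P) (d : T →ₗ[R] T)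
    (hτμ : ∀ p q, τ (μ p q) = μ q p) (hττ : ∀ t, τ (τ t) = t)
    (hd : ∀ p q, d (μ p q) = μ (D p) q + μ p (D q)) (hdτ : ∀ t, d (τ t) = τ (d t)) :
    ∀ (L : List R) (_ : ∀ x ∈ L, x * x = 0) (p : ℕ) (u v : List Bool → P),
      d (BB μ τ L p u v) = BB μ τ L (p + 1) u v + τ (BB μ τ L (p + 1) v u) +
        BB μ τ L p (DD D L u) v + BB μ τ L p u (DD D L v)
  | [], _, 0, u, v => by
      simp only [BB_nil_zero, BB_nil_succ, DD_nil, hd]; simp
  | [], _, p + 1, u, v => by simp [BB_nil_succ]
  | x :: L, hL, 0, u, v => by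
      have ih := BB_identity h2 D d hτμ hττ hd hdτ L (fun y hy => hL y (by simp [hy]))
      have hsw : ∀ a b : List Bool → P, τ (BB μ τ L 0 a b) = BB μ τ L 0 b a := by
        intro a b; rw [BB_zero, BB_zero, hτμ]
      simp only [BB_cons_zero, BB_cons_succ, s0_DD, map_add, map_smul, ih, hsw,
        LinearMap.add_apply, LinearMap.smul_apply]
      have e1 := h2 (x • BB μ τ L 0 (s0 (R := R) u) (s1 (R := R) v))
      have e2 := h2 (x • BB μ τ L 0 (s1 (R := R) u) (s0 (R := R) v))
      linear_combination (norm := abel) -e1 - e2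
  | x :: L, hL, p + 1, u, v => by
      have ih := BB_identity h2 D d hτμ hττ hd hdτ L (fun y hy => hL y (by simp [hy]))
      have hx : x * x = 0 := hL x (by simp)
      simp only [BB_cons_succ, s0_DD, s1_DD, map_add, map_smul, ih, hττ, hdτ,
        LinearMap.add_apply, LinearMap.smul_apply, smul_add, smul_smul, hx, zero_smul]
      have e1 := h2 (x • BB μ τ L (p + 1) (s1 (R := R) u) (s0 (R := R) v))
      linear_combination (norm := abel) -e1

end tree

end Pool.Agent.H281Z.Tate
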