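import Pool.Agent.H281Z.TateA

set_option autoImplicit false

namespace Pool.Agent.H281Z.Tate

open Module Matrix

section general

variable {k R : Type*} [Field k] [CommRing R] [Algebra k R] {n : ℕ}

/-- outer product -/
def mu (R : Type*) [CommRing R] (n : ℕ) :
    (Fin n → R) →ₗ[R] (Fin n → R) →ₗ[R] (Fin n × Fin n → R) :=
  LinearMap.mk₂ R (fun p q => fun ij => p ij.1 * q ij.2)
    (by intros; funext ij; simp [add_mul]) (by intros; funext ij; simp [mul_assoc])
    (by intros; funext ij; simp [mul_add]) (by intros; funext ij; simp [mul_left_comm])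

theorem mu_apply (p q : Fin n → R) (ij : Fin n × Fin n) : mu R n p q ij = p ij.1 * q ij.2 := rfl

/-- swap -/
def tau (R : Type*) [CommRing R] (n : ℕ) : (Fin n × Fin n → R) →ₗ[R] (Fin n × Fin n → R) :=
  LinearMap.funLeft R R Prod.swap

theorem tau_apply (z : Fin n × Fin n → R) (ij : Fin n × Fin n) : tau R n z ij = z ij.swap := rfl

/-- strictly upper part -/
def upper (R : Type*) [CommRing R] (n : ℕ) : (Fin n × Fin n → R) →ₗ[R] (Fin n × Fin n → R) where
  toFun z := fun ij => if ij.1 < ij.2 then z ij else 0
  map_add' a b := by funext ij; by_cases h : ij.1 < ij.2 <;> simp [h]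
  map_smul' a b := by funext ij; by_cases h : ij.1 < ij.2 <;> simp [h]

theorem upper_apply (z : Fin n × Fin n → R) (ij : Fin n × Fin n) :
    upper R n z ij = if ij.1 < ij.2 then z ij else 0 := rfl

theorem dd_apply (D : Matrix (Fin n) (Fin n) R) (z : Fin n × Fin n → R) (ij : Fin n × Fin n) :
    Matrix.mulVecLin (Matrix.kronecker D (1 : Matrix (Fin n) (Fin n) R) +
      Matrix.kronecker (1 : Matrix (Fin n) (Fin n) R) D) z ij =
      ∑ a, D ij.1 a * z (a, ij.2) + ∑ b, D ij.2 b * z (ij.1, b) := by
  simp only [Matrix.mulVecLin_apply, Matrix.mulVec, dotProduct, Matrix.add_apply, add_mul,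
    Finset.sum_add_distrib, Matrix.kronecker, Matrix.kroneckerMap_apply, Fintype.sum_prod_type,
    Matrix.one_apply]
  congr 1
  · refine Finset.sum_congr rfl fun a _ => ?_
    rw [Finset.sum_eq_single ij.2] <;> simp +contextual [eq_comm]
  · rw [Finset.sum_comm]
    refine Finset.sum_congr rfl fun a _ => ?_
    rw [Finset.sum_eq_single ij.1] <;> simp +contextual [eq_comm]

theorem main_general [FiniteDimensional k R] (h2 : ∀ r : R, r + r = 0)
    (D : Matrix (Fin n) (Fin n) R) (hD : D * D = 0) (L : List R) (hL : ∀ x ∈ L, x * x = 0)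
    (hG : Good (Matrix.mulVecLin D) L 1) :
    finrank k R * n + finrank k (LinearMap.range ((Matrix.mulVecLin
      (Matrix.kronecker D (1 : Matrix (Fin n) (Fin n) R) +
        Matrix.kronecker (1 : Matrix (Fin n) (Fin n) R) D)).restrictScalars k)) ≤
    finrank k (LinearMap.ker ((Matrix.mulVecLin
      (Matrix.kronecker D (1 : Matrix (Fin n) (Fin n) R) +
        Matrix.kronecker (1 : Matrix (Fin n) (Fin n) R) D)).restrictScalars k)) := by
  set d := Matrix.mulVecLin (Matrix.kronecker D (1 : Matrix (Fin n) (Fin n) R) +
        Matrix.kronecker (1 : Matrix (Fin n) (Fin n) R) D) with hd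
  have hP : ∀ p : Fin n → R, p + p = 0 := fun p => funext fun i => h2 _
  have hT : ∀ p : Fin n × Fin n → R, p + p = 0 := fun p => funext fun i => h2 _
  have hDD : ∀ p, Matrix.mulVecLin D (Matrix.mulVecLin D p) = 0 := by
    intro p
    simp [Matrix.mulVec_mulVec, hD]
  have hτμ : ∀ p q, tau R n (mu R n p q) = mu R n q p := by
    intro p q; funext ij; simp [tau_apply, mu_apply, mul_comm]
  have hττ : ∀ t, tau R n (tau R n t) = t := by
    intro t; funext ij; simp [tau_apply]
  have hdμ : ∀ p q, d (mu R n p q) =
      mu R n (Matrix.mulVecLin D p) q + mu R n p (Matrix.mulVecLin D q) := by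
    intro p q; funext ij
    rw [hd, dd_apply]
    simp only [mu_apply, Pi.add_apply, Matrix.mulVecLin_apply, Matrix.mulVec, dotProduct,
      Finset.sum_mul, Finset.mul_sum]
    congr 1 <;> refine Finset.sum_congr rfl fun a _ => by ring
  have hdτ : ∀ t, d (tau R n t) = tau R n (d t) := by
    intro t; funext ij
    rw [tau_apply, hd, dd_apply, dd_apply]
    simp [tau_apply, add_comm]
  have hdd : ∀ t, d (d t) = 0 := by
    intro t
    have h1 : (Matrix.kronecker D (1 : Matrix (Fin n) (Fin n) R) +
        Matrix.kronecker (1 : Matrix (Fin n) (Fin n) R) D) *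
        (Matrix.kronecker D (1 : Matrix (Fin n) (Fin n) R) +
        Matrix.kronecker (1 : Matrix (Fin n) (Fin n) R) D) = 0 := by
      simp only [Matrix.kronecker, add_mul, mul_add, ← Matrix.mul_kronecker_mul, hD,
        Matrix.mul_one, Matrix.one_mul, Matrix.zero_kronecker, Matrix.kronecker_zero,
        zero_add, add_zero]
      ext i j
      exact h2 _
    rw [hd, Matrix.mulVecLin_apply, Matrix.mulVecLin_apply, Matrix.mulVec_mulVec, h1,
      Matrix.zero_mulVec]
  choose u hu hu' using fun i : Fin n =>
    exists_tree hP (Matrix.mulVecLin D) hDD (Pi.single i 1) L 1 hG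
  let σ : (Fin n × Fin n → R) →ₗ[R] (Fin n × Fin n → R) := LinearMap.id + tau R n
  have hσ : ∀ z, σ z = z + tau R n z := fun z => rfl
  let b : Fin n → ℕ → (Fin n × Fin n → R) := fun i p => BB (mu R n) (tau R n) L p (u i) (u i)
  have hb : ∀ i p, d (b i p) = σ (b i (p + 1)) := by
    intro i p
    have h := BB_identity (mu R n) (tau R n) hT (Matrix.mulVecLin D) d hτμ hττ hdμ hdτ L hL p
      (u i) (u i)
    have h3 := BB_null (mu R n) (tau R n) L p 1 _ (u i) (hu' i)
    simp only [one_smul] at h3
    rw [h3.1, h3.2, add_zero, add_zero] at h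
    exact h
  have hb0 : ∀ i, b i 0 = mu R n (Pi.single i 1) (Pi.single i 1) := by
    intro i; simp only [b]; rw [BB_zero, hu]
  let e : ℕ → (Fin n × Fin n → R) →ₗ[R] (Fin n × Fin n → R) := fun p =>
    match p with
    | 0 => σ ∘ₗ upper R n
    | 1 => d ∘ₗ upper R n
    | _ + 2 => 0
  let c : ℕ → (Fin n × Fin n → R) →ₗ[R] (Fin n × Fin n → R) := fun p =>
    (∑ i : Fin n, (LinearMap.proj (i, i)).smulRight (b i p)) + e p
  have hc : ∀ p z, c p z = ∑ i : Fin n, z (i, i) • b i p + e p z := by
    intro p z; simp [c, LinearMap.sum_apply]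
  have hσσ : ∀ z, σ (σ z) = 0 := by
    intro z; rw [hσ, hσ, map_add, hττ, add_comm (tau R n z) z]; exact hT _
  have hdσ : ∀ z, d (σ z) = σ (d z) := by
    intro z; rw [hσ, hσ, map_add, hdτ]
  have hA : finrank k (LinearMap.ker (σ.restrictScalars k)) ≤
      finrank k (LinearMap.ker (d.restrictScalars k)) := by
    refine deform (d.restrictScalars k) (σ.restrictScalars k)
      (fun p => ((c p).restrictScalars k) ∘ₗ (LinearMap.ker (σ.restrictScalars k)).subtype)
      (L.length + 1) ?_ ?_ ?_ ?_
    · intro z
      show σ (c 0 z) = 0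
      rw [hc, map_add, map_sum]
      have : σ (e 0 z) = 0 := hσσ _
      rw [this, add_zero]
      refine Finset.sum_eq_zero fun i _ => ?_
      rw [map_smul, hb0, hσ, hτμ, hT, smul_zero]
    · intro p z
      show d (c p z) = σ (c (p + 1) z)
      rw [hc, hc, map_add, map_add, map_sum, map_sum]
      congr 1
      · refine Finset.sum_congr rfl fun i _ => ?_
        rw [map_smul, map_smul, hb]
      · match p with
        | 0 => exact hdσ _
        | 1 => exact (hdd _).trans (map_zero σ).symm
        | _ + 2 => exact (map_zero d).trans (map_zero σ).symm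
    · intro p hp
      ext1 z
      show c p z = 0
      rw [hc]
      obtain ⟨q, rfl⟩ : ∃ q, p = q + 2 := ⟨p - 2, by omega⟩
      have : e (q + 2) z = 0 := rfl
      rw [this, add_zero]
      refine Finset.sum_eq_zero fun i _ => ?_
      simp only [b]
      rw [BB_big _ _ _ _ _ _ (by omega), smul_zero]
    · intro z hz
      have hz1 : c 0 z = 0 := hz
      have hz2 : σ z = 0 := z.2
      apply Subtype.ext
      funext ij
      obtain ⟨i, j⟩ := ij
      have h1 := congrFun hz1 (i, j)
      have h1' := congrFun hz1 (j, i)
      have h3 := congrFun hz2 (i, j)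
      rw [hc] at h1 h1'
      have he : e 0 z = σ (upper R n z) := rfl
      simp only [he, hσ, hb0, Pi.add_apply, Finset.sum_apply, Pi.smul_apply, mu_apply, tau_apply,
        upper_apply, Prod.swap, smul_eq_mul, Pi.single_apply, Pi.zero_apply] at h1 h1' h3
      rcases lt_trichotomy i j with h | h | h
      · rw [Finset.sum_eq_zero, if_pos h, if_neg h.le.not_gt] at h1
        · simpa using h1
        · intro a _
          by_cases ha : i = a
          · subst ha; simp [h.ne']
          · simp [ha]
      · subst h
        rw [Finset.sum_eq_single i] at h1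
        · simpa using h1
        · intro a _ ha; simp [Ne.symm ha]
        · simp
      · rw [Finset.sum_eq_zero, if_pos h, if_neg h.le.not_gt] at h1'
        · simp only [zero_add, add_zero] at h1'
          rw [h1', add_zero] at h3
          simpa using h3
        · intro a _
          by_cases ha : j = a
          · subst ha; simp [h.ne']
          · simp [ha]
  have hB : finrank k (LinearMap.range (σ.restrictScalars k)) + finrank k R * n ≤
      finrank k (LinearMap.ker (σ.restrictScalars k)) := by
    let dg : (Fin n → R) →ₗ[k] (Fin n × Fin n → R) :=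
      { toFun := fun r ij => if ij.1 = ij.2 then r ij.1 else 0
        map_add' := by intro a b; funext ij; by_cases h : ij.1 = ij.2 <;> simp [h]
        map_smul' := by intro a b; funext ij; by_cases h : ij.1 = ij.2 <;> simp [h] }
    have hdg : ∀ r ij, dg r ij = if ij.1 = ij.2 then r ij.1 else 0 := fun _ _ => rfl
    let Ψ : (LinearMap.range (σ.restrictScalars k) × (Fin n → R)) →ₗ[k]
        (LinearMap.ker (σ.restrictScalars k)) :=
      LinearMap.codRestrict _ ((LinearMap.range (σ.restrictScalars k)).subtype.coprod dg) (by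
        rintro ⟨⟨w, z, rfl⟩, r⟩
        show σ (σ z + dg r) = 0
        rw [map_add, hσσ, zero_add, hσ]
        funext ij
        simp only [Pi.add_apply, tau_apply, hdg, Prod.fst_swap, Prod.snd_swap, Pi.zero_apply]
        by_cases h : ij.1 = ij.2
        · rw [if_pos h, if_pos h.symm, h]; exact h2 _
        · rw [if_neg h, if_neg (Ne.symm h), add_zero])
    have hΨ : Function.Injective Ψ := by
      rw [injective_iff_map_eq_zero]
      rintro ⟨⟨w, z, rfl⟩, r⟩ h
      have h1 : σ z + dg r = 0 := congrArg Subtype.val h
      have hr : r = 0 := by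
        funext i
        have := congrFun h1 (i, i)
        simp only [hσ, Pi.add_apply, tau_apply, hdg, Prod.swap, if_true, h2, zero_add,
          Pi.zero_apply] at this
        exact this
      subst hr
      rw [map_zero, add_zero] at h1
      ext1
      · exact Subtype.ext h1
      · rfl
    have := LinearMap.finrank_le_finrank_of_injective hΨ
    rw [Module.finrank_prod, Module.finrank_pi_fintype] at this
    simpa [mul_comm] using this
  have r1 := LinearMap.finrank_range_add_finrank_ker (d.restrictScalars k)
  have r2 := LinearMap.finrank_range_add_finrank_ker (σ.restrictScalars k)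
  omega

end general

end Pool.Agent.H281Z.Tate
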