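import Pool.Agent.H281Z.TateB

set_option autoImplicit false

namespace Pool.Agent.H281Z.Tate

open Module MvPolynomial

section concrete

variable {k : Type} [Field k] {d : ℕ}

theorem mem_I_iff (I : Ideal (MvPolynomial (Fin d) k))
    (hI : I = Ideal.span (Set.range (fun i : Fin d => (X i : MvPolynomial (Fin d) k) ^ 2)))
    (f : MvPolynomial (Fin d) k) :
    f ∈ I ↔ ∀ m ∈ f.support, ∃ i, 2 ≤ m i := by
  have : Set.range (fun i : Fin d => (X i : MvPolynomial (Fin d) k) ^ 2) =
      (fun s => monomial s (1 : k)) '' (Set.range fun i : Fin d => Finsupp.single i 2) := by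
    rw [← Set.range_comp]
    congr 1
    funext i
    simp [X_pow_eq_monomial]
  rw [hI, this, mem_ideal_span_monomial_image]
  refine forall₂_congr fun m _ => ?_
  simp [Finsupp.single_le_iff]

theorem key_ann (I : Ideal (MvPolynomial (Fin d) k))
    (hI : I = Ideal.span (Set.range (fun i : Fin d => (X i : MvPolynomial (Fin d) k) ^ 2)))
    (m : Fin d →₀ ℕ) (i : Fin d) (hm : m i = 0) (f : MvPolynomial (Fin d) k)
    (hf : monomial m (1 : k) * X i * f ∈ I) :
    ∃ g : MvPolynomial (Fin d) k, monomial m (1 : k) * (f + X i * g) ∈ I := by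
  classical
  refine ⟨-(f.divMonomial (Finsupp.single i 1)), ?_⟩
  have h1 := divMonomial_add_modMonomial_single f i
  set g := f.divMonomial (Finsupp.single i 1)
  set r := f.modMonomial (Finsupp.single i 1) with hr
  have h2 : f + X i * -g = r := by rw [← h1]; ring
  rw [h2]
  have h3 : monomial m (1 : k) * r * X i ∈ I := by
    have h4 : (X i : MvPolynomial (Fin d) k) ^ 2 ∈ I := by
      rw [hI]; exact Ideal.subset_span ⟨i, rfl⟩
    have h5 : monomial m (1 : k) * r * X i =
        monomial m (1 : k) * X i * f - monomial m (1 : k) * g * X i ^ 2 := by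
      rw [← h2]; ring
    rw [h5]
    exact I.sub_mem hf (I.mul_mem_left _ h4)
  rw [mem_I_iff I hI] at h3 ⊢
  intro s hs
  have hsi : s i = 0 := by
    by_contra hne
    rw [MvPolynomial.mem_support_iff, coeff_monomial_mul'] at hs
    split_ifs at hs with hle
    · apply hs
      rw [hr, coeff_modMonomial_of_le, mul_zero]
      rw [Finsupp.single_le_iff]
      simp only [Finsupp.coe_tsub, Pi.sub_apply, hm]
      omega
    · exact hs rfl
  obtain ⟨j, hj⟩ := h3 (s + Finsupp.single i 1) (by
    rw [MvPolynomial.mem_support_iff, coeff_mul_X]; exact MvPolynomial.mem_support_iff.1 hs)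
  refine ⟨j, ?_⟩
  by_cases hji : j = i
  · subst hji; simp [hsi] at hj
  · simpa [Finsupp.single_apply, Ne.symm hji] using hj

theorem socle (I : Ideal (MvPolynomial (Fin d) k))
    (hI : I = Ideal.span (Set.range (fun i : Fin d => (X i : MvPolynomial (Fin d) k) ^ 2)))
    (m : Fin d →₀ ℕ) (hm : ∀ i, 1 ≤ m i) (r : MvPolynomial (Fin d) k ⧸ I) (hr : IsNilpotent r) :
    Ideal.Quotient.mk I (monomial m (1 : k)) * r = 0 := by
  classical
  obtain ⟨f, rfl⟩ := Ideal.Quotient.mk_surjective r
  obtain ⟨N, hN⟩ := hr
  rw [← map_pow, Ideal.Quotient.eq_zero_iff_mem, mem_I_iff I hI] at hN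
  have h0 : coeff 0 f = 0 := by
    have : coeff 0 (f ^ N) = 0 := by
      by_contra hne
      obtain ⟨i, hi⟩ := hN 0 (MvPolynomial.mem_support_iff.2 hne)
      simp at hi
    rw [← constantCoeff_eq, map_pow] at this
    exact (pow_eq_zero_iff'.1 this).1
  rw [← map_mul, Ideal.Quotient.eq_zero_iff_mem, mem_I_iff I hI]
  intro s hs
  rw [MvPolynomial.mem_support_iff, coeff_monomial_mul'] at hs
  split_ifs at hs with hle
  · by_contra hcon
    push Not at hcon
    apply hs
    have : s - m = 0 := by
      ext i
      have := hcon i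
      have := hm i
      simp only [Finsupp.coe_tsub, Pi.sub_apply, Finsupp.coe_zero, Pi.zero_apply]
      omega
    rw [this, h0, mul_zero]
  · exact absurd rfl hs

theorem KK_concrete (I : Ideal (MvPolynomial (Fin d) k))
    (hI : I = Ideal.span (Set.range (fun i : Fin d => (X i : MvPolynomial (Fin d) k) ^ 2)))
    (n : ℕ) (i : Fin d) : ∀ (l : List (Fin d)) (m : Fin d →₀ ℕ), m i = 0 → i ∉ l →
      KK (Fin n → MvPolynomial (Fin d) k ⧸ I) (Ideal.Quotient.mk I (X i))
        (l.map fun j => Ideal.Quotient.mk I (X j)) (Ideal.Quotient.mk I (monomial m (1 : k)))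
  | [], m, hm, _ => by
      intro p hp
      have : ∀ a : Fin n, ∃ q : MvPolynomial (Fin d) k ⧸ I,
          Ideal.Quotient.mk I (monomial m (1 : k)) * (p a + Ideal.Quotient.mk I (X i) * q) = 0 := by
        intro a
        have h1 := congrFun hp a
        obtain ⟨f, hf⟩ := Ideal.Quotient.mk_surjective (p a)
        simp only [Pi.smul_apply, smul_eq_mul, Pi.zero_apply, ← hf, ← map_mul,
          Ideal.Quotient.eq_zero_iff_mem] at h1
        obtain ⟨g, hg⟩ := key_ann I hI m i hm f h1
        refine ⟨Ideal.Quotient.mk I g, ?_⟩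
        rw [← hf, ← map_mul, ← map_add, ← map_mul, Ideal.Quotient.eq_zero_iff_mem]
        exact hg
      choose q hq using this
      exact ⟨q, funext hq⟩
  | j :: l, m, hm, hl => by
      simp only [List.mem_cons, not_or] at hl
      refine ⟨KK_concrete I hI n i l m hm hl.2, ?_⟩
      have := KK_concrete I hI n i l (m + Finsupp.single j 1)
        (by simp [hm, Finsupp.single_apply, Ne.symm hl.1]) hl.2
      rwa [monomial_add_single, pow_one, map_mul] at this

theorem Good_concrete (I : Ideal (MvPolynomial (Fin d) k))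
    (hI : I = Ideal.span (Set.range (fun i : Fin d => (X i : MvPolynomial (Fin d) k) ^ 2)))
    (n : ℕ) (D : Matrix (Fin n) (Fin n) (MvPolynomial (Fin d) k ⧸ I))
    (hD : ∀ i j, IsNilpotent (D i j)) : ∀ (l : List (Fin d)) (m : Fin d →₀ ℕ), l.Nodup →
      (∀ i ∈ l, m i = 0) → (∀ i, i ∉ l → 1 ≤ m i) →
      Good (Matrix.mulVecLin D) (l.map fun j => Ideal.Quotient.mk I (X j))
        (Ideal.Quotient.mk I (monomial m (1 : k)))
  | [], m, _, _, h2 => by
      intro p
      funext a
      simp only [Matrix.mulVecLin_apply, Matrix.mulVec, dotProduct, Pi.smul_apply, smul_eq_mul,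
        Finset.mul_sum, Pi.zero_apply]
      refine Finset.sum_eq_zero fun b _ => ?_
      rw [← mul_assoc, socle I hI m (fun i => h2 i (by simp)) _ (hD a b), zero_mul]
  | j :: l, m, hl, h1, h2 => by
      rw [List.nodup_cons] at hl
      refine ⟨KK_concrete I hI n j l m (h1 j (by simp)) hl.1, ?_⟩
      have := Good_concrete I hI n D hD l (m + Finsupp.single j 1) hl.2
        (by
          intro i hi
          have : j ≠ i := fun h => hl.1 (h ▸ hi)
          simp [h1 i (by simp [hi]), Finsupp.single_apply, this])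
        (by
          intro i hi
          by_cases hij : j = i
          · subst hij; simp
          · have := h2 i (by simp [hi, Ne.symm hij])
            simp only [Finsupp.coe_add, Pi.add_apply]
            omega)
      rwa [monomial_add_single, pow_one, map_mul] at this

theorem finite_quot (I : Ideal (MvPolynomial (Fin d) k))
    (hI : I = Ideal.span (Set.range (fun i : Fin d => (X i : MvPolynomial (Fin d) k) ^ 2))) :
    Module.Finite k (MvPolynomial (Fin d) k ⧸ I) := by
  have hint : Algebra.IsIntegral k (MvPolynomial (Fin d) k ⧸ I) := by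
    constructor
    intro r
    obtain ⟨f, rfl⟩ := Ideal.Quotient.mk_surjective r
    induction f using MvPolynomial.induction_on with
    | C a => exact isIntegral_algebraMap (x := a)
    | add p q hp hq => rw [map_add]; exact hp.add hq
    | mul_X p i hp =>
      rw [map_mul]
      refine hp.mul ?_
      refine IsIntegral.of_pow (n := 2) (by norm_num) ?_
      have : (Ideal.Quotient.mk I (X i)) ^ 2 = 0 := by
        rw [← map_pow, Ideal.Quotient.eq_zero_iff_mem, hI]
        exact Ideal.subset_span ⟨i, rfl⟩
      rw [this]; exact isIntegral_zero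
  exact Algebra.IsIntegral.finite

theorem le_finrank_quot (I : Ideal (MvPolynomial (Fin d) k))
    (hI : I = Ideal.span (Set.range (fun i : Fin d => (X i : MvPolynomial (Fin d) k) ^ 2))) :
    2 ^ d ≤ finrank k (MvPolynomial (Fin d) k ⧸ I) := by
  classical
  have := finite_quot I hI
  let e : (Fin d → Fin 2) → (Fin d →₀ ℕ) := fun s => Finsupp.equivFunOnFinite.symm fun i => s i
  have he : ∀ s i, e s i = s i := fun _ _ => rfl
  have hinj : Function.Injective e := by
    intro s t h
    funext i
    apply Fin.ext
    rw [← he, ← he, h]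
  have hli : LinearIndependent k
      (fun s : Fin d → Fin 2 => Ideal.Quotient.mk I (monomial (e s) (1 : k))) := by
    rw [Fintype.linearIndependent_iff]
    intro g hg s
    have h1 : (∑ t, monomial (e t) (g t) : MvPolynomial (Fin d) k) ∈ I := by
      rw [← Ideal.Quotient.eq_zero_iff_mem, map_sum, ← hg]
      refine Finset.sum_congr rfl fun t _ => ?_
      rw [← Ideal.Quotient.mkₐ_eq_mk k, ← map_smul, smul_monomial]
      simp
    rw [mem_I_iff I hI] at h1
    by_contra hne
    obtain ⟨i, hi⟩ := h1 (e s) (by
      rw [MvPolynomial.mem_support_iff, coeff_sum, Finset.sum_eq_single s]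
      · simpa using hne
      · intro t _ ht
        rw [coeff_monomial, if_neg (fun h => ht (hinj h))]
      · simp)
    rw [he] at hi
    have := (s i).2
    omega
  simpa using hli.fintype_card_le_finrank

end concrete

theorem main (k : Type) [Field k] [CharP k 2] (d : ℕ) (I : Ideal (MvPolynomial (Fin d) k))
    (hI : I = Ideal.span (Set.range (fun i : Fin d => (X i : MvPolynomial (Fin d) k) ^ 2)))
    (n : ℕ) (D : Matrix (Fin n) (Fin n) (MvPolynomial (Fin d) k ⧸ I)) (hD : D * D = 0)
    (hn : ∀ i j, IsNilpotent (D i j)) :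
    2 ^ d * n + finrank k (LinearMap.range ((Matrix.mulVecLin
      (Matrix.kronecker D (1 : Matrix (Fin n) (Fin n) (MvPolynomial (Fin d) k ⧸ I)) +
        Matrix.kronecker (1 : Matrix (Fin n) (Fin n) (MvPolynomial (Fin d) k ⧸ I)) D)).restrictScalars k)) ≤
    finrank k (LinearMap.ker ((Matrix.mulVecLin
      (Matrix.kronecker D (1 : Matrix (Fin n) (Fin n) (MvPolynomial (Fin d) k ⧸ I)) +
        Matrix.kronecker (1 : Matrix (Fin n) (Fin n) (MvPolynomial (Fin d) k ⧸ I)) D)).restrictScalars k)) := by
  have := finite_quot I hI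
  have h2 : ∀ r : MvPolynomial (Fin d) k ⧸ I, r + r = 0 := by
    intro r
    have : (1 + 1 : k) = 0 := by
      have := CharP.cast_eq_zero k 2
      push_cast at this
      rw [one_add_one_eq_two]; exact this
    calc r + r = (1 + 1 : k) • r := by rw [add_smul, one_smul]
      _ = 0 := by rw [this, zero_smul]
  have hG := Good_concrete I hI n D hn (List.finRange d) 0 (List.nodup_finRange d)
    (by simp) (by simp)
  have h1 : Ideal.Quotient.mk I (monomial (0 : Fin d →₀ ℕ) (1 : k)) = 1 := by
    rw [monomial_zero', C_1, map_one]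
  rw [h1] at hG
  have := main_general (k := k) h2 D hD _ (by
    intro x hx
    obtain ⟨i, _, rfl⟩ := List.mem_map.1 hx
    rw [← map_mul, ← sq, Ideal.Quotient.eq_zero_iff_mem, hI]
    exact Ideal.subset_span ⟨i, rfl⟩) hG
  have h3 := Nat.mul_le_mul_right n (le_finrank_quot I hI)
  omega

end Pool.Agent.H281Z.Tate
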