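import Mathlib

set_option autoImplicit false

namespace Pool.Agent.H281Z.Wid

open MeasureTheory Set Metric Filter Topology

/-- sets covered by few very small balls -/
def Thin {X : Type*} [PseudoMetricSpace X] (E : Set X) : Prop :=
  ∀ C : ℝ, ∃ (F : Finset X) (δ : ℝ), 0 < δ ∧ E ⊆ ⋃ c ∈ F, closedBall c δ ∧
    C * ((F.card : ℝ) + 1) ^ 2 ≤ -Real.log δ

theorem Thin.image {X Y : Type*} [PseudoMetricSpace X] [PseudoMetricSpace Y] {E : Set X}
    (hE : Thin E) {f : X → Y} {L : NNReal} (hf : LipschitzWith L f) : Thin (f '' E) := by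
  classical
  intro C
  obtain ⟨F, δ, hδ, hF, hC⟩ := hE (|C| + |Real.log (L + 1)|)
  have hL : (0 : ℝ) < L + 1 := by positivity
  refine ⟨F.image f, (L + 1) * δ, by positivity, ?_, ?_⟩
  · rintro _ ⟨x, hx, rfl⟩
    obtain ⟨c, hc, hxc⟩ := mem_iUnion₂.1 (hF hx)
    refine mem_iUnion₂.2 ⟨f c, Finset.mem_image_of_mem f hc, ?_⟩
    rw [mem_closedBall] at hxc ⊢
    have h1 := hf.dist_le_mul x c
    have h2 : (L : ℝ) * dist x c ≤ L * δ := mul_le_mul_of_nonneg_left hxc L.2
    nlinarith
  · rw [Real.log_mul hL.ne' hδ.ne']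
    have h1 : ((F.image f).card : ℝ) ≤ F.card := by exact_mod_cast Finset.card_image_le
    have h2 : (((F.image f).card : ℝ) + 1) ^ 2 ≤ ((F.card : ℝ) + 1) ^ 2 := by gcongr
    have h3 : (1 : ℝ) ≤ ((F.card : ℝ) + 1) ^ 2 := by
      have : (0 : ℝ) ≤ F.card := by positivity
      nlinarith
    have h4 : C * (((F.image f).card : ℝ) + 1) ^ 2 ≤ |C| * ((F.card : ℝ) + 1) ^ 2 :=
      le_trans (mul_le_mul_of_nonneg_right (le_abs_self C) (by positivity))
        (mul_le_mul_of_nonneg_left h2 (abs_nonneg C))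
    have h5 : Real.log (L + 1) ≤ |Real.log (L + 1)| * ((F.card : ℝ) + 1) ^ 2 := by
      have := le_abs_self (Real.log (L + 1))
      have := abs_nonneg (Real.log (L + 1))
      nlinarith
    nlinarith

theorem diag_null (ρ : Measure ℂ) [IsProbabilityMeasure ρ] [NullSingletonClass ρ] :
    (ρ.prod ρ) {p : ℂ × ℂ | p.1 = p.2} = 0 := by
  refine Measure.measure_prod_null_of_ae_null (isClosed_eq continuous_fst continuous_snd).measurableSet
    (Eventually.of_forall fun x => ?_)
  have : Prod.mk x ⁻¹' {p : ℂ × ℂ | p.1 = p.2} = {x} := by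
    ext y; simp [eq_comm]
  simp only [this, measure_singleton, Pi.zero_apply]

theorem Thin.null {E : Set ℂ} (hE : Thin E) (ρ : Measure ℂ) [IsProbabilityMeasure ρ]
    [NullSingletonClass ρ]
    (hI : Integrable (fun p : ℂ × ℂ => Real.log ‖p.1 - p.2‖) (ρ.prod ρ)) : ρ E = 0 := by
  by_contra hne
  have hm : 0 < ρ.real E := by
    rw [measureReal_def]
    exact ENNReal.toReal_pos hne (measure_ne_top _ _)
  set m := ρ.real E with hmdef
  set I := ∫ p : ℂ × ℂ, |Real.log ‖p.1 - p.2‖| ∂(ρ.prod ρ) with hIdef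
  have hI0 : 0 ≤ I := integral_nonneg fun _ => abs_nonneg _
  obtain ⟨F, δ, hδ, hF, hC⟩ := hE ((I + 1) / m ^ 2 + 1)
  set N : ℝ := (F.card : ℝ) + 1 with hN
  have hN1 : 1 ≤ N := by
    have : (0 : ℝ) ≤ F.card := by positivity
    linarith
  have hex : ∃ c ∈ F, m / N ≤ ρ.real (closedBall c δ) := by
    by_contra hcon
    push Not at hcon
    have h1 : m ≤ ∑ c ∈ F, ρ.real (closedBall c δ) :=
      le_trans (measureReal_mono hF (measure_ne_top _ _)) (measureReal_biUnion_finset_le _ _)
    have h2 : ∑ c ∈ F, ρ.real (closedBall c δ) ≤ ∑ _c ∈ F, m / N :=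
      Finset.sum_le_sum fun c hc => (hcon c hc).le
    rw [Finset.sum_const, nsmul_eq_mul] at h2
    have h3 : (F.card : ℝ) * (m / N) < m := by
      rw [mul_div_assoc', div_lt_iff₀ (by linarith), hN]
      nlinarith
    linarith
  obtain ⟨c, -, hc⟩ := hex
  set t := -Real.log (2 * δ) with ht
  have hlog2 : Real.log 2 ≤ 1 := by
    have := Real.log_le_sub_one_of_pos (show (0 : ℝ) < 2 by norm_num)
    linarith
  have ht1 : (I + 1) / m ^ 2 * N ^ 2 ≤ t := by
    rw [ht, Real.log_mul (by norm_num) hδ.ne']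
    nlinarith
  have ht0 : 0 < t := lt_of_lt_of_le (by positivity) ht1
  have hM := mul_meas_ge_le_integral_of_nonneg (μ := ρ.prod ρ)
    (f := fun p : ℂ × ℂ => |Real.log ‖p.1 - p.2‖|) (Eventually.of_forall fun _ => abs_nonneg _)
    hI.abs t
  have hsub : closedBall c δ ×ˢ closedBall c δ ⊆
      {p : ℂ × ℂ | t ≤ |Real.log ‖p.1 - p.2‖|} ∪ {p : ℂ × ℂ | p.1 = p.2} := by
    rintro ⟨x, y⟩ ⟨hx, hy⟩
    by_cases hxy : x = y
    · exact Or.inr hxy
    · left
      simp only [mem_closedBall, mem_ofPred_eq] at hx hy ⊢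
      have h1 : ‖x - y‖ ≤ 2 * δ := by
        rw [← dist_eq_norm]
        have := dist_triangle_right x y c
        linarith
      have h2 : 0 < ‖x - y‖ := norm_pos_iff.2 (sub_ne_zero.2 hxy)
      have h3 := Real.log_le_log h2 h1
      have h4 := neg_le_abs (Real.log ‖x - y‖)
      linarith
  have h5 : (ρ.prod ρ).real (closedBall c δ ×ˢ closedBall c δ) ≤
      (ρ.prod ρ).real {p : ℂ × ℂ | t ≤ |Real.log ‖p.1 - p.2‖|} := by
    refine le_trans (measureReal_mono hsub) (le_trans (measureReal_union_le _ _) ?_)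
    rw [measureReal_def _ {p : ℂ × ℂ | p.1 = p.2}, diag_null]
    simp
  rw [measureReal_prod_prod] at h5
  have h6 : (m / N) ^ 2 ≤ ρ.real (closedBall c δ) * ρ.real (closedBall c δ) := by
    rw [sq]
    exact mul_le_mul hc hc (by positivity) (by positivity)
  have h7 : (I + 1) / m ^ 2 * N ^ 2 * (m / N) ^ 2 = I + 1 := by
    field_simp
  have h8 : (I + 1) / m ^ 2 * N ^ 2 * (m / N) ^ 2 ≤
      t * (ρ.prod ρ).real {p : ℂ × ℂ | t ≤ |Real.log ‖p.1 - p.2‖|} :=
    mul_le_mul ht1 (h6.trans h5) (by positivity) ht0.le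
  linarith

/-- fast decreasing scales -/
noncomputable def dl (i : ℕ) : ℝ := Real.exp (-(32 : ℝ) ^ i)

theorem dl_pos (i : ℕ) : 0 < dl i := Real.exp_pos _

theorem dl_succ (i : ℕ) : dl (i + 1) ≤ dl i * (1 / 3) := by
  unfold dl
  have h1 : (1 : ℝ) ≤ 32 ^ i := one_le_pow₀ (by norm_num)
  have h2 : Real.exp (-(32 : ℝ) ^ (i + 1)) ≤ Real.exp (-(32 : ℝ) ^ i) * Real.exp (-2) := by
    rw [← Real.exp_add]
    apply Real.exp_le_exp.2
    rw [pow_succ]
    linarith
  refine h2.trans (mul_le_mul_of_nonneg_left ?_ (Real.exp_pos _).le)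
  rw [Real.exp_neg, one_div]
  apply inv_anti₀ (by norm_num)
  have := Real.add_one_le_exp 2
  linarith

theorem dl_add (n i : ℕ) : dl (i + n) ≤ dl n * (1 / 3) ^ i := by
  induction i with
  | zero => simp
  | succ i ih =>
    have h := dl_succ (i + n)
    have : i + 1 + n = i + n + 1 := by ring
    rw [this, pow_succ]
    linarith

theorem summable_dl : Summable dl := by
  refine Summable.of_nonneg_of_le (fun i => (dl_pos i).le) (fun i => dl_add 0 i) ?_
  exact (summable_geometric_of_lt_one (by norm_num) (by norm_num)).mul_left _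

theorem tail_le (n : ℕ) (f : ℕ → ℝ) (hf : ∀ i, |f i| ≤ dl i) :
    |∑' i, f (i + n)| ≤ 3 / 2 * dl n := by
  have h := tsum_of_norm_bounded (f := fun i => f (i + n))
    ((hasSum_geometric_of_lt_one (r := (1 / 3 : ℝ)) (by norm_num) (by norm_num)).mul_left (dl n))
    (fun i => (hf (i + n)).trans (dl_add n i))
  rw [Real.norm_eq_abs] at h
  linarith

/-- the Cantor map -/
noncomputable def phi (w : ℕ → Bool) : ℝ := ∑' i, if w i then dl i else 0

theorem term_le (w : ℕ → Bool) (i : ℕ) : |if w i then dl i else 0| ≤ dl i := by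
  split_ifs
  · rw [abs_of_pos (dl_pos i)]
  · simpa using (dl_pos i).le

theorem summable_term (w : ℕ → Bool) : Summable fun i => if w i then dl i else 0 :=
  Summable.of_norm_bounded summable_dl (term_le w)

theorem continuous_phi : Continuous phi := by
  refine continuous_tsum (u := dl) (fun i => ?_) summable_dl (fun i w => term_le w i)
  exact (continuous_of_discreteTopology (f := fun b : Bool => if b then dl i else (0 : ℝ))).comp
    (continuous_apply i)

theorem injective_phi : Function.Injective phi := by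
  intro v w h
  by_contra hne
  have hex : ∃ i, v i ≠ w i := by
    by_contra hcon
    push Not at hcon
    exact hne (funext hcon)
  classical
  let n := Nat.find hex
  have hn : v n ≠ w n := Nat.find_spec hex
  have hlt : ∀ i < n, v i = w i := fun i hi => by simpa using Nat.find_min hex hi
  let g : ℕ → ℝ := fun i => (if v i then dl i else 0) - (if w i then dl i else 0)
  have hg : Summable g := (summable_term v).sub (summable_term w)
  have h0 : ∑' i, g i = 0 := by
    rw [(summable_term v).tsum_sub (summable_term w)]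
    exact sub_eq_zero.2 h
  have hgb : ∀ i, |g i| ≤ dl i := by
    intro i
    have := dl_pos i
    simp only [g]
    split_ifs <;> simp [abs_of_pos this, this.le]
  rw [← hg.sum_add_tsum_nat_add (n + 1), Finset.sum_range_succ, Finset.sum_eq_zero] at h0
  · have h1 := tail_le (n + 1) g hgb
    have h2 : |g n| = dl n := by
      have := dl_pos n
      simp only [g]
      cases hv : v n <;> cases hw : w n <;> simp_all [abs_of_pos this]
    have h3 := dl_succ n
    have h4 : g n = -∑' i, g (i + (n + 1)) := by linarith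
    rw [h4, abs_neg] at h2
    have := dl_pos n
    linarith
  · intro i hi
    simp [g, hlt i (Finset.mem_range.1 hi)]

theorem thin_range_phi : Thin (range phi) := by
  classical
  intro C
  obtain ⟨n, hn⟩ : ∃ n : ℕ, 4 * |C| + 1 ≤ 8 ^ n := by
    obtain ⟨n, hn⟩ := pow_unbounded_of_one_lt (4 * |C| + 1) (show (1 : ℝ) < 8 by norm_num)
    exact ⟨n, hn.le⟩
  refine ⟨Finset.univ.image fun η : Fin n → Bool => ∑ i : Fin n, if η i then dl i else 0,
    2 * dl n, by have := dl_pos n; positivity, ?_, ?_⟩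
  · rintro _ ⟨w, rfl⟩
    refine mem_iUnion₂.2 ⟨_, Finset.mem_image_of_mem _ (Finset.mem_univ fun i : Fin n => w i), ?_⟩
    rw [mem_closedBall, Real.dist_eq, phi, ← (summable_term w).sum_add_tsum_nat_add n,
      Finset.sum_range, add_sub_cancel_left]
    have := tail_le n _ (term_le w)
    have := dl_pos n
    linarith
  · have h1 : ((Finset.univ.image fun η : Fin n → Bool =>
        ∑ i : Fin n, if η i then dl i else 0).card : ℝ) ≤ 2 ^ n := by
      have := Finset.card_image_le (s := (Finset.univ : Finset (Fin n → Bool)))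
        (f := fun η : Fin n → Bool => ∑ i : Fin n, if η i then dl i else 0)
      simp only [Finset.card_univ, Fintype.card_fun, Fintype.card_bool, Fintype.card_fin] at this
      exact_mod_cast this
    set a : ℝ := ((Finset.univ.image fun η : Fin n → Bool =>
        ∑ i : Fin n, if η i then dl i else 0).card : ℝ)
    have ha : 0 ≤ a := by positivity
    have h2 : (1 : ℝ) ≤ 2 ^ n := one_le_pow₀ (by norm_num)
    have h3 : (a + 1) ^ 2 ≤ 4 * 4 ^ n := by
      have : (4 : ℝ) ^ n = 2 ^ n * 2 ^ n := by rw [← mul_pow]; norm_num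
      nlinarith
    have hlog2 : Real.log 2 ≤ 1 := by
      have := Real.log_le_sub_one_of_pos (show (0 : ℝ) < 2 by norm_num)
      linarith
    rw [Real.log_mul (by norm_num) (dl_pos n).ne', dl, Real.log_exp]
    have h4 : (32 : ℝ) ^ n = 8 ^ n * 4 ^ n := by rw [← mul_pow]; norm_num
    have h5 : (1 : ℝ) ≤ 4 ^ n := one_le_pow₀ (by norm_num)
    have h6 : C * (a + 1) ^ 2 ≤ |C| * (4 * 4 ^ n) :=
      le_trans (mul_le_mul_of_nonneg_right (le_abs_self C) (by positivity))
        (mul_le_mul_of_nonneg_left h3 (abs_nonneg C))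
    have h7 : (4 * |C| + 1) * 4 ^ n ≤ 8 ^ n * 4 ^ n := mul_le_mul_of_nonneg_right hn (by positivity)
    nlinarith

theorem exists_thin_measure : ∃ (E : Set ℝ) (l : Measure ℝ), IsCompact E ∧ Thin E ∧
    IsProbabilityMeasure l ∧ NullSingletonClass l ∧ l Eᶜ = 0 := by
  let b : Measure Bool := (PMF.uniformOfFintype Bool).toMeasure
  let P : Measure (ℕ → Bool) := Measure.infinitePi fun _ : ℕ => b
  have hb : ∀ x : Bool, b {x} = 2⁻¹ := by
    intro x
    simp [b]
  have hP : ∀ w : ℕ → Bool, P {w} = 0 := by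
    intro w
    have h1 : ∀ n : ℕ, P {w} ≤ 2⁻¹ ^ n := by
      intro n
      have h2 : ({w} : Set (ℕ → Bool)) ⊆ Set.pi (Finset.range n) fun i => {w i} := by
        rintro _ rfl i _
        rfl
      refine (measure_mono h2).trans ?_
      rw [Measure.infinitePi_pi _ (fun _ _ => measurableSet_singleton _)]
      simp [hb]
    have h3 : Tendsto (fun n : ℕ => (2⁻¹ : ENNReal) ^ n) atTop (𝓝 0) :=
      ENNReal.tendsto_pow_atTop_nhds_zero_of_lt_one (by norm_num)
    exact le_antisymm (ge_of_tendsto' h3 h1) (by simp)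
  have hm : Measurable phi := continuous_phi.measurable
  refine ⟨range phi, P.map phi, isCompact_range continuous_phi, thin_range_phi,
    Measure.isProbabilityMeasure_map hm.aemeasurable, ⟨fun x => ?_⟩, ?_⟩
  · rw [Measure.map_apply hm (measurableSet_singleton x)]
    rcases (subsingleton_singleton.preimage injective_phi : (phi ⁻¹' {x}).Subsingleton).eq_empty_or_singleton
      with h | ⟨w, h⟩
    · rw [h, measure_empty]
    · rw [h, hP]
  · rw [Measure.map_apply hm (isCompact_range continuous_phi).measurableSet.compl]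
    simp

end Pool.Agent.H281Z.Wid
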