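import Pool.Agent.H281Z.WidA

set_option autoImplicit false

namespace Pool.Agent.H281Z.Wid

open MeasureTheory Set Metric Filter Topology Complex

theorem ae_prod_sphere (ρ : Measure ℂ) [IsProbabilityMeasure ρ] (h : ρ (sphere (0 : ℂ) 1)ᶜ = 0) :
    ∀ᵐ p ∂(ρ.prod ρ), ‖p.1‖ = 1 ∧ ‖p.2‖ = 1 := by
  have h1 : ∀ᵐ x ∂ρ, ‖x‖ = 1 := by
    rw [ae_iff]
    convert h using 2
    ext x; simp
  exact (Measure.quasiMeasurePreserving_fst.ae h1).and (Measure.quasiMeasurePreserving_snd.ae h1)

theorem energy_r (ρ : Measure ℂ) [IsProbabilityMeasure ρ] (h : ρ (sphere (0 : ℂ) 1)ᶜ = 0)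
    (r : ℝ) (hr0 : 0 < r) (hr1 : r < 1) :
    Integrable (fun p : ℂ × ℂ => Real.log ‖1 - r * (p.1 * (starRingEnd ℂ) p.2)‖) (ρ.prod ρ) ∧
    ∫ p : ℂ × ℂ, Real.log ‖1 - r * (p.1 * (starRingEnd ℂ) p.2)‖ ∂(ρ.prod ρ) ≤ 0 := by
  have hae := ae_prod_sphere ρ h
  have hz : ∀ p : ℂ × ℂ, ‖p.1‖ = 1 ∧ ‖p.2‖ = 1 → ‖(r : ℂ) * (p.1 * (starRingEnd ℂ) p.2)‖ = r := by
    intro p hp
    simp [hp.1, hp.2, abs_of_pos hr0]
  have hcont : Continuous fun p : ℂ × ℂ => (r : ℂ) * (p.1 * (starRingEnd ℂ) p.2) := by fun_prop
  constructor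
  · refine Integrable.of_bound (C := -Real.log (1 - r) + Real.log 2) ?_ ?_
    · exact (Real.measurable_log.comp (continuous_const.sub hcont).norm.measurable).aestronglyMeasurable
    · filter_upwards [hae] with p hp
      have h1 := hz p hp
      set z := (r : ℂ) * (p.1 * (starRingEnd ℂ) p.2)
      have h2 : 1 - r ≤ ‖1 - z‖ := by
        have := norm_sub_norm_le (1 : ℂ) z
        simpa [h1] using this
      have h3 : ‖1 - z‖ ≤ 2 := by
        have := norm_sub_le (1 : ℂ) z
        simp only [norm_one, h1] at this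
        linarith
      have h4 := Real.log_le_log (by linarith) h2
      have h5 := Real.log_le_log (by linarith) h3
      have h6 : Real.log (1 - r) ≤ 0 := Real.log_nonpos (by linarith) (by linarith)
      have h7 : 0 ≤ Real.log 2 := Real.log_nonneg (by norm_num)
      rw [Real.norm_eq_abs, abs_le]
      constructor <;> linarith
  · let F : ℕ → ℂ × ℂ → ℝ := fun n p => (((r : ℂ) * (p.1 * (starRingEnd ℂ) p.2)) ^ n / n).re
    have hFb : ∀ n, ∀ᵐ p ∂(ρ.prod ρ), ‖F n p‖ ≤ r ^ n := by
      intro n
      filter_upwards [hae] with p hp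
      refine (abs_re_le_norm _).trans ?_
      rw [norm_div, norm_pow, hz p hp]
      rcases Nat.eq_zero_or_pos n with rfl | hn
      · simp
      · apply div_le_self (by positivity)
        simpa using Nat.succ_le_of_lt hn
    have hGc : ∀ n : ℕ, Continuous fun p : ℂ × ℂ =>
        ((r : ℂ) * (p.1 * (starRingEnd ℂ) p.2)) ^ n / n := fun n => (hcont.pow n).div_const _
    have hFi : ∀ n, Integrable (F n) (ρ.prod ρ) := fun n =>
      Integrable.of_bound (continuous_re.comp (hGc n)).aestronglyMeasurable _ (hFb n)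
    have hFs : Summable fun n => ∫ p, ‖F n p‖ ∂(ρ.prod ρ) := by
      refine Summable.of_nonneg_of_le (fun n => integral_nonneg fun _ => norm_nonneg _)
        (fun n => ?_) (summable_geometric_of_lt_one hr0.le hr1)
      have := integral_mono_ae (hFi n).norm (integrable_const (r ^ n)) (hFb n)
      simpa using this
    have hS := hasSum_integral_of_summable_integral_norm hFi hFs
    have hpos : ∀ n, 0 ≤ ∫ p, F n p ∂(ρ.prod ρ) := by
      intro n
      have hGi : Integrable (fun p : ℂ × ℂ => ((r : ℂ) * (p.1 * (starRingEnd ℂ) p.2)) ^ n / n)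
          (ρ.prod ρ) := by
        refine Integrable.of_bound (C := r ^ n) (hGc n).aestronglyMeasurable ?_
        filter_upwards [hae] with p hp
        rw [norm_div, norm_pow, hz p hp]
        rcases Nat.eq_zero_or_pos n with rfl | hn
        · simp
        · apply div_le_self (by positivity)
          simpa using Nat.succ_le_of_lt hn
      have h1 : ∫ p, F n p ∂(ρ.prod ρ) =
          (∫ p : ℂ × ℂ, ((r : ℂ) * (p.1 * (starRingEnd ℂ) p.2)) ^ n / n ∂(ρ.prod ρ)).re :=
        integral_re hGi
      have h2 : (fun p : ℂ × ℂ => ((r : ℂ) * (p.1 * (starRingEnd ℂ) p.2)) ^ n / n) =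
          fun p : ℂ × ℂ => ((r ^ n / n : ℝ) : ℂ) * (p.1 ^ n * (starRingEnd ℂ) (p.2 ^ n)) := by
        funext p
        push_cast
        rw [map_pow]
        ring
      rw [h1, h2, integral_const_mul,
        integral_prod_mul (fun x : ℂ => x ^ n) (fun y : ℂ => (starRingEnd ℂ) (y ^ n)),
        integral_conj, mul_conj, ← ofReal_mul, ofReal_re]
      exact mul_nonneg (by positivity) (normSq_nonneg _)
    have h0 := hS.nonneg hpos
    have heq : ∫ p, (∑' n, F n p) ∂(ρ.prod ρ) =
        ∫ p : ℂ × ℂ, -Real.log ‖1 - r * (p.1 * (starRingEnd ℂ) p.2)‖ ∂(ρ.prod ρ) := by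
      refine integral_congr_ae ?_
      filter_upwards [hae] with p hp
      have h1 := hasSum_re (hasSum_taylorSeries_neg_log (z := (r : ℂ) * (p.1 * (starRingEnd ℂ) p.2))
        (by rw [hz p hp]; exact hr1))
      rw [h1.tsum_eq, neg_re, log_re]
    rw [heq, integral_neg] at h0
    linarith

theorem energy_nonpos (ρ : Measure ℂ) [IsProbabilityMeasure ρ] [NullSingletonClass ρ]
    (h : ρ (sphere (0 : ℂ) 1)ᶜ = 0)
    (hI : Integrable (fun p : ℂ × ℂ => Real.log ‖p.1 - p.2‖) (ρ.prod ρ)) :
    ∫ p : ℂ × ℂ, Real.log ‖p.1 - p.2‖ ∂(ρ.prod ρ) ≤ 0 := by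
  have key : ∀ r : ℝ, 0 < r → r < 1 →
      ∫ p : ℂ × ℂ, Real.log ‖p.1 - p.2‖ ∂(ρ.prod ρ) ≤ -(1 / 2) * Real.log r := by
    intro r hr0 hr1
    obtain ⟨h1, h2⟩ := energy_r ρ h r hr0 hr1
    have hd : ∀ᵐ p ∂(ρ.prod ρ), p.1 ≠ p.2 := by
      rw [ae_iff]
      simpa using diag_null ρ
    have h3 := integral_mono_ae hI (h1.add (integrable_const (-(1 / 2) * Real.log r))) (by
      filter_upwards [ae_prod_sphere ρ h, hd] with p hp hne
      obtain ⟨x, y⟩ := p
      simp only [Pi.add_apply] at hp hne ⊢
      have hx : x.re ^ 2 + x.im ^ 2 = 1 := by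
        have := Complex.sq_norm x
        rw [hp.1, normSq_apply] at this
        nlinarith
      have hy : y.re ^ 2 + y.im ^ 2 = 1 := by
        have := Complex.sq_norm y
        rw [hp.2, normSq_apply] at this
        nlinarith
      have h4 : 0 < ‖x - y‖ := norm_pos_iff.2 (sub_ne_zero.2 hne)
      have h5 : r * ‖x - y‖ ^ 2 ≤ ‖1 - r * (x * (starRingEnd ℂ) y)‖ ^ 2 := by
        rw [Complex.sq_norm, Complex.sq_norm, normSq_apply, normSq_apply]
        simp only [sub_re, sub_im, one_re, one_im, mul_re, mul_im, ofReal_re, ofReal_im, conj_re,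
          conj_im]
        have e : (x.re * y.re + x.im * y.im) ^ 2 + (x.im * y.re - x.re * y.im) ^ 2 = 1 := by
          have : (x.re * y.re + x.im * y.im) ^ 2 + (x.im * y.re - x.re * y.im) ^ 2 =
            (x.re ^ 2 + x.im ^ 2) * (y.re ^ 2 + y.im ^ 2) := by ring
          rw [this, hx, hy, mul_one]
        nlinarith [sq_nonneg (1 - r)]
      have h6 := Real.log_le_log (by positivity) h5
      rw [Real.log_mul hr0.ne' (by positivity), Real.log_pow, Real.log_pow] at h6
      push_cast at h6
      linarith)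
    simp only [Pi.add_apply] at h3
    rw [integral_add h1 (integrable_const _)] at h3
    simp only [integral_const, probReal_univ, smul_eq_mul, one_mul] at h3
    linarith
  refine le_of_forall_pos_le_add fun ε hε => ?_
  have := key (Real.exp (-ε)) (Real.exp_pos _) (by simpa using hε)
  rw [Real.log_exp] at this
  linarith

/-- normalised arc length on the unit circle -/
noncomputable def sig : Measure ℂ :=
  (ENNReal.ofReal (2 * Real.pi)⁻¹) • (volume.restrict (Ioc 0 (2 * Real.pi))).map (circleMap 0 1)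

theorem meas_cm (R : ℝ) : Measurable (circleMap 0 R) := (continuous_circleMap 0 R).measurable

instance : IsProbabilityMeasure sig := by
  constructor
  have := Real.pi_pos
  rw [sig, Measure.smul_apply, Measure.map_apply (meas_cm 1) MeasurableSet.univ]
  simp only [preimage_univ, Measure.restrict_apply_univ, Real.volume_Ioc, sub_zero, smul_eq_mul]
  rw [← ENNReal.ofReal_mul (by positivity), inv_mul_cancel₀ (by positivity), ENNReal.ofReal_one]

instance : NullSingletonClass sig := by
  constructor
  intro x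
  rw [sig, Measure.smul_apply, Measure.map_apply (meas_cm 1) (measurableSet_singleton x),
    ((countable_singleton x).preimage_circleMap 0 one_ne_zero).measure_zero, smul_zero]

theorem sig_sphere : sig (sphere (0 : ℂ) 1)ᶜ = 0 := by
  rw [sig, Measure.smul_apply, Measure.map_apply (meas_cm 1) isClosed_sphere.measurableSet.compl]
  have : circleMap 0 1 ⁻¹' (sphere (0 : ℂ) 1)ᶜ = ∅ := by
    ext θ; simp
  rw [this, measure_empty, smul_zero]

theorem integral_sig (f : ℂ → ℝ) (hf : Measurable f) :
    ∫ x, f x ∂sig = Real.circleAverage f 0 1 := by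
  have := Real.pi_pos
  rw [sig, integral_smul_measure, integral_map (meas_cm 1).aemeasurable hf.aestronglyMeasurable,
    Real.circleAverage_def, intervalIntegral.integral_of_le (by positivity),
    ENNReal.toReal_ofReal (by positivity)]

theorem integrable_sig_log (y : ℂ) : Integrable (fun x : ℂ => Real.log ‖x - y‖) sig := by
  have := Real.pi_pos
  have hm : Measurable fun x : ℂ => Real.log ‖x - y‖ :=
    Real.measurable_log.comp (by fun_prop)
  have h1 : CircleIntegrable (fun x : ℂ => Real.log ‖x - y‖) 0 1 :=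
    MeromorphicOn.circleIntegrable_log_norm (f := fun x : ℂ => x - y)
      (fun x _ => (analyticAt_id.sub analyticAt_const).meromorphicAt)
  rw [sig]
  refine Integrable.smul_measure ?_ ENNReal.ofReal_ne_top
  rw [integrable_map_measure hm.aestronglyMeasurable (meas_cm 1).aemeasurable]
  exact (intervalIntegrable_iff_integrableOn_Ioc_of_le (by positivity)).1 h1

theorem sig_inner (y : ℂ) (hy : ‖y‖ = 1) : ∫ x, Real.log ‖x - y‖ ∂sig = 0 := by
  rw [integral_sig (fun x : ℂ => Real.log ‖x - y‖) (Real.measurable_log.comp (by fun_prop)),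
    circleAverage_log_norm_sub_const_eq_posLog, hy]
  simp

theorem ae_sig : ∀ᵐ x ∂sig, ‖x‖ = 1 := by
  rw [ae_iff]
  convert sig_sphere using 2
  ext x; simp

theorem integrable_sig_prod :
    Integrable (fun p : ℂ × ℂ => Real.log ‖p.1 - p.2‖) (sig.prod sig) := by
  have hm : Measurable fun p : ℂ × ℂ => Real.log ‖p.1 - p.2‖ :=
    Real.measurable_log.comp (by fun_prop)
  rw [integrable_prod_iff' hm.aestronglyMeasurable]
  refine ⟨Eventually.of_forall integrable_sig_log, ?_⟩
  refine Integrable.of_bound (C := 2 * Real.log 2)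
    hm.aestronglyMeasurable.norm.prod_swap.integral_prod_right' ?_
  filter_upwards [ae_sig] with y hy
  rw [Real.norm_of_nonneg (integral_nonneg fun _ => norm_nonneg _)]
  have h1 := integral_mono_ae (integrable_sig_log y).norm
    ((integrable_const (2 * Real.log 2)).sub (integrable_sig_log y)) (by
      filter_upwards [ae_sig] with x hx
      simp only [Pi.sub_apply]
      have h7 : 0 ≤ Real.log 2 := Real.log_nonneg (by norm_num)
      have h2 : Real.log ‖x - y‖ ≤ Real.log 2 := by
        rcases (norm_nonneg (x - y)).eq_or_lt with h | h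
        · rw [← h]; simpa using h7
        · apply Real.log_le_log h
          have := norm_sub_le x y
          linarith
      rw [Real.norm_eq_abs, abs_le]
      constructor <;> linarith)
  simp only [Pi.sub_apply] at h1
  rw [integral_sub (integrable_const _) (integrable_sig_log y), sig_inner y hy] at h1
  simpa using h1

theorem energy_sig : ∫ p : ℂ × ℂ, Real.log ‖p.1 - p.2‖ ∂(sig.prod sig) = 0 := by
  rw [integral_prod_symm _ integrable_sig_prod]
  refine integral_eq_zero_of_ae ?_
  filter_upwards [ae_sig] with y hy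
  exact sig_inner y hy

end Pool.Agent.H281Z.Wid
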