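import Pool.Agent.H281Z.WidB

set_option autoImplicit false

namespace Pool.Agent.H281Z.Wid

open MeasureTheory Set Metric Filter Topology Complex

/-- radii -/
noncomputable def RR (k : ℕ) : ℝ := ((k : ℝ) + 3) ^ (1 / ((k : ℝ) + 1))

theorem one_lt_RR (k : ℕ) : 1 < RR k := by
  have : (0 : ℝ) ≤ k := by positivity
  exact Real.one_lt_rpow (by linarith) (by positivity)

theorem RR_pow (k : ℕ) : RR k ^ (k + 1) = (k : ℝ) + 3 := by
  have : (0 : ℝ) ≤ k := by positivity
  rw [RR, ← Real.rpow_natCast, ← Real.rpow_mul (by linarith)]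
  push_cast
  rw [one_div, inv_mul_cancel₀ (by positivity), Real.rpow_one]

theorem tendsto_RR : Tendsto RR atTop (𝓝 1) := by
  have h := (tendsto_rpow_div_mul_add 1 1 (-2) (by norm_num)).comp
    (tendsto_atTop_add_const_right atTop (3 : ℝ) tendsto_natCast_atTop_atTop)
  refine h.congr fun k => ?_
  simp only [Function.comp, RR]
  congr 2
  ring

/-- roots of unity -/
noncomputable def om (k : ℕ) : ℂ := exp (2 * Real.pi * I / ((k + 2 : ℕ) : ℂ))

theorem om_prim (k : ℕ) : IsPrimitiveRoot (om k) (k + 2) := isPrimitiveRoot_exp _ (by omega)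

theorem norm_om (k : ℕ) : ‖om k‖ = 1 := (om_prim k).norm'_eq_one (by omega)

/-- the arcs -/
noncomputable def gam (k j : ℕ) (θ : ℝ) : ℂ := circleMap 0 (RR k) θ * om k ^ j

theorem norm_gam (k j : ℕ) (θ : ℝ) : ‖gam k j θ‖ = RR k := by
  have := one_lt_RR k
  simp [gam, norm_om, abs_of_pos (show 0 < RR k by linarith)]

theorem continuous_gam (k j : ℕ) : Continuous (gam k j) :=
  (continuous_circleMap _ _).mul continuous_const

theorem lip_gam (k j : ℕ) : LipschitzWith (Real.nnabs (RR k)) (gam k j) := by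
  refine LipschitzWith.of_dist_le_mul fun a b => ?_
  have := (lipschitzWith_circleMap 0 (RR k)).dist_le_mul a b
  rw [dist_eq_norm] at this ⊢
  rw [gam, gam, ← sub_mul, norm_mul, norm_pow, norm_om, one_pow, mul_one]
  exact this

theorem countable_gam (k j : ℕ) (z : ℂ) : (gam k j ⁻¹' {z}).Countable := by
  have h1 := one_lt_RR k
  have h0 : om k ^ j ≠ 0 := pow_ne_zero _ (exp_ne_zero _)
  refine ((countable_singleton (z / om k ^ j)).preimage_circleMap 0
    (show RR k ≠ 0 by linarith)).mono fun θ hθ => ?_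
  simp only [mem_preimage, mem_singleton_iff, gam] at hθ ⊢
  rw [eq_div_iff h0, hθ]

theorem disc_bound (k : ℕ) (P : Polynomial ℂ) (hP : P.Monic) (hd : P.natDegree = k + 1) (θ : ℝ) :
    ((k : ℝ) + 2) * ((k : ℝ) + 3) ^ 2 ≤ ∑ j ∈ Finset.range (k + 2), ‖P.eval (gam k j θ)‖ ^ 2 := by
  set ζ := circleMap 0 (RR k) θ with hζ
  have hζn : ‖ζ‖ = RR k := by
    have := one_lt_RR k
    simp [hζ, abs_of_pos (show 0 < RR k by linarith)]
  have h1 : ∑ j ∈ Finset.range (k + 2), P.eval (gam k j θ) * om k ^ j =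
      ζ ^ (k + 1) * ((k + 2 : ℕ) : ℂ) := by
    have h2 : ∀ j, P.eval (gam k j θ) * om k ^ j =
        ∑ i ∈ Finset.range (k + 2), P.coeff i * ζ ^ i * (om k ^ (i + 1)) ^ j := by
      intro j
      rw [Polynomial.eval_eq_sum_range, hd, Finset.sum_mul]
      refine Finset.sum_congr rfl fun i _ => ?_
      rw [gam, ← hζ]
      ring
    simp_rw [h2]
    rw [Finset.sum_comm, Finset.sum_range_succ, Finset.sum_eq_zero, zero_add]
    · have h3 : P.coeff (k + 1) = 1 := by rw [← hd]; exact hP
      rw [h3, (om_prim k).pow_eq_one]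
      simp [mul_comm]
    · intro i hi
      have hi' := Finset.mem_range.1 hi
      rw [← Finset.mul_sum, geom_sum_eq ((om_prim k).pow_ne_one_of_pos_of_lt (by omega) (by omega)),
        ← pow_mul, mul_comm (i + 1), pow_mul, (om_prim k).pow_eq_one]
      simp
  have h4 : ((k : ℝ) + 3) * ((k : ℝ) + 2) ≤ ∑ j ∈ Finset.range (k + 2), ‖P.eval (gam k j θ)‖ := by
    have h5 := norm_sum_le (Finset.range (k + 2)) fun j => P.eval (gam k j θ) * om k ^ j
    rw [h1, norm_mul, norm_pow, hζn, RR_pow, Complex.norm_natCast] at h5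
    push_cast at h5
    simpa [norm_om] using h5
  have h6 := sq_sum_le_card_mul_sum_sq (s := Finset.range (k + 2))
    (f := fun j => ‖P.eval (gam k j θ)‖)
  rw [Finset.card_range] at h6
  push_cast at h6
  have hk : (0 : ℝ) < (k : ℝ) + 2 := by positivity
  have h7 : (((k : ℝ) + 3) * ((k : ℝ) + 2)) ^ 2 ≤
      (∑ j ∈ Finset.range (k + 2), ‖P.eval (gam k j θ)‖) ^ 2 := by gcongr
  refine le_of_mul_le_mul_left ?_ hk
  nlinarith

theorem exists_close (k : ℕ) (θ α : ℝ) : ∃ j ∈ Finset.range (k + 2),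
    dist (gam k j θ) (circleMap 0 1 α) ≤ (RR k - 1) + 2 * Real.pi / ((k : ℝ) + 2) := by
  have hpi := Real.pi_pos
  have hk : (0 : ℝ) < (k : ℝ) + 2 := by positivity
  set s : ℝ := 2 * Real.pi / ((k : ℝ) + 2) with hs
  have hs0 : 0 < s := by positivity
  set t : ℤ := ⌊(α - θ) / s⌋ with ht
  have hM : ((k + 2 : ℕ) : ℤ) ≠ 0 := by omega
  have hnn := Int.emod_nonneg t hM
  have hlt := Int.emod_lt_of_pos t (show (0 : ℤ) < ((k + 2 : ℕ) : ℤ) by omega)
  refine ⟨(t % ((k + 2 : ℕ) : ℤ)).toNat, Finset.mem_range.2 (by omega), ?_⟩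
  have h1 : om k ^ (t % ((k + 2 : ℕ) : ℤ)).toNat = om k ^ t := by
    rw [← zpow_natCast, Int.toNat_of_nonneg hnn]
    conv_rhs => rw [← Int.emod_add_mul_ediv t ((k + 2 : ℕ) : ℤ)]
    rw [zpow_add₀ (show om k ≠ 0 from exp_ne_zero _), zpow_mul, zpow_natCast (om k) (k + 2),
      (om_prim k).pow_eq_one, one_zpow, mul_one]
  have h2 : gam k (t % ((k + 2 : ℕ) : ℤ)).toNat θ = circleMap 0 (RR k) (θ + t * s) := by
    rw [gam, h1, om, ← exp_int_mul]
    simp only [circleMap, zero_add]
    rw [mul_assoc, ← exp_add]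
    congr 2
    rw [hs]
    push_cast
    ring
  rw [h2]
  have h3 : dist (circleMap 0 (RR k) (θ + t * s)) (circleMap 0 1 (θ + t * s)) = RR k - 1 := by
    have := one_lt_RR k
    rw [dist_eq_norm]
    simp only [circleMap, zero_add]
    rw [← sub_mul, norm_mul, norm_exp_ofReal_mul_I, mul_one, ← ofReal_sub, norm_real,
      Real.norm_of_nonneg (by linarith)]
  have h4 := (lipschitzWith_circleMap 0 1).dist_le_mul (θ + t * s) α
  have h5 : dist (θ + t * s) α ≤ s := by
    have a1 : (t : ℝ) ≤ (α - θ) / s := Int.floor_le _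
    have a2 : (α - θ) / s < t + 1 := Int.lt_floor_add_one _
    rw [le_div_iff₀ hs0] at a1
    rw [div_lt_iff₀ hs0] at a2
    rw [Real.dist_eq, abs_le]
    constructor <;> nlinarith
  have h6 := dist_triangle (circleMap 0 (RR k) (θ + t * s)) (circleMap 0 1 (θ + t * s))
    (circleMap 0 1 α)
  simp only [Real.coe_nnabs, abs_one, one_mul] at h4
  linarith

/-- weights -/
noncomputable def ww (k : ℕ) : ℝ := 1 / (((k : ℝ) + 1) * ((k : ℝ) + 2))

theorem hasSum_ww : HasSum ww 1 := by
  rw [hasSum_iff_tendsto_nat_of_nonneg (fun k => by unfold ww; positivity)]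
  have h : ∀ n : ℕ, ∑ i ∈ Finset.range n, ww i = 1 - 1 / ((n : ℝ) + 1) := by
    intro n
    induction n with
    | zero => simp
    | succ n ih =>
      rw [Finset.sum_range_succ, ih, ww]
      push_cast
      field_simp
      ring
  simp_rw [h]
  simpa using tendsto_const_nhds.sub (tendsto_one_div_add_atTop_nhds_zero_nat (𝕜 := ℝ))

/-- level measures -/
noncomputable def muk (l : Measure ℝ) (k : ℕ) : Measure ℂ :=
  ENNReal.ofReal (ww k / ((k : ℝ) + 2)) • ∑ j ∈ Finset.range (k + 2), l.map (gam k j)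

/-- the measure -/
noncomputable def mu (l : Measure ℝ) : Measure ℂ := Measure.sum (muk l)

theorem mu_null (l : Measure ℝ) (A : Set ℂ) (hA : MeasurableSet A)
    (h : ∀ k j, j < k + 2 → l (gam k j ⁻¹' A) = 0) : mu l A = 0 := by
  rw [mu, Measure.sum_apply _ hA, ENNReal.tsum_eq_zero]
  intro k
  rw [muk, Measure.smul_apply, Measure.finsetSum_apply, Finset.sum_eq_zero, smul_zero]
  intro j hj
  rw [Measure.map_apply (continuous_gam k j).measurable hA, h k j (Finset.mem_range.1 hj)]

theorem mu_prob (l : Measure ℝ) [IsProbabilityMeasure l] : IsProbabilityMeasure (mu l) := by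
  constructor
  rw [mu, Measure.sum_apply _ MeasurableSet.univ]
  have h : ∀ k, muk l k univ = ENNReal.ofReal (ww k) := by
    intro k
    have hw : 0 ≤ ww k := by unfold ww; positivity
    rw [muk, Measure.smul_apply, Measure.finsetSum_apply,
      Finset.sum_congr rfl (g := fun _ => (1 : ENNReal))]
    · rw [Finset.sum_const, Finset.card_range, nsmul_one, smul_eq_mul, ← ENNReal.ofReal_natCast,
        ← ENNReal.ofReal_mul (by positivity)]
      congr 1
      push_cast
      field_simp
    · intro j _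
      rw [Measure.map_apply (continuous_gam k j).measurable MeasurableSet.univ]
      simp
  simp_rw [h]
  rw [← ENNReal.ofReal_tsum_of_nonneg (fun k => by unfold ww; positivity) hasSum_ww.summable,
    hasSum_ww.tsum_eq, ENNReal.ofReal_one]

theorem exists_bound : ∃ B : ℝ, ∀ k, RR k ≤ B := by
  obtain ⟨B, hB⟩ := tendsto_RR.bddAbove_range
  exact ⟨B, fun k => hB ⟨k, rfl⟩⟩

theorem mu_ball (l : Measure ℝ) {B : ℝ} (hB : ∀ k, RR k ≤ B) :
    mu l (closedBall (0 : ℂ) B)ᶜ = 0 := by
  refine mu_null l _ isClosed_closedBall.measurableSet.compl fun k j _ => ?_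
  have : gam k j ⁻¹' (closedBall (0 : ℂ) B)ᶜ = ∅ := by
    ext θ; simp [norm_gam, hB k]
  rw [this, measure_empty]

theorem sphere_subset (l : Measure ℝ) [IsProbabilityMeasure l] :
    sphere (0 : ℂ) 1 ⊆ (mu l).support := by
  intro x hx
  rw [Measure.mem_support_iff_forall]
  intro U hU
  obtain ⟨ε, hε, hεU⟩ := Metric.mem_nhds_iff.1 hU
  obtain ⟨α, rfl⟩ : x ∈ range (circleMap 0 1) := by rw [range_circleMap]; simpa using hx
  have h1 : Tendsto (fun k : ℕ => (RR k - 1) + 2 * Real.pi / ((k : ℝ) + 2)) atTop (𝓝 0) := by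
    have a := tendsto_RR.sub_const 1
    have b : Tendsto (fun k : ℕ => 2 * Real.pi / ((k : ℝ) + 2)) atTop (𝓝 0) :=
      tendsto_const_nhds.div_atTop
        (tendsto_atTop_add_const_right atTop (2 : ℝ) tendsto_natCast_atTop_atTop)
    simpa using a.add b
  obtain ⟨k, hk⟩ := (h1.eventually (gt_mem_nhds hε)).exists
  refine lt_of_lt_of_le ?_ (measure_mono hεU)
  refine lt_of_lt_of_le ?_ (Measure.le_sum (muk l) k _)
  rw [muk, Measure.smul_apply, Measure.finsetSum_apply, smul_eq_mul]
  have hw : 0 < ww k := by unfold ww; positivity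
  refine ENNReal.mul_pos (ENNReal.ofReal_pos.2 (by positivity)).ne' ?_
  have h2 : (univ : Set ℝ) ⊆ ⋃ j ∈ Finset.range (k + 2), gam k j ⁻¹' ball (circleMap 0 1 α) ε := by
    intro θ _
    obtain ⟨j, hj, hd⟩ := exists_close k θ α
    exact mem_iUnion₂.2 ⟨j, hj, lt_of_le_of_lt hd hk⟩
  have h3 := (measure_mono (μ := l) h2).trans (measure_biUnion_finset_le _ _)
  rw [measure_univ] at h3
  intro h0
  rw [Finset.sum_congr rfl fun j _ =>
    Measure.map_apply (continuous_gam k j).measurable measurableSet_ball] at h0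
  rw [h0] at h3
  simp at h3

theorem support_subset (l : Measure ℝ) (E : Set ℝ) (hE : IsCompact E) (hl : l Eᶜ = 0) :
    (mu l).support ⊆ sphere (0 : ℂ) 1 ∪ ⋃ k, ⋃ j, gam k j '' E := by
  intro z hz
  by_contra hcon
  simp only [mem_union, not_or] at hcon
  have key : ∀ η : ℝ, 0 < η → 1 ≤ ‖z‖ ∧ ‖z‖ ≤ 1 + η := by
    intro η hη
    obtain ⟨N, hN⟩ := eventually_atTop.1 (tendsto_RR.eventually (gt_mem_nhds
      (show (1 : ℝ) < 1 + η by linarith)))
    let A : Set ℂ := (⋃ k ∈ Finset.range N, ⋃ j ∈ Finset.range (k + 2), gam k j '' E) ∪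
      {z | 1 ≤ ‖z‖ ∧ ‖z‖ ≤ 1 + η}
    have hA : IsClosed A := by
      refine IsClosed.union ?_ ((isClosed_le continuous_const continuous_norm).inter
        (isClosed_le continuous_norm continuous_const))
      refine isClosed_biUnion_finset fun k _ => isClosed_biUnion_finset fun j _ => ?_
      exact (hE.image (continuous_gam k j)).isClosed
    have hA2 : mu l Aᶜ = 0 := by
      refine mu_null l _ hA.measurableSet.compl fun k j hj => measure_mono_null ?_ hl
      intro θ hθ hθE
      apply hθ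
      by_cases hk : k < N
      · left
        exact mem_iUnion₂.2 ⟨k, Finset.mem_range.2 hk,
          mem_iUnion₂.2 ⟨j, Finset.mem_range.2 hj, mem_image_of_mem _ hθE⟩⟩
      · right
        refine ⟨?_, ?_⟩
        · rw [norm_gam]; exact (one_lt_RR k).le
        · rw [norm_gam]; exact (hN k (by omega)).le
    rcases Measure.support_subset_of_isClosed hA hA2 hz with h | h
    · exfalso
      obtain ⟨k, -, h⟩ := mem_iUnion₂.1 h
      obtain ⟨j, -, h⟩ := mem_iUnion₂.1 h
      exact hcon.2 (mem_iUnion₂.2 ⟨k, j, h⟩)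
    · exact h
  apply hcon.1
  rw [mem_sphere_zero_iff_norm]
  exact le_antisymm (le_of_forall_pos_le_add fun η hη => (key η hη).2) (key 1 one_pos).1

theorem lower (l : Measure ℝ) [IsProbabilityMeasure l] (k : ℕ) (P : Polynomial ℂ) (hP : P.Monic)
    (hd : P.natDegree = k + 1) : 1 ≤ ∫ z, ‖P.eval z‖ ^ 2 ∂(mu l) := by
  have := mu_prob l
  obtain ⟨B, hB⟩ := exists_bound
  have hc : Continuous fun z : ℂ => ‖P.eval z‖ ^ 2 := (P.continuous.norm).pow 2
  obtain ⟨C, hC⟩ := (isCompact_closedBall (0 : ℂ) B).exists_bound_of_continuousOn hc.continuousOn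
  have hint : Integrable (fun z : ℂ => ‖P.eval z‖ ^ 2) (mu l) := by
    refine Integrable.of_bound (C := C) hc.aestronglyMeasurable ?_
    filter_upwards [show closedBall (0 : ℂ) B ∈ ae (mu l) from mu_ball l hB] with z hz
    exact hC z hz
  have hi2 : ∀ j, Integrable (fun θ : ℝ => ‖P.eval (gam k j θ)‖ ^ 2) l := fun j =>
    Integrable.of_bound (C := C) (hc.comp (continuous_gam k j)).aestronglyMeasurable
      (Eventually.of_forall fun θ => hC _ (by simp [norm_gam, hB k]))
  refine le_trans ?_ (integral_mono_measure (Measure.le_sum (muk l) k)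
    (Eventually.of_forall fun z => by positivity) hint)
  have hw : 0 < ww k := by unfold ww; positivity
  rw [muk, integral_smul_measure, integral_finsetSum_measure (fun j _ =>
    (integrable_map_measure hc.aestronglyMeasurable
      (continuous_gam k j).measurable.aemeasurable).2 (hi2 j)),
    Finset.sum_congr rfl fun j _ =>
      integral_map (continuous_gam k j).measurable.aemeasurable hc.aestronglyMeasurable,
    ← integral_finsetSum _ fun j _ => hi2 j, ENNReal.toReal_ofReal (by positivity), smul_eq_mul]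
  have h1 := integral_mono (integrable_const (((k : ℝ) + 2) * ((k : ℝ) + 3) ^ 2))
    (integrable_finsetSum _ fun j _ => hi2 j) (disc_bound k P hP hd)
  simp only [integral_const, probReal_univ, smul_eq_mul, one_mul] at h1
  refine le_trans ?_ (mul_le_mul_of_nonneg_left h1 (by positivity))
  have hk : (0 : ℝ) ≤ k := by positivity
  rw [ww, div_mul_eq_mul_div, le_div_iff₀ (by positivity), div_mul_eq_mul_div,
    le_div_iff₀ (by positivity)]
  nlinarith [mul_nonneg hk hk, mul_nonneg hk (mul_nonneg hk hk)]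

end Pool.Agent.H281Z.Wid
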